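import Pool.Agent.Work.MP_a793bb_nt.OrdH.WindowH
import Pool.Agent.Work.MP_a793bb_nt.RadE.FinalE

/-!
# The points whose height is large compared with the radical

Proofs. `partIII_affine`: `δ, ℓ0, C0, C` from `window_countH`, `C₁` from `eff_height` (`RadE/EffK.lean`), `Lam = 2 C0`,
`η = δ / 2`. For `ℓ ≥ ℓ0` and `t` in the set, `hh t ≤ exp (C₁ ℓ ^ 2)`, so `t` lies in `wsetK K ℓ (2 ^ i C0 ℓ)` for
some `i ≤ I0 = ⌈2 C₁ ℓ ^ 2⌉₊` (`2 ^ i C0 ℓ < hh t ≤ 2 ^ (i + 1) C0 ℓ`; `2 ^ I0 ≥ exp (C₁ ℓ ^ 2)`). So the set has at most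
`(I0 + 1) C exp ((2 / 3 - δ) ℓ) ≤ C' exp ((2 / 3 - δ / 2) ℓ)` elements. For `0 ≤ ℓ ≤ ℓ0` the set is contained in the finite
set `{t | t ≠ 0, t ≠ 1, Rs (Ip t) ≤ ℓ0}` (finite because of `eff_height` and Northcott, as in `WindowK.lean`, or because it
is the image of `abcPts K (exp ℓ0)`), and `exp ((2 / 3 - η) ℓ) ≥ 1` (we may take `η ≤ 2 / 3`). `partIII`: as in
`RadE/FinalE.lean`, `radPts_eq` in `RadK/FinalK.lean`: `{P ∈ abcPts K R | ...}` is the image under `BPlus.ptOf` of the set in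
`partIII_affine` for `ℓ = log R` (`Rs (Ip t) = d rad`, `hh t = d ht`).
-/

set_option autoImplicit false

namespace Pool.Agent.Work.MP_a793bb_nt

open Finset AbcRad AbcRadK AbcOrdH Pool.Agent.Work.MP_a793bb_nt.BPlus NumberField
  IsDedekindDomain Height LinearAlgebra.Projectivization

/-- The points of `abcPts K R` with `d h(P) ≥ Lam log R`, `d` the degree of `K`. -/
def highPts (K : Type*) [Field K] [NumberField K] (Lam R : ℝ) : Set (ℙ K (Fin 3 → K)) :=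
  {P | ∃ (a b c : K) (h : ![a, b, c] ≠ 0), P = Projectivization.mk K ![a, b, c] h ∧
    a + b + c = 0 ∧ a * b * c ≠ 0 ∧ Real.exp ((Module.finrank ℚ K : ℝ) * rad a b c) ≤ R ∧
    Lam * Real.log R ≤ (Module.finrank ℚ K : ℝ) * ht a b c}

private theorem FinalH_scale (x : ℝ) (N : ℕ) (hx : 1 < x) (hN : x ≤ 2 ^ N) :
    ∃ i < N, (2 : ℝ) ^ i < x ∧ x ≤ 2 ^ (i + 1) := by
  classical
  have hN0 : N ≠ 0 := by
    rintro rfl
    simp only [pow_zero] at hN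
    linarith
  obtain ⟨k, rfl⟩ := Nat.exists_eq_succ_of_ne_zero hN0
  have hex : ∃ i : ℕ, x ≤ (2 : ℝ) ^ (i + 1) := ⟨k, hN⟩
  refine ⟨Nat.find hex, Nat.lt_succ_of_le (Nat.find_min' hex hN), ?_, Nat.find_spec hex⟩
  rcases Nat.eq_zero_or_pos (Nat.find hex) with h0 | h0
  · rw [h0, pow_zero]
    exact hx
  · have h1 := Nat.find_min hex (show Nat.find hex - 1 < Nat.find hex by omega)
    rw [show Nat.find hex - 1 + 1 = Nat.find hex by omega] at h1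
    exact not_le.mp h1

private theorem FinalH_exp_le (t : ℝ) (ht : 0 ≤ t) (N : ℕ) (hN : 2 * t ≤ N) :
    Real.exp t ≤ 2 ^ N := by
  have h1 : Real.exp t ≤ (2 : ℝ) ^ (2 * t) := by
    rw [Real.rpow_def_of_pos (by norm_num)]
    apply Real.exp_le_exp.mpr
    have h2 := Real.log_two_gt_d9
    nlinarith
  have h3 : (2 : ℝ) ^ N = (2 : ℝ) ^ (N : ℝ) := (Real.rpow_natCast 2 N).symm
  rw [h3]
  exact h1.trans (Real.rpow_le_rpow_of_exponent_le (by norm_num) hN)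

private theorem FinalH_fin (K : Type*) [Field K] [NumberField K] (B : ℝ) :
    {t : K | hh t ≤ B}.Finite := by
  refine (NumberField.finite_setOfPred_mulHeight₁_le K (Real.exp B)).subset ?_
  intro t ht
  simp only [Set.mem_ofPred_eq] at ht ⊢
  have h1 : logHeight₁ t ≤ hh t := logHeight₁_le_triple t
  rw [logHeight₁_eq_log_mulHeight₁] at h1
  exact (Real.log_le_iff_le_exp (mulHeight₁_pos t)).mp (h1.trans ht)

private theorem FinalH_fin' (K : Type*) [Field K] [NumberField K] (ℓ : ℝ) :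
    {t : K | t ≠ 0 ∧ t ≠ 1 ∧ Rs (Ip t) ≤ ℓ}.Finite := by
  obtain ⟨C₁, -, hE⟩ := eff_height K
  refine (FinalH_fin K (Real.exp (C₁ * (max ℓ 1) ^ 2))).subset ?_
  rintro t ⟨h0, h1, h2⟩
  exact hE (max ℓ 1) t (le_max_right _ _) h0 h1 (h2.trans (le_max_left _ _))

theorem partIII_affine (K : Type*) [Field K] [NumberField K] :
    ∃ Lam η C : ℝ, 1 ≤ Lam ∧ 0 < η ∧ ∀ ℓ : ℝ, 0 ≤ ℓ →
      {t : K | t ≠ 0 ∧ t ≠ 1 ∧ Rs (Ip t) ≤ ℓ ∧ Lam * ℓ ≤ hh t}.Finite ∧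
      ({t : K | t ≠ 0 ∧ t ≠ 1 ∧ Rs (Ip t) ≤ ℓ ∧ Lam * ℓ ≤ hh t}.ncard : ℝ) ≤
        C * Real.exp ((2 / 3 - η) * ℓ) := by
  classical
  obtain ⟨δ, ℓ0, C0, C, hδ, hℓ0, hC0, hC, hwin⟩ := window_countH K
  obtain ⟨C₁, hC₁, hE⟩ := eff_height K
  have hη0 : 0 < min (δ / 2) (1 / 3) := lt_min (by linarith) (by norm_num)
  obtain ⟨S0, hS0⟩ : ∃ S0 : Set K, S0 = {t : K | t ≠ 0 ∧ t ≠ 1 ∧ Rs (Ip t) ≤ ℓ0} := ⟨_, rfl⟩
  have hS0f : S0.Finite := by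
    rw [hS0]
    exact FinalH_fin' K _
  refine ⟨2 * C0, min (δ / 2) (1 / 3), 24 * C₁ * C / δ ^ 2 + (S0.ncard : ℝ), by linarith, hη0, ?_⟩
  obtain ⟨η, hη⟩ : ∃ η : ℝ, η = min (δ / 2) (1 / 3) := ⟨_, rfl⟩
  rw [← hη]
  rw [← hη] at hη0
  have hη1 : η ≤ δ / 2 := hη.le.trans (min_le_left _ _)
  have hη2 : η ≤ 1 / 3 := hη.le.trans (min_le_right _ _)
  intro ℓ hℓ
  have hsetfin : {t : K | t ≠ 0 ∧ t ≠ 1 ∧ Rs (Ip t) ≤ ℓ ∧ 2 * C0 * ℓ ≤ hh t}.Finite :=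
    (FinalH_fin' K ℓ).subset (fun t ht => ⟨ht.1, ht.2.1, ht.2.2.1⟩)
  refine ⟨hsetfin, ?_⟩
  have hS00 : (0 : ℝ) ≤ (S0.ncard : ℝ) := Nat.cast_nonneg _
  have hpow1 : 1 ≤ Real.exp ((2 / 3 - η) * ℓ) :=
    Real.one_le_exp (mul_nonneg (by linarith) hℓ)
  have hmain0 : 0 ≤ 24 * C₁ * C / δ ^ 2 := by positivity
  rcases lt_or_ge ℓ ℓ0 with hRR | hRR
  · have hsub : {t : K | t ≠ 0 ∧ t ≠ 1 ∧ Rs (Ip t) ≤ ℓ ∧ 2 * C0 * ℓ ≤ hh t} ⊆ S0 := by
      rintro t ⟨h0, h1, h2, -⟩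
      rw [hS0]
      exact ⟨h0, h1, h2.trans hRR.le⟩
    have h4 := Set.ncard_le_ncard hsub hS0f
    have h5 : (({t : K | t ≠ 0 ∧ t ≠ 1 ∧ Rs (Ip t) ≤ ℓ ∧ 2 * C0 * ℓ ≤ hh t}.ncard : ℕ) : ℝ) ≤
        (S0.ncard : ℝ) := Nat.cast_le.mpr h4
    refine h5.trans ?_
    have h6 : (S0.ncard : ℝ) * 1 ≤ (S0.ncard : ℝ) * Real.exp ((2 / 3 - η) * ℓ) :=
      mul_le_mul_of_nonneg_left hpow1 hS00
    have h7 : 0 ≤ 24 * C₁ * C / δ ^ 2 * Real.exp ((2 / 3 - η) * ℓ) := by positivity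
    linarith
  · have hℓ1 : 1 ≤ ℓ := hℓ0.trans hRR
    have hsq : 1 ≤ ℓ ^ 2 := one_le_pow₀ hℓ1
    have hx : 1 ≤ C₁ * ℓ ^ 2 := by nlinarith
    obtain ⟨N, hN⟩ : ∃ N : ℕ, N = ⌈2 * (C₁ * ℓ ^ 2)⌉₊ := ⟨_, rfl⟩
    have hN1 : 2 * (C₁ * ℓ ^ 2) ≤ N := by
      rw [hN]
      exact Nat.le_ceil _
    have hN2 : (N : ℝ) ≤ 3 * (C₁ * ℓ ^ 2) := by
      have h1 : (N : ℝ) < 2 * (C₁ * ℓ ^ 2) + 1 := by
        rw [hN]
        exact Nat.ceil_lt_add_one (by positivity)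
      linarith
    have hC0R : 1 ≤ C0 * ℓ := by nlinarith
    have hC0R0 : 0 < C0 * ℓ := by linarith
    have hQi : ∀ i : ℕ, C0 * ℓ ≤ 2 ^ i * (C0 * ℓ) := fun i =>
      le_mul_of_one_le_left hC0R0.le (one_le_pow₀ (by norm_num))
    have hwi : ∀ i : ℕ, (wsetK K ℓ (2 ^ i * (C0 * ℓ))).Finite := fun i =>
      (hwin ℓ _ hRR (hQi i)).1
    have hsub : {t : K | t ≠ 0 ∧ t ≠ 1 ∧ Rs (Ip t) ≤ ℓ ∧ 2 * C0 * ℓ ≤ hh t} ⊆
        (((Finset.range N).biUnion (fun i => (hwi i).toFinset) : Finset K) : Set K) := by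
      rintro t ⟨ht0, ht1, hr, h⟩
      rw [Finset.mem_coe]
      have hx1 : 1 < hh t / (C0 * ℓ) := by
        rw [lt_div_iff₀ hC0R0, one_mul]
        have : 2 * C0 * ℓ = 2 * (C0 * ℓ) := by ring
        linarith
      have hx2 : hh t / (C0 * ℓ) ≤ 2 ^ N := by
        rw [div_le_iff₀ hC0R0]
        have h2 := FinalH_exp_le (C₁ * ℓ ^ 2) (by linarith) N hN1
        have h3 := hE ℓ t hℓ1 ht0 ht1 hr
        have h4 : (0 : ℝ) < 2 ^ N := by positivity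
        nlinarith
      obtain ⟨i, hi, h5, h6⟩ := FinalH_scale _ N hx1 hx2
      rw [Finset.mem_biUnion]
      refine ⟨i, Finset.mem_range.mpr hi, ?_⟩
      rw [Set.Finite.mem_toFinset]
      refine ⟨ht0, ht1, hr, ?_, ?_⟩
      · rw [lt_div_iff₀ hC0R0] at h5
        exact h5
      · rw [div_le_iff₀ hC0R0, pow_succ] at h6
        linarith
    have h4 := Set.ncard_le_ncard hsub (Finset.finite_toSet _)
    rw [Set.ncard_coe_finset] at h4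
    have h5 := h4.trans Finset.card_biUnion_le
    have h6 : (({t : K | t ≠ 0 ∧ t ≠ 1 ∧ Rs (Ip t) ≤ ℓ ∧ 2 * C0 * ℓ ≤ hh t}.ncard : ℕ) : ℝ) ≤
        ((∑ i ∈ Finset.range N, ((hwi i).toFinset).card : ℕ) : ℝ) := Nat.cast_le.mpr h5
    refine h6.trans ?_
    rw [Nat.cast_sum]
    have h7 : ∑ i ∈ Finset.range N, (((hwi i).toFinset).card : ℝ) ≤
        ∑ i ∈ Finset.range N, C * Real.exp ((2 / 3 - δ) * ℓ) := by
      refine Finset.sum_le_sum ?_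
      intro i _
      rw [← Set.ncard_eq_toFinset_card _ (hwi i)]
      exact (hwin ℓ _ hRR (hQi i)).2
    rw [Finset.sum_const, Finset.card_range, nsmul_eq_mul] at h7
    refine h7.trans ?_
    have h8 : ℓ ^ 2 ≤ 8 / δ ^ 2 * Real.exp (δ / 2 * ℓ) := by
      have h9 := Real.quadratic_le_exp_of_nonneg (show 0 ≤ δ / 2 * ℓ by positivity)
      have h10 : (δ / 2 * ℓ) ^ 2 / 2 ≤ Real.exp (δ / 2 * ℓ) := by
        have : 0 ≤ δ / 2 * ℓ := by positivity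
        linarith
      have h11 : ℓ ^ 2 = 8 / δ ^ 2 * ((δ / 2 * ℓ) ^ 2 / 2) := by
        field_simp
        ring
      rw [h11]
      exact mul_le_mul_of_nonneg_left h10 (by positivity)
    have h12 : Real.exp (δ / 2 * ℓ) * Real.exp ((2 / 3 - δ) * ℓ) ≤
        Real.exp ((2 / 3 - η) * ℓ) := by
      rw [← Real.exp_add]
      refine Real.exp_le_exp.mpr ?_
      nlinarith
    have h13 : (N : ℝ) * (C * Real.exp ((2 / 3 - δ) * ℓ)) ≤
        24 * C₁ * C / δ ^ 2 * Real.exp ((2 / 3 - η) * ℓ) := by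
      calc (N : ℝ) * (C * Real.exp ((2 / 3 - δ) * ℓ))
          ≤ (3 * (C₁ * ℓ ^ 2)) * (C * Real.exp ((2 / 3 - δ) * ℓ)) :=
            mul_le_mul_of_nonneg_right hN2 (mul_nonneg hC (Real.exp_pos _).le)
        _ = 3 * C₁ * C * (ℓ ^ 2 * Real.exp ((2 / 3 - δ) * ℓ)) := by ring
        _ ≤ 3 * C₁ * C * ((8 / δ ^ 2 * Real.exp (δ / 2 * ℓ)) * Real.exp ((2 / 3 - δ) * ℓ)) := by
            refine mul_le_mul_of_nonneg_left ?_ (by positivity)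
            exact mul_le_mul_of_nonneg_right h8 (Real.exp_pos _).le
        _ = 24 * C₁ * C / δ ^ 2 * (Real.exp (δ / 2 * ℓ) * Real.exp ((2 / 3 - δ) * ℓ)) := by
            ring
        _ ≤ 24 * C₁ * C / δ ^ 2 * Real.exp ((2 / 3 - η) * ℓ) :=
            mul_le_mul_of_nonneg_left h12 hmain0
    have h14 : 0 ≤ (S0.ncard : ℝ) * Real.exp ((2 / 3 - η) * ℓ) := by positivity
    linarith

private theorem highPts_eq {K : Type*} [Field K] [NumberField K] (Lam R : ℝ) :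
    highPts K Lam R = BPlus.ptOf '' {t : K | t ≠ 0 ∧ t ≠ 1 ∧ Real.exp (Rs (Ip t)) ≤ R ∧
      Lam * Real.log R ≤ BPlus.hh t} := by
  set d : ℝ := (Module.finrank ℚ K : ℝ) with hd
  have hd0 : 0 < d := finrank_pos'
  have hconv : ∀ t : K, (Real.exp (d * rad t (1 - t) (-1)) ≤ R ∧
      Lam * Real.log R ≤ d * ht t (1 - t) (-1)) ↔
      (Real.exp (Rs (Ip t)) ≤ R ∧ Lam * Real.log R ≤ BPlus.hh t) := by
    intro t
    have e1 : ht t (1 - t) (-1) = BPlus.hh t / d := rfl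
    have e2 : rad t (1 - t) (-1) = Rs (Ip t) / d := rfl
    rw [e1, e2, mul_div_cancel₀ _ hd0.ne', mul_div_cancel₀ _ hd0.ne']
  ext P
  constructor
  · rintro ⟨a, b, c, h, rfl, habc, hne, h1, h2⟩
    have hc : c ≠ 0 := right_ne_zero_of_mul hne
    have hb : b ≠ 0 := right_ne_zero_of_mul (left_ne_zero_of_mul hne)
    have ha : a ≠ 0 := left_ne_zero_of_mul (left_ne_zero_of_mul hne)
    refine ⟨-a / c, ⟨affine_ne_zero ha hc, affine_ne_one hb hc habc, ?_⟩, ?_⟩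
    · rw [← hconv]
      have e1 : ht (-a / c) (1 - -a / c) (-1) = ht a b c := by
        rw [ht, ht, logHeight_affine hc habc]
      have e2 : rad (-a / c) (1 - -a / c) (-1) = rad a b c := (rad_affine hc habc).symm
      rw [e1, e2]
      exact ⟨h1, h2⟩
    · rw [BPlus.ptOf, Projectivization.mk_eq_mk_iff']
      refine ⟨-1 / c, ?_⟩
      have h2 : -1 / c * b = 1 - -a / c := by
        field_simp
        linear_combination -habc
      ext i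
      fin_cases i
      · change -1 / c * a = -a / c
        ring
      · exact h2
      · change -1 / c * c = -1
        field_simp
  · rintro ⟨t, ⟨h0, h1, h2, h3⟩, rfl⟩
    have h4 := (hconv t).mpr ⟨h2, h3⟩
    refine ⟨t, 1 - t, -1, BPlus.vec_ne_zero t, rfl, by ring, ?_, h4.1, h4.2⟩
    exact mul_ne_zero (mul_ne_zero h0 (sub_ne_zero.mpr (Ne.symm h1))) (by simp)

theorem partIII (K : Type*) [Field K] [NumberField K] :
    ∃ Lam η C : ℝ, 1 ≤ Lam ∧ 0 < η ∧ ∀ R : ℝ, 1 ≤ R →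
      (highPts K Lam R).Finite ∧ ((highPts K Lam R).ncard : ℝ) ≤ C * R ^ (2 / 3 - η) := by
  obtain ⟨Lam, η, C, hLam, hη, h⟩ := partIII_affine K
  refine ⟨Lam, η, C, hLam, hη, fun R hR => ?_⟩
  have hR0 : 0 < R := by linarith
  obtain ⟨hfin, hcard⟩ := h (Real.log R) (Real.log_nonneg hR)
  have hset : {t : K | t ≠ 0 ∧ t ≠ 1 ∧ Rs (Ip t) ≤ Real.log R ∧ Lam * Real.log R ≤ hh t} =
      {t : K | t ≠ 0 ∧ t ≠ 1 ∧ Real.exp (Rs (Ip t)) ≤ R ∧ Lam * Real.log R ≤ hh t} := by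
    ext t
    simp only [Set.mem_ofPred_eq]
    rw [← Real.le_log_iff_exp_le hR0]
  have hpow : Real.exp ((2 / 3 - η) * Real.log R) = R ^ (2 / 3 - η) := by
    rw [Real.rpow_def_of_pos hR0, mul_comm]
  rw [hset] at hfin hcard
  rw [hpow] at hcard
  rw [highPts_eq]
  refine ⟨hfin.image _, ?_⟩
  rw [Set.ncard_image_of_injective _ BPlus.ptOf_injective]
  exact hcard

end Pool.Agent.Work.MP_a793bb_nt
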