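import Pool.Agent.Work.MP_a793bb_nt.OrdH.DefsH
import Pool.Agent.Work.MP_a793bb_nt.RadK.BaseExK

/-!
# Every element satisfies `BaseK` for some `n = N / h`

Proof. Exactly the proof of `base_existsK` in `RadK/BaseExK.lean`, with a general `κ`, `0 < κ ≤ 1`,
and `H = ⌈2 / κ⌉₊ ^ ⌊1 / δ⌋₊`.
-/

set_option autoImplicit false

namespace AbcOrdH

open Finset AbcRad AbcRadK Pool.Agent.Work.MP_a793bb_nt Pool.Agent.Work.MP_a793bb_nt.BPlus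
  NumberField IsDedekindDomain Height

variable {K : Type*} [Field K] [NumberField K]

theorem base_existsG (δ κ ℓ Q : ℝ) (H : ℕ) (hδ : 0 < δ) (hδ1 : δ ≤ 1 / 10) (hκ : 0 < κ)
    (hκ1 : κ ≤ 1) (hH : H = ⌈2 / κ⌉₊ ^ ⌊1 / δ⌋₊) (hℓ : 1 ≤ ℓ) (hQ : 0 < Q)
    (hN : 2 * H ≤ NNK ℓ Q)
    (hNE : 4 * (4 * (Q / ℓ) / δ) * (H : ℝ) ^ 2 ≤ κ * (NNK ℓ Q : ℝ) ^ 2)
    (u : K) (hu : u ≠ 0) (hHt : logHeight₁ u ≤ 2 * Q) (hr : lsum (supp u) ≤ ℓ) :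
    ∃ h : ℕ, 1 ≤ h ∧ h ≤ H ∧ BaseK δ κ ℓ Q (NNK ℓ Q / h) u := by
  classical
  have hd : (1 : ℝ) ≤ (Module.finrank ℚ K : ℝ) := by
    exact_mod_cast Module.finrank_pos (R := ℚ) (M := K)
  have hℓ0 : 0 < ℓ := by linarith
  have hδℓ : 0 < δ * ℓ := by positivity
  obtain ⟨S, hS⟩ : ∃ S : Finset (HeightOneSpectrum (𝓞 K)), S = (supp u).filter
    (fun p => δ * ℓ < lN p) := ⟨_, rfl⟩
  have hSp : ∀ p ∈ S, δ * ℓ < lN p := by
    intro p hp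
    rw [hS, Finset.mem_filter] at hp
    exact hp.2
  have hcard : S.card ≤ ⌊1 / δ⌋₊ := by
    apply Nat.le_floor
    have e1 : (S.card : ℝ) * (δ * ℓ) ≤ ℓ := by
      calc (S.card : ℝ) * (δ * ℓ) = ∑ _p ∈ S, (δ * ℓ) := by rw [Finset.sum_const, nsmul_eq_mul]
        _ ≤ ∑ p ∈ S, lN p := Finset.sum_le_sum fun p hp => (hSp p hp).le
        _ ≤ ∑ p ∈ supp u, lN p := by
            refine Finset.sum_le_sum_of_subset_of_nonneg
              (by rw [hS]; exact Finset.filter_subset _ _) (fun p _ _ => (lN_pos p).le)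
        _ ≤ ℓ := hr
    rw [le_div_iff₀ hδ]
    have e2 : ((S.card : ℝ) * δ) * ℓ ≤ 1 * ℓ := by linarith
    exact le_of_mul_le_mul_right e2 hℓ0
  have hev : ∀ p ∈ S, |(kp p u : ℝ)| ≤ 4 * (Q / ℓ) / δ := by
    intro p hp
    have h1 := sum_kp_le u hu {p}
    rw [Finset.sum_singleton] at h1
    have h2 : |(kp p u : ℝ)| * (δ * ℓ) ≤ 4 * Q :=
      (mul_le_mul_of_nonneg_left (hSp p hp).le (abs_nonneg _)).trans (by linarith)
    have h5 : 4 * (Q / ℓ) / δ = 4 * Q / (δ * ℓ) := by field_simp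
    rw [h5, le_div_iff₀ hδℓ]
    exact h2
  obtain ⟨e, he⟩ : ∃ e : ℕ → ℤ, e = fun i =>
    if h : i < S.card then kp (S.equivFin.symm ⟨i, h⟩ : HeightOneSpectrum (𝓞 K)) u else 0 :=
    ⟨_, rfl⟩
  have he1 : ∀ i ∈ Finset.range S.card, |(e i : ℝ)| ≤ 4 * (Q / ℓ) / δ := by
    intro i hi
    rw [Finset.mem_range] at hi
    rw [he]
    simp only [hi, dif_pos]
    exact hev _ (S.equivFin.symm ⟨i, hi⟩).2
  obtain ⟨h, hh1, hhK, hh⟩ := dirichlet κ hκ hκ1 ⌊1 / δ⌋₊ (4 * (Q / ℓ) / δ)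
    (by positivity) (NNK ℓ Q) H hH hN hNE
    (Finset.range S.card) (by rw [Finset.card_range]; exact hcard) e he1
  refine ⟨h, hh1, hhK, ⟨hu, hHt, hr, ?_⟩⟩
  intro p hp hpR
  have hpS : p ∈ S := by rw [hS, Finset.mem_filter]; exact ⟨hp, hpR⟩
  have h1 := hh (S.equivFin ⟨p, hpS⟩ : Fin S.card) (Finset.mem_range.2 (S.equivFin ⟨p, hpS⟩).2)
  have h2 : e (S.equivFin ⟨p, hpS⟩ : Fin S.card) = kp p u := by
    rw [he]
    simp only [Fin.is_lt, dif_pos, Fin.eta, Equiv.symm_apply_apply]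
  rw [h2] at h1
  exact h1

end AbcOrdH
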