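import Pool.Agent.Work.MP_a793bb_nt.OrdH.PairU
import Pool.Agent.Work.MP_a793bb_nt.RadK.CellPK
import Pool.Agent.Work.MP_a793bb_nt.RadK.CellRK

/-!
# Two elements of a cell differ by a root of unity, uniform case

Proof. As `cellPK`, `cellRK`, with `pair_heightsU` (`κ = kU`, `ν = 4 μ`, `ε = epU d`) and `ParU.key` in place of
`pair_heights` and `ParK.key`; `μ = muU d` in place of `δ` (`M = exp (μ ℓ)` in `main_inf`). The private lemma
`inf_tau` of `RadK/CellRK.lean` may be copied.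
-/

set_option autoImplicit false

namespace AbcOrdH

open Finset AbcRad AbcRadK Pool.Agent.Work.MP_a793bb_nt Pool.Agent.Work.MP_a793bb_nt.BPlus
  NumberField IsDedekindDomain Height

variable {K : Type*} [Field K] [NumberField K]

private theorem kU_nonneg : 0 ≤ kU := by
  unfold kU
  norm_num

private theorem muU_pos {d : ℕ} (hd : 1 ≤ d) : 0 < muU d := by
  have h : (0 : ℝ) < d := by exact_mod_cast hd
  unfold muU
  positivity

private theorem epU_pos {d : ℕ} (hd : 1 ≤ d) : 0 < epU d := by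
  have h := muU_pos hd
  unfold epU
  positivity

private theorem inf_tau {Q : ℝ} {L : ℕ} {y : ℝ} (hQ : 8 * (Module.finrank ℚ K : ℝ) ≤ Q)
    (hL : (L : ℝ) * y ≤ Q / (8 * (Module.finrank ℚ K : ℝ))) (v₀ : InfinitePlace K) (u u' : K)
    (hu0 : u ≠ 0)
    (hc : v₀ (u - 1) ≤ 2 * Real.exp (-(Q / (2 * (Module.finrank ℚ K : ℝ)))))
    (hc' : v₀ (u' - 1) ≤ 2 * Real.exp (-(Q / (2 * (Module.finrank ℚ K : ℝ))))) :
    v₀ (u' / u - 1) ≤ Real.exp (-(L * y)) := by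
  have hd : (0 : ℝ) < Module.finrank ℚ K := by exact_mod_cast Module.finrank_pos
  set d : ℝ := (Module.finrank ℚ K : ℝ) with hdd
  set E : ℝ := Real.exp (-(Q / (2 * d))) with hE
  have hQd : 8 ≤ Q / d := by
    rw [le_div_iff₀ hd]
    exact hQ
  have h1 : Q / (2 * d) = Q / d / 2 := by
    rw [div_div, mul_comm]
  have h2 : Q / (8 * d) = Q / d / 8 := by
    rw [div_div, mul_comm]
  have hE4 : E ≤ 1 / 4 := by
    have h3 : E ≤ Real.exp (-2) := by
      rw [hE, Real.exp_le_exp, h1]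
      linarith
    have h4 : (4 : ℝ) ≤ Real.exp 2 := by
      have h5 := Real.add_one_le_exp (1 : ℝ)
      have h6 : Real.exp 2 = Real.exp 1 * Real.exp 1 := by
        rw [← Real.exp_add]
        norm_num
      rw [h6]
      nlinarith
    rw [Real.exp_neg] at h3
    refine h3.trans ?_
    rw [one_div]
    exact inv_anti₀ (by norm_num) h4
  have hE0 : 0 < E := Real.exp_pos _
  have hvu : 1 / 2 ≤ v₀ u := by
    rw [← InfinitePlace.norm_embedding_eq] at hc ⊢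
    rw [map_sub, map_one] at hc
    have h3 : ‖(1 : ℂ)‖ ≤ ‖v₀.embedding u‖ + ‖v₀.embedding u - 1‖ := by
      have e : (1 : ℂ) = v₀.embedding u - (v₀.embedding u - 1) := by ring
      conv_lhs => rw [e]
      exact norm_sub_le _ _
    rw [norm_one] at h3
    linarith
  have hnum : v₀ (u' - u) ≤ 4 * E := by
    have e : u' - u = (u' - 1) - (u - 1) := by ring
    rw [← InfinitePlace.norm_embedding_eq] at hc hc' ⊢
    rw [e, map_sub]
    refine (norm_sub_le _ _).trans ?_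
    linarith
  have h8 : v₀ (u' / u - 1) ≤ 8 * E := by
    have e : u' / u - 1 = (u' - u) / u := by
      field_simp
    rw [e, map_div₀, div_le_iff₀ (by linarith)]
    nlinarith
  refine h8.trans ?_
  have h9 : (8 : ℝ) ≤ Real.exp 3 := by
    have h5 := Real.add_one_le_exp (1 : ℝ)
    have h6 : Real.exp 3 = Real.exp 1 * Real.exp 1 * Real.exp 1 := by
      rw [← Real.exp_add, ← Real.exp_add]
      norm_num
    rw [h6]
    have h7 : (4 : ℝ) ≤ Real.exp 1 * Real.exp 1 := by nlinarith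
    nlinarith
  calc 8 * E ≤ Real.exp 3 * E := mul_le_mul_of_nonneg_right h9 hE0.le
    _ = Real.exp (3 - Q / (2 * d)) := by
      rw [hE, ← Real.exp_add]
      congr 1
    _ ≤ Real.exp (-(L * y)) := by
      rw [Real.exp_le_exp]
      rw [h2] at hL
      rw [h1]
      linarith

open Classical in
theorem cellUF (ℓ Q C : ℝ) (n I J L0 : ℕ)
    (hP : ParU (Module.finrank ℚ K) ℓ Q n I J L0)
    (U U' : Finset (HeightOneSpectrum (𝓞 K))) (u u' : K)
    (hu : BaseU kU (4 * muU (Module.finrank ℚ K)) ℓ Q n U u)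
    (hu' : BaseU kU (4 * muU (Module.finrank ℚ K)) ℓ Q n U' u')
    (hlab : SameLabU (epU (Module.finrank ℚ K)) ℓ Q n U U' u u')
    (b : Ideal (𝓞 K)) (ξ ξ' : K) (hd : Dec C n u b ξ) (hd' : Dec C n u' b ξ')
    (hinf : SameInf (epU (Module.finrank ℚ K)) ℓ Q n u u' ξ ξ')
    (S : Finset (HeightOneSpectrum (𝓞 K))) (m : HeightOneSpectrum (𝓞 K) → ℕ)
    (hm : ∀ p ∈ S, 1 ≤ m p)
    (hS : muU (Module.finrank ℚ K) * ℓ ≤ ∑ p ∈ S, (m p : ℝ) * lN p)
    (hL : ∀ p ∈ S, ((m p * L0 : ℕ) : ℤ) ≤ kp p (1 - u))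
    (hL' : ∀ p ∈ S, ((m p * L0 : ℕ) : ℤ) ≤ kp p (1 - u'))
    (hcl : ∀ p ∈ S, av p (ξ / ξ' - 1) ≤ Real.exp (-(m p * lN p))) :
    ∃ i : ℕ, 0 < i ∧ (u' / u) ^ i = 1 := by
  by_contra hcon
  push Not at hcon
  have hn : 1 ≤ n := by
    have h1 := hP.hJ8
    have h2 := hP.hJn
    omega
  have hℓ : 0 < ℓ := lt_of_lt_of_le one_pos hP.hℓ
  have hd1 : 1 ≤ Module.finrank ℚ K := hP.hd
  have hdR : (1 : ℝ) ≤ (Module.finrank ℚ K : ℝ) := by exact_mod_cast hd1
  have hQ0 : 0 < Q := by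
    have h1 := hP.hQ
    linarith
  have hIJ0 : 1 ≤ I * J := Nat.one_le_iff_ne_zero.2
    (Nat.mul_ne_zero (by have := hP.hI; omega) (by have := hP.hJ8; omega))
  obtain ⟨h1, h2⟩ := pair_heightsU kU (4 * muU (Module.finrank ℚ K)) (epU (Module.finrank ℚ K))
    ℓ Q C n hn kU_nonneg (epU_pos hd1) hP.hℓ hQ0 U U' u u' hu hu' hlab b ξ ξ' hd hd' hinf
  have h3 := main_fin n I J hP.hJ8 hP.hJn hP.hI S m hm (u' / u) (ξ / ξ')
    (div_ne_zero hu'.ne0 hu.ne0) (div_ne_zero hd.ne0 hd'.ne0) (fun i hi _ => hcon i hi) hcl (by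
      intro p hp
      have hN : 1 ≤ m p * L0 := by
        have h4 := hm p hp
        have h5 : 1 ≤ L0 := hIJ0.trans hP.hIJ
        exact Nat.one_le_iff_ne_zero.2 (Nat.mul_ne_zero (by omega) (by omega))
      refine (sub_av hu.ne0 hu'.ne0 p (m p * L0) hN (hL p hp) (hL' p hp)).trans ?_
      rw [Real.exp_le_exp, neg_le_neg_iff]
      refine mul_le_mul_of_nonneg_right ?_ (lN_pos p).le
      exact_mod_cast Nat.mul_le_mul_left (m p) hP.hIJ)
  have hkey := hP.key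
  have h4 : ((I * J : ℕ) : ℝ) * (muU (Module.finrank ℚ K) * ℓ) ≤
      ((I * J : ℕ) : ℝ) * ∑ p ∈ S, (m p : ℝ) * lN p :=
    mul_le_mul_of_nonneg_left hS (Nat.cast_nonneg _)
  have h5 : (I : ℝ) * logHeight₁ ((u' / u) * (ξ / ξ') ^ n) ≤
      I * ((2 * kU * (4 * muU (Module.finrank ℚ K)) +
        (1 + (Module.finrank ℚ K : ℝ)) * epU (Module.finrank ℚ K)) * n * ℓ) :=
    mul_le_mul_of_nonneg_left h1 (Nat.cast_nonneg _)
  have h6 : (J : ℝ) * logHeight₁ (ξ / ξ') ≤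
      J * (64 * (4 * muU (Module.finrank ℚ K)) * (Q / n) +
        (1 + (Module.finrank ℚ K : ℝ)) * epU (Module.finrank ℚ K) * (Q / n + ℓ)) :=
    mul_le_mul_of_nonneg_left h2 (Nat.cast_nonneg _)
  linarith

open Classical in
theorem cellUI (ℓ Q C : ℝ) (n I J L0 : ℕ)
    (hP : ParU (Module.finrank ℚ K) ℓ Q n I J L0) (v₀ : InfinitePlace K)
    (U U' : Finset (HeightOneSpectrum (𝓞 K))) (u u' : K)
    (hu : BaseU kU (4 * muU (Module.finrank ℚ K)) ℓ Q n U u)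
    (hu' : BaseU kU (4 * muU (Module.finrank ℚ K)) ℓ Q n U' u')
    (hlab : SameLabU (epU (Module.finrank ℚ K)) ℓ Q n U U' u u')
    (b : Ideal (𝓞 K)) (ξ ξ' : K) (hd : Dec C n u b ξ) (hd' : Dec C n u' b ξ')
    (hinf : SameInf (epU (Module.finrank ℚ K)) ℓ Q n u u' ξ ξ')
    (hc : v₀ (u - 1) ≤ 2 * Real.exp (-(Q / (2 * (Module.finrank ℚ K : ℝ)))))
    (hc' : v₀ (u' - 1) ≤ 2 * Real.exp (-(Q / (2 * (Module.finrank ℚ K : ℝ)))))
    (hcl : v₀ (ξ / ξ' - 1) ≤ Real.exp (-(muU (Module.finrank ℚ K) * ℓ))) :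
    ∃ i : ℕ, 0 < i ∧ (u' / u) ^ i = 1 := by
  by_contra hcon
  push Not at hcon
  have hn : 1 ≤ n := by
    have h1 := hP.hJ8
    have h2 := hP.hJn
    omega
  have hℓ : 0 < ℓ := lt_of_lt_of_le one_pos hP.hℓ
  have hd1 : 1 ≤ Module.finrank ℚ K := hP.hd
  have hdR : (1 : ℝ) ≤ (Module.finrank ℚ K : ℝ) := by exact_mod_cast hd1
  have hQ0 : 0 < Q := by
    have h1 := hP.hQ
    linarith
  have hδℓ : 0 < muU (Module.finrank ℚ K) * ℓ := mul_pos (muU_pos hd1) hℓ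
  obtain ⟨h1, h2⟩ := pair_heightsU kU (4 * muU (Module.finrank ℚ K)) (epU (Module.finrank ℚ K))
    ℓ Q C n hn kU_nonneg (epU_pos hd1) hP.hℓ hQ0 U U' u u' hu hu' hlab b ξ ξ' hd hd' hinf
  have h3 := main_inf n I J hP.hJ8 hP.hJn hP.hI v₀ (Real.exp (muU (Module.finrank ℚ K) * ℓ))
    (Real.one_le_exp hδℓ.le) (u' / u) (ξ / ξ') (div_ne_zero hu'.ne0 hu.ne0)
    (div_ne_zero hd.ne0 hd'.ne0) (fun i hi _ => hcon i hi) (by
      rw [one_div, ← Real.exp_neg]
      exact hcl) (by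
      have h4 := inf_tau (L := L0) (y := muU (Module.finrank ℚ K) * ℓ) hP.hQ hP.hL0 v₀ u u'
        hu.ne0 hc hc'
      refine h4.trans ?_
      rw [one_div, ← Real.exp_nat_mul, ← Real.exp_neg, Real.exp_le_exp, neg_le_neg_iff]
      refine mul_le_mul_of_nonneg_right ?_ hδℓ.le
      exact_mod_cast hP.hIJ)
  rw [Real.log_exp] at h3
  have hkey := hP.key
  have h5 : (I : ℝ) * logHeight₁ ((u' / u) * (ξ / ξ') ^ n) ≤
      I * ((2 * kU * (4 * muU (Module.finrank ℚ K)) +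
        (1 + (Module.finrank ℚ K : ℝ)) * epU (Module.finrank ℚ K)) * n * ℓ) :=
    mul_le_mul_of_nonneg_left h1 (Nat.cast_nonneg _)
  have h6 : (J : ℝ) * logHeight₁ (ξ / ξ') ≤
      J * (64 * (4 * muU (Module.finrank ℚ K)) * (Q / n) +
        (1 + (Module.finrank ℚ K : ℝ)) * epU (Module.finrank ℚ K) * (Q / n + ℓ)) :=
    mul_le_mul_of_nonneg_left h2 (Nat.cast_nonneg _)
  linarith

end AbcOrdH
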