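import Mathlib

/-!
# Three costs

Proof. Linear arithmetic. With `Σ` for the sum over the three sides, the sum of `h1, h2, h3` is
`(2 - 12 δ) ℓ < 2 Σ s + (3 / 2) Σ M ≤ (1 / 2) Σ s + (3 / 2) Σ r + 9 δ ℓ`, so `Σ s > (1 - 42 δ) ℓ`,
`Σ (r - s) < 42 δ ℓ`, `M_j ≤ r_j - s_j + 2 δ ℓ ≤ 44 δ ℓ`, `s_b + s_c > (2 / 3 - 70 δ) ℓ` and so on,
`s_a ≤ r_a ≤ ℓ - s_b - s_c < (1 / 3 + 70 δ) ℓ`, and `s_a = (s_a + s_b) - s_b > (1 / 3 - 140 δ) ℓ`.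
-/

set_option autoImplicit false

namespace AbcOrdH

theorem three_costsH (δ ℓ sa sb sc Ma Mb Mc ra rb rc : ℝ) (hδ : 0 < δ) (hℓ : 1 ≤ ℓ)
    (hMa : 0 ≤ Ma) (hMb : 0 ≤ Mb) (hMc : 0 ≤ Mc)
    (ha : sa + Ma ≤ ra + 2 * (δ * ℓ)) (hb : sb + Mb ≤ rb + 2 * (δ * ℓ))
    (hc : sc + Mc ≤ rc + 2 * (δ * ℓ)) (hsa : sa ≤ ra) (hsb : sb ≤ rb) (hsc : sc ≤ rc)
    (hr : ra + rb + rc ≤ ℓ)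
    (h1 : (2 / 3 - 4 * δ) * ℓ < sb + sc + 3 / 2 * Ma)
    (h2 : (2 / 3 - 4 * δ) * ℓ < sc + sa + 3 / 2 * Mb)
    (h3 : (2 / 3 - 4 * δ) * ℓ < sa + sb + 3 / 2 * Mc) :
    ((1 / 3 - 140 * δ) * ℓ ≤ sa ∧ (1 / 3 - 140 * δ) * ℓ ≤ sb ∧ (1 / 3 - 140 * δ) * ℓ ≤ sc) ∧
      ra - sa ≤ 42 * δ * ℓ ∧ rb - sb ≤ 42 * δ * ℓ ∧ rc - sc ≤ 42 * δ * ℓ := by
  have hdl : 0 < δ * ℓ := by positivity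
  refine ⟨⟨?_, ?_, ?_⟩, ?_, ?_, ?_⟩ <;> nlinarith

end AbcOrdH
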