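import Pool.Agent.Work.MP_a793bb_nt.OrdH.DefsH
import Pool.Agent.Work.MP_a793bb_nt.RadK.SumsK

/-!
# A sum over labels with the square root of the norm

Proof. Compare `sum_pairsK` in `RadK/SumsK.lean`. For `q = (D, M) ∈ P`, as
`0 ≤ Y - lsum D - (3 / 2) log N(M)`,
`√N(M) ≤ √N(M) exp (Y - lsum D - (3 / 2) log N(M)) = exp Y exp (- lsum D) N(M)⁻¹`. All `D` have `lsum D ≤ Y`,
all `M` have `log N(M) ≤ Y`. So the sum is at most
`exp Y * (max of A ^ #D) * ∑_D exp (- lsum D) * ∑_M N(M)⁻¹` over the `D`, `M` which occur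
(`P ⊆ P.image fst ×ˢ P.image snd`), and `A ^ #D ≤ C exp (η Y / 2)` (`pow_card_dvd_le`, as in
`powcard_le` of `RadK/SumsK.lean`), both sums are at most `C (1 + Y)` (`sum_inv_absNorm_le` in
`PairCount.lean`; the ideal `∏_{p ∈ D} p` has norm `exp (lsum D)` and determines `D`), and
`(1 + Y) ^ 2 ≤ C exp (η Y / 2)`.
-/

set_option autoImplicit false

namespace AbcOrdH

open Finset AbcRad AbcRadK Pool.Agent.Work.MP_a793bb_nt Pool.Agent.Work.MP_a793bb_nt.BPlus
  NumberField IsDedekindDomain Height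

variable {K : Type*} [Field K] [NumberField K]

private noncomputable def IDk {K : Type*} [Field K] [NumberField K]
    (D : Finset (HeightOneSpectrum (𝓞 K))) : Ideal (𝓞 K) := ∏ p ∈ D, p.asIdeal

private theorem IDk_ne_bot {K : Type*} [Field K] [NumberField K]
    (D : Finset (HeightOneSpectrum (𝓞 K))) : IDk D ≠ ⊥ := by
  unfold IDk
  rw [← Ideal.zero_eq_bot, Finset.prod_ne_zero_iff]
  intro p _
  exact p.ne_bot

private theorem IDk_norm {K : Type*} [Field K] [NumberField K]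
    (D : Finset (HeightOneSpectrum (𝓞 K))) :
    (Ideal.absNorm (IDk D) : ℝ) = Real.exp (lsum D) := by
  unfold IDk lsum
  rw [map_prod, Real.exp_sum]
  push_cast
  refine Finset.prod_congr rfl fun p _ => ?_
  rw [lN, Real.exp_log]
  have := HeightOneSpectrum.one_lt_absNorm p
  exact_mod_cast (by omega : 0 < Ideal.absNorm p.asIdeal)

private theorem IDk_dvd {K : Type*} [Field K] [NumberField K]
    (D : Finset (HeightOneSpectrum (𝓞 K))) (p : HeightOneSpectrum (𝓞 K)) :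
    p.asIdeal ∣ IDk D ↔ p ∈ D := by
  unfold IDk
  constructor
  · intro h
    have hp : Prime p.asIdeal := p.prime
    rw [hp.dvd_finsetProd_iff] at h
    obtain ⟨q, hq, hpq⟩ := h
    have h2 : p.asIdeal = q.asIdeal := by
      have h3 : q.asIdeal ≤ p.asIdeal := Ideal.le_of_dvd hpq
      exact (q.isMaximal.eq_of_le p.isPrime.ne_top h3).symm
    have h4 : p = q := HeightOneSpectrum.ext h2
    rw [h4]
    exact hq
  · intro h
    exact Finset.dvd_prod_of_mem _ h

private theorem IDk_inj {K : Type*} [Field K] [NumberField K]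
    {D D' : Finset (HeightOneSpectrum (𝓞 K))} (h : IDk D = IDk D') : D = D' := by
  ext p
  rw [← IDk_dvd D p, ← IDk_dvd D' p, h]

private theorem lsum_nonneg' {K : Type*} [Field K] [NumberField K]
    (D : Finset (HeightOneSpectrum (𝓞 K))) : 0 ≤ lsum D :=
  Finset.sum_nonneg fun p _ => (lN_pos p).le

private theorem powcard_le (K : Type*) [Field K] [NumberField K] (A : ℕ) (η : ℝ) (hη : 0 < η) :
    ∃ C : ℝ, 1 ≤ C ∧ ∀ D : Finset (HeightOneSpectrum (𝓞 K)),
      (A : ℝ) ^ D.card ≤ C * Real.exp (η * lsum D) := by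
  obtain ⟨C, hC, h⟩ := pow_card_dvd_le (K := K) hη A
  refine ⟨C, hC, fun D => ?_⟩
  have h1 := h (IDk D) (IDk_ne_bot D)
  have h2 : {p : HeightOneSpectrum (𝓞 K) | p.asIdeal ∣ IDk D} = (D : Set _) := by
    ext p
    simp only [Set.mem_ofPred_eq, Finset.mem_coe]
    exact IDk_dvd D p
  rw [h2, Set.ncard_coe_finset, IDk_norm, ← Real.exp_mul, mul_comm (lsum D)] at h1
  exact h1

theorem sum_pairsH (K : Type*) [Field K] [NumberField K] (A : ℕ) (η : ℝ) (hη : 0 < η) :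
    ∃ C : ℝ, 1 ≤ C ∧ ∀ Y : ℝ, 0 ≤ Y →
      ∀ P : Finset (Finset (HeightOneSpectrum (𝓞 K)) × Ideal (𝓞 K)),
      (∀ q ∈ P, q.2 ≠ ⊥ ∧ lsum q.1 + 3 / 2 * Real.log (Ideal.absNorm q.2) ≤ Y) →
      ∑ q ∈ P, (A : ℝ) ^ q.1.card * √(Ideal.absNorm q.2 : ℝ) ≤ C * Real.exp ((1 + η) * Y) := by
  classical
  have hη2 : 0 < η / 2 := by linarith
  obtain ⟨C1, hC1, h1⟩ := powcard_le K A (η / 2) hη2
  obtain ⟨C3, hC3, h3⟩ := sum_inv_absNorm_le K
  have hi : 0 < 4 / η := by positivity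
  have h13 : 1 ≤ C1 * (C3 * (1 + 4 / η)) ^ 2 := by
    have e1 : 1 ≤ C3 * (1 + 4 / η) := by nlinarith
    have e2 : 1 ≤ (C3 * (1 + 4 / η)) ^ 2 := one_le_pow₀ e1
    nlinarith
  refine ⟨C1 * (C3 * (1 + 4 / η)) ^ 2, h13, fun Y hY P hP => ?_⟩
  have hPD : ∀ q ∈ P, lsum q.1 ≤ Y ∧ Real.log (Ideal.absNorm q.2) ≤ Y := by
    intro q hq
    obtain ⟨hb, hle⟩ := hP q hq
    have e1 : 0 ≤ Real.log (Ideal.absNorm q.2) := Real.log_nonneg (one_le_absNorm K hb)
    have e2 := lsum_nonneg' q.1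
    constructor <;> linarith
  have hstep1 : ∑ q ∈ P, (A : ℝ) ^ q.1.card * √(Ideal.absNorm q.2 : ℝ) ≤
      C1 * Real.exp (η / 2 * Y) * (Real.exp Y * ∑ q ∈ P, Real.exp (-lsum q.1) *
        (1 / (Ideal.absNorm q.2 : ℝ))) := by
    rw [Finset.mul_sum, Finset.mul_sum]
    refine Finset.sum_le_sum fun q hq => ?_
    obtain ⟨hb, hle⟩ := hP q hq
    have hp : (0 : ℝ) < Ideal.absNorm q.2 := lt_of_lt_of_le one_pos (one_le_absNorm K hb)
    have e1 : (A : ℝ) ^ q.1.card ≤ C1 * Real.exp (η / 2 * Y) := by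
      refine (h1 q.1).trans ?_
      refine mul_le_mul_of_nonneg_left ?_ (by linarith)
      exact Real.exp_le_exp.2 (mul_le_mul_of_nonneg_left (hPD q hq).1 hη2.le)
    have e2 : √(Ideal.absNorm q.2 : ℝ) ≤
        Real.exp Y * (Real.exp (-lsum q.1) * (1 / (Ideal.absNorm q.2 : ℝ))) := by
      have e3 : √(Ideal.absNorm q.2 : ℝ) =
          Real.exp (1 / 2 * Real.log (Ideal.absNorm q.2 : ℝ)) := by
        rw [Real.sqrt_eq_rpow, Real.rpow_def_of_pos hp, mul_comm]
      have e4 : (1 / (Ideal.absNorm q.2 : ℝ)) = Real.exp (-Real.log (Ideal.absNorm q.2 : ℝ)) := by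
        rw [Real.exp_neg, Real.exp_log hp, one_div]
      rw [e3, e4, ← Real.exp_add, ← Real.exp_add, Real.exp_le_exp]
      linarith
    exact mul_le_mul e1 e2 (Real.sqrt_nonneg _) (by positivity)
  have hstep2 : ∑ q ∈ P, Real.exp (-lsum q.1) * (1 / (Ideal.absNorm q.2 : ℝ)) ≤
      (∑ D ∈ P.image Prod.fst, Real.exp (-lsum D)) *
        (∑ M ∈ P.image Prod.snd, (1 : ℝ) / (Ideal.absNorm M : ℝ)) := by
    rw [Finset.sum_mul_sum, ← Finset.sum_product']
    apply Finset.sum_le_sum_of_subset_of_nonneg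
    · intro q hq
      rw [Finset.mem_product]
      exact ⟨Finset.mem_image_of_mem _ hq, Finset.mem_image_of_mem _ hq⟩
    · intro q _ _
      positivity
  have hstep3 : ∑ D ∈ P.image Prod.fst, Real.exp (-lsum D) ≤ C3 * (1 + Y) := by
    have h4 := h3 (Real.exp Y) (Real.one_le_exp hY)
    rw [Real.log_exp] at h4
    refine le_trans ?_ h4
    have h5 : ∑ D ∈ P.image Prod.fst, Real.exp (-lsum D) =
        ∑ I ∈ (P.image Prod.fst).image IDk, (1 : ℝ) / (Ideal.absNorm I : ℝ) := by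
      rw [Finset.sum_image (fun _ _ _ _ h => IDk_inj h)]
      refine Finset.sum_congr rfl fun D _ => ?_
      rw [IDk_norm, Real.exp_neg, one_div]
    rw [h5]
    refine Finset.sum_le_sum_of_subset_of_nonneg ?_ (fun _ _ _ => by positivity)
    intro I hI
    rw [Finset.mem_image] at hI
    obtain ⟨D, hD, rfl⟩ := hI
    rw [Finset.mem_image] at hD
    obtain ⟨q, hq, rfl⟩ := hD
    rw [Set.Finite.mem_toFinset]
    exact ⟨IDk_ne_bot _, by rw [IDk_norm]; exact Real.exp_le_exp.2 (hPD q hq).1⟩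
  have hstep4 : ∑ M ∈ P.image Prod.snd, (1 : ℝ) / (Ideal.absNorm M : ℝ) ≤ C3 * (1 + Y) := by
    have h4 := h3 (Real.exp Y) (Real.one_le_exp hY)
    rw [Real.log_exp] at h4
    refine le_trans ?_ h4
    refine Finset.sum_le_sum_of_subset_of_nonneg ?_ (fun _ _ _ => by positivity)
    intro I hI
    rw [Finset.mem_image] at hI
    obtain ⟨q, hq, rfl⟩ := hI
    rw [Set.Finite.mem_toFinset]
    obtain ⟨hb, -⟩ := hP q hq
    have hp : (0 : ℝ) < Ideal.absNorm q.2 := lt_of_lt_of_le one_pos (one_le_absNorm K hb)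
    exact ⟨hb, (Real.log_le_iff_le_exp hp).1 (hPD q hq).2⟩
  have hstep5 : 1 + Y ≤ (1 + 4 / η) * Real.exp (η / 4 * Y) := by
    have e1 : 1 ≤ Real.exp (η / 4 * Y) := Real.one_le_exp (by positivity)
    have e2 : η / 4 * Y ≤ Real.exp (η / 4 * Y) := by
      have := Real.add_one_le_exp (η / 4 * Y)
      linarith
    have e3 : Y = 4 / η * (η / 4 * Y) := by field_simp
    have e4 : 4 / η * (η / 4 * Y) ≤ 4 / η * Real.exp (η / 4 * Y) :=
      mul_le_mul_of_nonneg_left e2 hi.le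
    nlinarith
  have hC30 : 0 ≤ C3 := by linarith
  have hb5 : C3 * (1 + Y) ≤ C3 * ((1 + 4 / η) * Real.exp (η / 4 * Y)) :=
    mul_le_mul_of_nonneg_left hstep5 hC30
  have hstep6 : ∑ q ∈ P, Real.exp (-lsum q.1) * (1 / (Ideal.absNorm q.2 : ℝ)) ≤
      (C3 * ((1 + 4 / η) * Real.exp (η / 4 * Y))) * (C3 * ((1 + 4 / η) * Real.exp (η / 4 * Y))) := by
    refine hstep2.trans (mul_le_mul (hstep3.trans hb5) (hstep4.trans hb5) ?_ (by positivity))
    exact Finset.sum_nonneg fun _ _ => by positivity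
  calc ∑ q ∈ P, (A : ℝ) ^ q.1.card * √(Ideal.absNorm q.2 : ℝ)
      ≤ C1 * Real.exp (η / 2 * Y) * (Real.exp Y * ((C3 * ((1 + 4 / η) * Real.exp (η / 4 * Y))) *
          (C3 * ((1 + 4 / η) * Real.exp (η / 4 * Y))))) := by
        refine hstep1.trans (mul_le_mul_of_nonneg_left ?_ (by positivity))
        exact mul_le_mul_of_nonneg_left hstep6 (Real.exp_pos _).le
    _ = C1 * (C3 * (1 + 4 / η)) ^ 2 * Real.exp ((1 + η) * Y) := by
        have e1 : Real.exp ((1 + η) * Y) =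
            Real.exp (η / 2 * Y) * Real.exp Y * (Real.exp (η / 4 * Y) * Real.exp (η / 4 * Y)) := by
          rw [← Real.exp_add, ← Real.exp_add, ← Real.exp_add]
          congr 1
          ring
        rw [e1]
        ring

end AbcOrdH
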