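import Pool.Agent.Work.MP_a793bb_nt.OrdH.PairW
import Pool.Agent.Work.MP_a793bb_nt.OrdH.SumH
import Pool.Agent.Work.MP_a793bb_nt.RadK.CountPK

/-!
# Counting elements in `p`-adic cells by means of pairs

Proof. As `count_PK` (`RadK/CountPK.lean`), but `γ` (the class of `ξ` modulo `M`) is not part of the
label. So the label of `u` is `(b, (D, M), φ on D, ω)`. Let `G'` be the set of the elements of `F` with
a given label. For `(x, y) ∈ G' × G'` let `γ (x, y) = cl (ξ_x ^ w * ξ_y) < N(M)`, `cl` from `exists_cl` for `M`. For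
`p ∣ M`, `kp p u = 0` (`kp_zero_of_one_sub`), `kp p ξ_u = ex b p` for all `u ∈ G'`, so `kp p (ξ_x ^ w ξ_y) = (w + 1) ex b p`
is the same for all pairs, and `γ (x, y) = γ (x', y')` implies
`av p (ξ_x ^ w ξ_y / (ξ_x' ^ w ξ_y') - 1) ≤ exp (- ex M p lN p)`, so `(x, y) = (x', y')` by `cell_pairW`. So
`#G' ^ 2 ≤ N(M)`, `#G' ≤ √N(M)`. The number of the labels belonging to `(D, M)` is at most
`#G (2 c' + 1) ^ (number of places) (2 c + 1) ^ #D` as in `count_PK`. Sum over `(D, M)`: `sum_pairsH`.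
(`B0 = w = tors_bound` is not needed.)
-/

set_option autoImplicit false

namespace AbcOrdH

open Finset AbcRad AbcRadK Pool.Agent.Work.MP_a793bb_nt Pool.Agent.Work.MP_a793bb_nt.BPlus
  NumberField IsDedekindDomain Height

variable {K : Type*} [Field K] [NumberField K]

theorem count_PH (K : Type*) [Field K] [NumberField K] (δ : ℝ) (hδ : 0 < δ) (hδ1 : δ ≤ 1 / 10)
    (κ : ℝ) (hκ : 0 < κ) (w : ℕ) (η : ℝ) (hη : 0 < η) :
    ∃ C : ℝ, 1 ≤ C ∧ ∀ (ℓ Q Y : ℝ) (n I J L0 : ℕ), 0 ≤ Y →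
      ParW (Module.finrank ℚ K) w δ κ ℓ Q n I J L0 →
      ∀ F : Finset K, (∀ u ∈ F, PCapW δ κ ℓ Q Y n L0 u) →
      (F.card : ℝ) ≤ C * Real.exp ((1 + η) * Y) := by
  classical
  obtain ⟨C₀, G, hC₀, hdec⟩ := exists_dec K
  obtain ⟨c, hc⟩ : ∃ c : ℕ, c = ⌈1 / κ⌉₊ := ⟨_, rfl⟩
  obtain ⟨c', hc'⟩ : ∃ c' : ℕ, c' = ⌈(C₀ + 1) / κ⌉₊ := ⟨_, rfl⟩
  obtain ⟨B, hB⟩ : ∃ B : ℕ, B = (2 * c' + 1) ^ Fintype.card (InfinitePlace K) := ⟨_, rfl⟩
  obtain ⟨C₁, hC₁, hsum⟩ := sum_pairsH K (2 * c + 1) η hη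
  choose cl hcl using exists_cl K
  refine ⟨(B * G.card : ℕ) * C₁ + 1, ?_, ?_⟩
  · have : (0 : ℝ) ≤ (B * G.card : ℕ) * C₁ := by positivity
    linarith
  intro ℓ Q Y n I J L0 hY hP F hF
  have hℓ : 1 ≤ ℓ := hP.hℓ
  have hn1 : 1 ≤ n := by
    have := hP.hJ8
    have := hP.hJn
    omega
  have hL0 : 1 ≤ L0 := by
    have h1 := hP.hJ8
    have h2 := hP.hI
    have h3 := hP.hIJ
    have h4 : 2 * 8 ≤ I * J := Nat.mul_le_mul h2 h1
    omega
  have hex : ∀ u ∈ F, ∃ M : Ideal (𝓞 K), M ≠ ⊥ ∧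
      (∀ p : HeightOneSpectrum (𝓞 K), p.asIdeal ∣ M → ((ex M p * L0 : ℕ) : ℤ) ≤ kp p (1 - u)) ∧
      δ * ℓ ≤ Real.log (Ideal.absNorm M) ∧
      lsum (smal (δ * ℓ) u) + 3 / 2 * Real.log (Ideal.absNorm M) ≤ Y :=
    fun u hu => (hF u hu).2
  choose! Mf hM1 hM2 hM3 hM4 using hex
  have hdx : ∀ u ∈ F, ∃ b ∈ G, ∃ ξ : K, Dec C₀ n u b ξ :=
    fun u hu => hdec n u hn1 (hF u hu).1.ne0
  choose! bf hbG ξf hξ using hdx
  obtain ⟨P, hPdef⟩ : ∃ P : Finset (Finset (HeightOneSpectrum (𝓞 K)) × Ideal (𝓞 K)),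
    P = F.image (fun u => (smal (δ * ℓ) u, Mf u)) := ⟨_, rfl⟩
  have hPin : ∀ u ∈ F, (smal (δ * ℓ) u, Mf u) ∈ P := by
    intro u hu
    rw [hPdef]
    exact Finset.mem_image_of_mem _ hu
  have hPprop : ∀ q ∈ P, q.2 ≠ ⊥ ∧
      lsum q.1 + 3 / 2 * Real.log (Ideal.absNorm q.2) ≤ Y := by
    intro q hq
    rw [hPdef, Finset.mem_image] at hq
    obtain ⟨u, hu, rfl⟩ := hq
    exact ⟨hM1 u hu, hM4 u hu⟩
  have hsum' := hsum Y hY P hPprop
  have hfib : ∀ q ∈ G ×ˢ P,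
      ((F.filter (fun u => (bf u, (smal (δ * ℓ) u, Mf u)) = q)).card : ℝ) ≤
        (B * (2 * c + 1) ^ q.2.1.card : ℕ) * √(Ideal.absNorm q.2.2 : ℝ) := by
    intro q hq
    rw [Finset.mem_product] at hq
    have hq2 := hPprop q.2 hq.2
    have hMb := hq2.1
    obtain ⟨Fq, hFq⟩ : ∃ Fq : Finset K,
      Fq = F.filter (fun u => (bf u, (smal (δ * ℓ) u, Mf u)) = q) := ⟨_, rfl⟩
    rw [← hFq]
    obtain ⟨T, hT⟩ : ∃ T, T = (q.2.1.pi (fun _ => Icc (-(c : ℤ)) (c : ℤ))) ×ˢ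
        (Fintype.piFinset (fun _ : InfinitePlace K => Icc (-(c' : ℤ)) (c' : ℤ))) := ⟨_, rfl⟩
    obtain ⟨lab, hlab⟩ : ∃ lab : K → ((p : HeightOneSpectrum (𝓞 K)) → p ∈ q.2.1 → ℤ) ×
        (InfinitePlace K → ℤ), lab = fun u =>
      (fun p (_ : p ∈ q.2.1) => ⌊(gr n (kp p u) : ℝ) / (κ * n)⌋,
        fun v : InfinitePlace K => ⌊(Real.log (v (ξf u)) - Real.log (v u) / n) / (κ * ℓ)⌋) :=
      ⟨_, rfl⟩
    have hmaps : ∀ u ∈ Fq, lab u ∈ T := by
      intro u hu
      rw [hFq, Finset.mem_filter] at hu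
      obtain ⟨huF, huq⟩ := hu
      rw [hT, hlab, Finset.mem_product]
      refine ⟨?_, ?_⟩
      · rw [Finset.mem_pi]
        intro p hp
        rw [hc]
        exact phi_range κ hκ n hn1 _
      · rw [Fintype.mem_piFinset]
        intro v
        rw [hc']
        refine omega_range C₀ κ ℓ _ hC₀ hκ hℓ ?_
        have h1 := (hξ u huF).arch v
        have h2 := (hF u huF).1.hrad
        linarith
    have hTc : T.card = B * (2 * c + 1) ^ q.2.1.card := by
      rw [hT, Finset.card_product, card_pi_Icc, card_piF_Icc, ← hB]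
      ring
    have hkp0 : ∀ z : K, z ≠ 0 → (∀ p : HeightOneSpectrum (𝓞 K), p.asIdeal ∣ q.2.2 →
        ((ex q.2.2 p * L0 : ℕ) : ℤ) ≤ kp p (1 - z)) → ∀ p : HeightOneSpectrum (𝓞 K),
        p.asIdeal ∣ q.2.2 → kp p z = 0 := by
      intro z hz hLz p hp
      refine kp_zero_of_one_sub hz p (lt_of_lt_of_le ?_ (hLz p hp))
      have h1 := one_le_ex hMb hp
      have h2 : 1 ≤ ex q.2.2 p * L0 := Nat.mul_pos h1 hL0
      exact_mod_cast h2
    have hmem : ∀ p : HeightOneSpectrum (𝓞 K), p ∈ (finite_dvd hMb).toFinset ↔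
        p.asIdeal ∣ q.2.2 := fun p => Set.Finite.mem_toFinset (finite_dvd hMb)
    -- the data of an element of `Fq`
    have hdat : ∀ u ∈ Fq, u ∈ F ∧ BaseK δ κ ℓ Q n u ∧ Dec C₀ n u q.1 (ξf u) ∧
        smal (δ * ℓ) u = q.2.1 ∧ (∀ p : HeightOneSpectrum (𝓞 K), p.asIdeal ∣ q.2.2 →
        ((ex q.2.2 p * L0 : ℕ) : ℤ) ≤ kp p (1 - u)) ∧
        δ * ℓ ≤ Real.log (Ideal.absNorm q.2.2) := by
      intro u hu
      rw [hFq, Finset.mem_filter] at hu
      obtain ⟨huF, huq⟩ := hu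
      have hb : bf u = q.1 := by rw [← huq]
      have hD : smal (δ * ℓ) u = q.2.1 := by rw [← huq]
      have hMu : Mf u = q.2.2 := by rw [← huq]
      have hd := hξ u huF
      rw [hb] at hd
      have hL := hM2 u huF
      rw [hMu] at hL
      have h3 := hM3 u huF
      rw [hMu] at h3
      exact ⟨huF, (hF u huF).1, hd, hD, hL, h3⟩
    have hclass : ∀ t ∈ T, ((Fq.filter (fun u => lab u = t)).card : ℝ) ≤
        √(Ideal.absNorm q.2.2 : ℝ) := by
      intro t _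
      obtain ⟨G', hG'⟩ : ∃ G' : Finset K, G' = Fq.filter (fun u => lab u = t) := ⟨_, rfl⟩
      rw [← hG']
      have hG'm : ∀ u ∈ G', u ∈ Fq ∧ lab u = t := by
        intro u hu
        rw [hG', Finset.mem_filter] at hu
        exact hu
      refine Real.le_sqrt_of_sq_le ?_
      have hcard2 : (G' ×ˢ G').card ≤ (range (Ideal.absNorm q.2.2)).card := by
        refine Finset.card_le_card_of_injOn (fun z => cl q.2.2 (ξf z.1 ^ w * ξf z.2)) ?_ ?_
        · intro z _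
          rw [Finset.mem_coe, Finset.mem_range]
          exact (hcl q.2.2 hMb).1 _
        · rintro ⟨x, y⟩ hxy ⟨x', y'⟩ hxy' hγ
          rw [Finset.mem_coe, Finset.mem_product] at hxy hxy'
          obtain ⟨hx, hy⟩ := hxy
          obtain ⟨hx', hy'⟩ := hxy'
          obtain ⟨hxq, hxt⟩ := hG'm x hx
          obtain ⟨hyq, hyt⟩ := hG'm y hy
          obtain ⟨hxq', hxt'⟩ := hG'm x' hx'
          obtain ⟨hyq', hyt'⟩ := hG'm y' hy'
          obtain ⟨_, ux, dx, Dx, Lx, hSx⟩ := hdat x hxq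
          obtain ⟨_, uy, dy, Dy, Ly, _⟩ := hdat y hyq
          obtain ⟨_, ux', dx', Dx', Lx', _⟩ := hdat x' hxq'
          obtain ⟨_, uy', dy', Dy', Ly', _⟩ := hdat y' hyq'
          have hlx : lab x = lab x' := hxt.trans hxt'.symm
          have hly : lab y = lab y' := hyt.trans hyt'.symm
          rw [hlab] at hlx hly
          simp only [Prod.mk.injEq] at hlx hly
          have key := cell_pairW w δ κ ℓ Q C₀ n I J L0 hP x x' y y' ux ux' uy uy' ⟨?_, ?_⟩
            ⟨?_, ?_⟩ q.1 (ξf x) (ξf x') (ξf y) (ξf y') dx dx' dy dy' ?_ ?_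
            (finite_dvd hMb).toFinset (ex q.2.2) ?_ ?_ ?_ ?_ ?_ ?_ ?_
          · exact Prod.ext key.1 key.2
          · rw [Dx, Dx']
          · intro p hp
            rw [Dx] at hp
            exact congrFun (congrFun hlx.1 p) hp
          · rw [Dy, Dy']
          · intro p hp
            rw [Dy] at hp
            exact congrFun (congrFun hly.1 p) hp
          · intro v
            exact congrFun hlx.2 v
          · intro v
            exact congrFun hly.2 v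
          · intro p hp
            exact one_le_ex hMb ((hmem p).1 hp)
          · rw [sum_ex_lN hMb]
            exact hSx
          · exact fun p hp => Lx p ((hmem p).1 hp)
          · exact fun p hp => Lx' p ((hmem p).1 hp)
          · exact fun p hp => Ly p ((hmem p).1 hp)
          · exact fun p hp => Ly' p ((hmem p).1 hp)
          · intro p hp
            have hdiv : (ξf x / ξf x') ^ w * (ξf y / ξf y') =
                (ξf x ^ w * ξf y) / (ξf x' ^ w * ξf y') := by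
              rw [div_pow, div_mul_div_comm]
            rw [hdiv]
            refine (hcl q.2.2 hMb).2 (ξf x ^ w * ξf y) (ξf x' ^ w * ξf y')
              (mul_ne_zero (pow_ne_zero w dx.ne0) dy.ne0)
              (mul_ne_zero (pow_ne_zero w dx'.ne0) dy'.ne0) ?_ hγ p ((hmem p).1 hp)
            intro r hr
            rw [kp_mul r (pow_ne_zero w dx.ne0) dy.ne0, kp_mul r (pow_ne_zero w dx'.ne0) dy'.ne0,
              kp_pow r dx.ne0, kp_pow r dx'.ne0, dx.val r, dy.val r, dx'.val r, dy'.val r,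
              hkp0 x ux.ne0 Lx r hr, hkp0 y uy.ne0 Ly r hr, hkp0 x' ux'.ne0 Lx' r hr,
              hkp0 y' uy'.ne0 Ly' r hr]
      rw [Finset.card_product, Finset.card_range] at hcard2
      have : ((G'.card * G'.card : ℕ) : ℝ) ≤ (Ideal.absNorm q.2.2 : ℝ) := by
        exact_mod_cast hcard2
      push_cast at this
      rw [sq]
      exact this
    have hcardq := Finset.card_eq_sum_card_fiberwise (f := lab) (s := Fq) (t := T)
      (fun u hu => Finset.mem_coe.2 (hmaps u hu))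
    rw [hcardq]
    push_cast
    refine (Finset.sum_le_sum hclass).trans (le_of_eq ?_)
    rw [Finset.sum_const, nsmul_eq_mul, hTc]
    push_cast
    ring
  have hcard := Finset.card_eq_sum_card_fiberwise
    (f := fun u : K => (bf u, (smal (δ * ℓ) u, Mf u))) (s := F) (t := G ×ˢ P)
    (fun u hu => Finset.mem_coe.2 (Finset.mem_product.2 ⟨hbG u hu, hPin u hu⟩))
  have h1 : (F.card : ℝ) ≤ ∑ q ∈ G ×ˢ P,
      ((B * (2 * c + 1) ^ q.2.1.card : ℕ) : ℝ) * √(Ideal.absNorm q.2.2 : ℝ) := by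
    rw [hcard]
    push_cast
    refine Finset.sum_le_sum fun q hq => ?_
    have := hfib q hq
    push_cast at this
    exact this
  have h2 : (F.card : ℝ) ≤ (B * G.card : ℕ) *
      ∑ q ∈ P, ((2 * c + 1 : ℕ) : ℝ) ^ q.1.card * √(Ideal.absNorm q.2 : ℝ) := by
    refine h1.trans (le_of_eq ?_)
    rw [Finset.sum_product]
    simp only []
    rw [Finset.sum_const, nsmul_eq_mul, Finset.mul_sum, Finset.mul_sum]
    refine Finset.sum_congr rfl fun q _ => ?_
    push_cast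
    ring
  calc (F.card : ℝ) ≤ (B * G.card : ℕ) *
      ∑ q ∈ P, ((2 * c + 1 : ℕ) : ℝ) ^ q.1.card * √(Ideal.absNorm q.2 : ℝ) := h2
    _ ≤ (B * G.card : ℕ) * (C₁ * Real.exp ((1 + η) * Y)) :=
        mul_le_mul_of_nonneg_left hsum' (by positivity)
    _ ≤ ((B * G.card : ℕ) * C₁ + 1) * Real.exp ((1 + η) * Y) := by
        have := Real.exp_pos ((1 + η) * Y)
        nlinarith

end AbcOrdH
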