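import Pool.Agent.Work.MP_a793bb_nt.OrdH.DefsH
import Pool.Agent.Work.MP_a793bb_nt.RadK.CountRK

/-!
# Counting elements in archimedean cells

Proof. Exactly the proof of `count_RK` in `RadK/CountRK.lean`, with a general `κ > 0`, `Y ≥ 0` in place of
`(2 / 3 + 4 δ) ℓ` and `η` in place of `δ` in `sum_setsK`.
-/

set_option autoImplicit false

namespace AbcOrdH

open Finset AbcRad AbcRadK Pool.Agent.Work.MP_a793bb_nt Pool.Agent.Work.MP_a793bb_nt.BPlus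
  NumberField IsDedekindDomain Height

variable {K : Type*} [Field K] [NumberField K]

theorem count_RH (K : Type*) [Field K] [NumberField K] (δ : ℝ) (hδ : 0 < δ) (hδ1 : δ ≤ 1 / 10)
    (κ : ℝ) (hκ : 0 < κ) (η : ℝ) (hη : 0 < η) :
    ∃ C : ℝ, 1 ≤ C ∧ ∀ (ℓ Q Y : ℝ) (n I J L0 : ℕ) (v : InfinitePlace K), 0 ≤ Y →
      ParK (Module.finrank ℚ K) δ κ ℓ Q n I J L0 →
      ∀ F : Finset K, (∀ u ∈ F, RCapK δ κ ℓ Q Y n v u) →
      (F.card : ℝ) ≤ C * Real.exp ((1 + η) * Y + 29 / 10 * δ * ℓ) := by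
  classical
  obtain ⟨C₀, G, hC₀, hdec⟩ := exists_dec K
  obtain ⟨w, hw⟩ := tors_bound K
  obtain ⟨c, hc⟩ : ∃ c : ℕ, c = ⌈1 / κ⌉₊ := ⟨_, rfl⟩
  obtain ⟨c', hc'⟩ : ∃ c' : ℕ, c' = ⌈(C₀ + 1) / κ⌉₊ := ⟨_, rfl⟩
  obtain ⟨B, hB⟩ : ∃ B : ℕ, B = (2 * c' + 1) ^ Fintype.card (InfinitePlace K) := ⟨_, rfl⟩
  obtain ⟨C₁, hC₁, hsum⟩ := sum_setsK K (2 * c + 1) η hη
  obtain ⟨C₂, hC₂⟩ : ∃ C₂ : ℝ, C₂ = 35 * (8 * C₀ + 19) / (9 / 10 * δ) := ⟨_, rfl⟩
  have hC₂0 : 0 ≤ C₂ := by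
    rw [hC₂]
    positivity
  refine ⟨(w * B * G.card : ℕ) * C₁ * C₂ + 1, ?_, ?_⟩
  · have : (0 : ℝ) ≤ (w * B * G.card : ℕ) * C₁ * C₂ := by positivity
    linarith
  intro ℓ Q Y n I J L0 v₀ hY hP F hF
  have hℓ : 1 ≤ ℓ := hP.hℓ
  have hd0 : (0 : ℝ) < (Module.finrank ℚ K : ℝ) := finrank_pos'
  have hn1 : 1 ≤ n := by
    have := hP.hJ8
    have := hP.hJn
    omega
  obtain ⟨ε, hε⟩ : ∃ ε : ℝ, ε = Real.exp (-(δ * ℓ)) / 4 := ⟨_, rfl⟩
  have hε0 : 0 < ε := by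
    rw [hε]
    positivity
  have hε1 : ε ≤ 1 / 2 := by
    have : Real.exp (-(δ * ℓ)) ≤ 1 := Real.exp_le_one_iff.2 (by nlinarith)
    rw [hε]
    linarith
  obtain ⟨cl, hcl1, hcl2⟩ := exists_color_inf v₀ ε hε0 hε1
  have hdx : ∀ u ∈ F, ∃ b ∈ G, ∃ ξ : K, Dec C₀ n u b ξ :=
    fun u hu => hdec n u hn1 (hF u hu).1.ne0
  choose! bf hbG ξf hξ using hdx
  obtain ⟨P, hPdef⟩ : ∃ P : Finset (Finset (HeightOneSpectrum (𝓞 K))),
    P = F.image (fun u => smal (δ * ℓ) u) := ⟨_, rfl⟩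
  have hPin : ∀ u ∈ F, smal (δ * ℓ) u ∈ P := by
    intro u hu
    rw [hPdef]
    exact Finset.mem_image_of_mem _ hu
  have hPprop : ∀ D ∈ P, lsum D ≤ Y := by
    intro D hD
    rw [hPdef, Finset.mem_image] at hD
    obtain ⟨u, hu, rfl⟩ := hD
    exact (hF u hu).2.2
  have hsum' := hsum Y hY P hPprop
  obtain ⟨V₁, hV₁⟩ : ∃ V₁ : ℕ, V₁ = ⌊(C₀ + ℓ + 1) / ε + 1⌋₊ := ⟨_, rfl⟩
  obtain ⟨V₂, hV₂⟩ : ∃ V₂ : ℕ, V₂ = ⌊4 / ε + 1⌋₊ := ⟨_, rfl⟩
  have hV : (((2 * V₁ + 1) * (2 * V₂ + 1) : ℕ) : ℝ) ≤ C₂ * Real.exp (29 / 10 * δ * ℓ) := by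
    rw [hV₁, hV₂, hε, hC₂]
    exact gam_count C₀ δ ℓ hC₀ hδ hℓ
  have hfib : ∀ q ∈ G ×ˢ P,
      (F.filter (fun u => (bf u, smal (δ * ℓ) u) = q)).card ≤
        w * B * ((2 * c + 1) ^ q.2.card * ((2 * V₁ + 1) * (2 * V₂ + 1))) := by
    intro q hq
    rw [Finset.mem_product] at hq
    have hle := fiber_bound w hw (F.filter (fun u => (bf u, smal (δ * ℓ) u) = q))
      (fun x hx => (hF x (Finset.mem_filter.1 hx).1).1.ne0)
      ((q.2.pi (fun _ => Icc (-(c : ℤ)) (c : ℤ))) ×ˢ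
        ((Fintype.piFinset (fun _ : InfinitePlace K => Icc (-(c' : ℤ)) (c' : ℤ))) ×ˢ
          (Icc (-(V₁ : ℤ)) (V₁ : ℤ) ×ˢ Icc (-(V₂ : ℤ)) (V₂ : ℤ))))
      (fun u => (fun p (_ : p ∈ q.2) => ⌊(gr n (kp p u) : ℝ) / (κ * n)⌋,
        (fun v : InfinitePlace K => ⌊(Real.log (v (ξf u)) - Real.log (v u) / n) / (κ * ℓ)⌋,
          cl (ξf u)))) ?_ ?_
    · refine hle.trans (le_of_eq ?_)
      rw [Finset.card_product, Finset.card_product, Finset.card_product, card_pi_Icc,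
        card_piF_Icc, ← hB, Int.card_Icc, Int.card_Icc]
      have e1 : ((V₁ : ℤ) + 1 - -(V₁ : ℤ)).toNat = 2 * V₁ + 1 := by omega
      have e2 : ((V₂ : ℤ) + 1 - -(V₂ : ℤ)).toNat = 2 * V₂ + 1 := by omega
      rw [e1, e2]
      ring
    · intro u hu
      rw [Finset.mem_filter] at hu
      obtain ⟨huF, huq⟩ := hu
      have h1 := (hξ u huF).arch
      have h2 := (hF u huF).1.hrad
      rw [Finset.mem_product, Finset.mem_product, Finset.mem_product]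
      refine ⟨?_, ?_, ?_, ?_⟩
      · rw [Finset.mem_pi]
        intro p hp
        rw [hc]
        exact phi_range κ hκ n hn1 _
      · rw [Fintype.mem_piFinset]
        intro v
        rw [hc']
        refine omega_range C₀ κ ℓ _ hC₀ hκ hℓ ?_
        have h3 := h1 v
        linarith
      · rw [hV₁]
        refine mem_Icc_floor ((hcl1 (ξf u)).1.trans ?_)
        have h4 := log_near_one v₀ u _ Q hd0 hP.hQ (hF u huF).2.1
        have h5 : |Real.log (v₀ (ξf u))| ≤ C₀ + ℓ + 1 := by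
          have h6 := h1 v₀
          have h7 : |Real.log (v₀ u) / n| ≤ 1 := by
            rw [abs_div, Nat.abs_cast]
            have hn : (1 : ℝ) ≤ n := by exact_mod_cast hn1
            exact (div_le_self (abs_nonneg _) hn).trans h4
          have h8 : Real.log (v₀ (ξf u)) =
            (Real.log (v₀ (ξf u)) - Real.log (v₀ u) / n) + Real.log (v₀ u) / n := by ring
          rw [h8]
          refine (abs_add_le _ _).trans ?_
          linarith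
        have h6 : |Real.log (v₀ (ξf u))| / ε ≤ (C₀ + ℓ + 1) / ε :=
          div_le_div_of_nonneg_right h5 hε0.le
        linarith
      · rw [hV₂]
        exact mem_Icc_floor (hcl1 (ξf u)).2
    · intro x hx y hy hxy
      rw [Finset.mem_filter] at hx hy
      obtain ⟨hxF, hxq⟩ := hx
      obtain ⟨hyF, hyq⟩ := hy
      simp only [Prod.mk.injEq] at hxy
      obtain ⟨hφ, hω, hγ⟩ := hxy
      have hbx : bf x = q.1 := by rw [← hxq]
      have hby : bf y = q.1 := by rw [← hyq]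
      have hDx : smal (δ * ℓ) x = q.2 := by rw [← hxq]
      have hDy : smal (δ * ℓ) y = q.2 := by rw [← hyq]
      have hux := (hF x hxF).1
      have huy := (hF y hyF).1
      have hdx := hξ x hxF
      have hdy := hξ y hyF
      rw [hbx] at hdx
      rw [hby] at hdy
      refine cellRK δ κ ℓ Q C₀ n I J L0 hP v₀ x y hux huy ⟨?_, ?_⟩ q.1 (ξf x) (ξf y)
        hdx hdy ?_ (hF x hxF).2.1 (hF y hyF).2.1 ?_
      · rw [hDx, hDy]
      · intro p hp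
        rw [hDx] at hp
        exact congrFun (congrFun hφ p) hp
      · intro v
        exact congrFun hω v
      · have h5 := hcl2 (ξf x) (ξf y) hdx.ne0 hdy.ne0 hγ
        rw [hε] at h5
        linarith
  have hcard := Finset.card_eq_sum_card_fiberwise
    (f := fun u : K => (bf u, smal (δ * ℓ) u)) (s := F) (t := G ×ˢ P)
    (fun u hu => Finset.mem_coe.2 (Finset.mem_product.2 ⟨hbG u hu, hPin u hu⟩))
  have h1 : F.card ≤ ∑ q ∈ G ×ˢ P,
      w * B * ((2 * c + 1) ^ q.2.card * ((2 * V₁ + 1) * (2 * V₂ + 1))) := by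
    rw [hcard]
    exact Finset.sum_le_sum hfib
  have h2 : (F.card : ℝ) ≤ (w * B * G.card : ℕ) *
      ((∑ D ∈ P, ((2 * c + 1 : ℕ) : ℝ) ^ D.card) * (((2 * V₁ + 1) * (2 * V₂ + 1) : ℕ) : ℝ)) := by
    have h3 : ∑ q ∈ G ×ˢ P, w * B * ((2 * c + 1) ^ q.2.card * ((2 * V₁ + 1) * (2 * V₂ + 1))) =
        (w * B * G.card) * ((∑ D ∈ P, (2 * c + 1) ^ D.card) * ((2 * V₁ + 1) * (2 * V₂ + 1))) := by
      rw [Finset.sum_product]
      simp only []
      rw [Finset.sum_const, ← Finset.mul_sum, ← Finset.sum_mul, smul_eq_mul]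
      ring
    rw [h3] at h1
    exact_mod_cast h1
  calc (F.card : ℝ) ≤ (w * B * G.card : ℕ) *
      ((∑ D ∈ P, ((2 * c + 1 : ℕ) : ℝ) ^ D.card) *
        (((2 * V₁ + 1) * (2 * V₂ + 1) : ℕ) : ℝ)) := h2
    _ ≤ (w * B * G.card : ℕ) * ((C₁ * Real.exp ((1 + η) * Y)) *
        (C₂ * Real.exp (29 / 10 * δ * ℓ))) := by
        refine mul_le_mul_of_nonneg_left ?_ (by positivity)
        exact mul_le_mul hsum' hV (by positivity) (by positivity)
    _ = (w * B * G.card : ℕ) * C₁ * C₂ *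
        Real.exp ((1 + η) * Y + 29 / 10 * δ * ℓ) := by
        rw [Real.exp_add]
        ring
    _ ≤ ((w * B * G.card : ℕ) * C₁ * C₂ + 1) * Real.exp ((1 + η) * Y + 29 / 10 * δ * ℓ) := by
        have := Real.exp_pos ((1 + η) * Y + 29 / 10 * δ * ℓ)
        nlinarith

end AbcOrdH
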