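import Pool.Agent.Work.MP_a793bb_nt.OrdH.DefsH
import Pool.Agent.Work.MP_a793bb_nt.RadK.LabK
import Pool.Agent.Work.MP_a793bb_nt.RadK.HtEq

/-!
# The archimedean labels in the uniform case

Proof. `V` = the product of two copies of `Fintype.piFinset (fun _ => Icc (-c) c)`, with
`c = max ⌈(C₀ + 1) / ε⌉₊ (⌈4 / ε⌉₊ + 1)`. First label: `Dec.arch` with `lsum (supp u) ≤ ℓ` and `omega_range`
(`RadK/LabK.lean`). Second label: `|log (v u)| ≤ ∑_v mult |log (v u)| ≤ 2 logHeight₁ u ≤ 4 Q` (`sum_inf_le`), so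
`|log (v u) / (ε Q)| ≤ 4 / ε`.
-/

set_option autoImplicit false

namespace AbcOrdH

open Finset AbcRad AbcRadK Pool.Agent.Work.MP_a793bb_nt Pool.Agent.Work.MP_a793bb_nt.BPlus
  NumberField IsDedekindDomain Height

variable {K : Type*} [Field K] [NumberField K]

private theorem floor_range (y B : ℝ) (h : |y| ≤ B) :
    ⌊y⌋ ∈ Icc (-(⌈B⌉₊ : ℤ)) (⌈B⌉₊ : ℤ) := by
  have h4 : B ≤ ⌈B⌉₊ := Nat.le_ceil _
  rw [abs_le] at h
  rw [Finset.mem_Icc]
  constructor
  · rw [Int.le_floor]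
    push_cast
    linarith [h.1]
  · have h5 : (⌊y⌋ : ℝ) ≤ (⌈B⌉₊ : ℝ) := (Int.floor_le _).trans (h.2.trans h4)
    exact_mod_cast h5

private theorem epU_pos {d : ℕ} (hd : 0 < d) : 0 < epU d := by
  have h : (0 : ℝ) < d := by exact_mod_cast hd
  unfold epU muU
  positivity

theorem exists_labInf (K : Type*) [Field K] [NumberField K] (C₀ : ℝ) (hC₀ : 0 ≤ C₀) :
    ∃ V : Finset ((InfinitePlace K → ℤ) × (InfinitePlace K → ℤ)),
      ∀ (ℓ Q : ℝ) (n : ℕ) (u ξ : K) (b : Ideal (𝓞 K)), 1 ≤ ℓ → 0 < Q → u ≠ 0 →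
        logHeight₁ u ≤ 2 * Q → lsum (supp u) ≤ ℓ → Dec C₀ n u b ξ →
        ((fun v : InfinitePlace K =>
            ⌊(Real.log (v ξ) - Real.log (v u) / n) / (epU (Module.finrank ℚ K) * ℓ)⌋),
          (fun v : InfinitePlace K =>
            ⌊Real.log (v u) / (epU (Module.finrank ℚ K) * Q)⌋)) ∈ V := by
  classical
  have hε : 0 < epU (Module.finrank ℚ K) := epU_pos Module.finrank_pos
  set ε := epU (Module.finrank ℚ K) with hεdef
  refine ⟨(Fintype.piFinset (fun _ : InfinitePlace K =>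
      Icc (-(⌈(C₀ + 1) / ε⌉₊ : ℤ)) (⌈(C₀ + 1) / ε⌉₊ : ℤ))) ×ˢ
    (Fintype.piFinset (fun _ : InfinitePlace K =>
      Icc (-(⌈4 / ε⌉₊ : ℤ)) (⌈4 / ε⌉₊ : ℤ))), ?_⟩
  intro ℓ Q n u ξ b hℓ hQ hu hht hl hdec
  rw [Finset.mem_product, Fintype.mem_piFinset, Fintype.mem_piFinset]
  constructor
  · intro v
    refine omega_range C₀ ε ℓ _ hC₀ hε hℓ ((hdec.arch v).trans ?_)
    linarith
  · intro v
    refine floor_range _ _ ?_
    have h1 := sum_inf_le u hu
    have h2 : (v.mult : ℝ) * |Real.log (v u)| ≤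
        ∑ v : InfinitePlace K, (v.mult : ℝ) * |Real.log (v u)| :=
      Finset.single_le_sum (f := fun v : InfinitePlace K => (v.mult : ℝ) * |Real.log (v u)|)
        (fun v _ => mul_nonneg (by positivity) (abs_nonneg _)) (Finset.mem_univ v)
    have h3 : (1 : ℝ) ≤ v.mult := by exact_mod_cast InfinitePlace.mult_pos
    have h4 : |Real.log (v u)| ≤ (v.mult : ℝ) * |Real.log (v u)| := by
      nlinarith [abs_nonneg (Real.log (v u))]
    have h5 : |Real.log (v u)| ≤ 4 * Q := by linarith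
    rw [abs_div, abs_of_pos (mul_pos hε hQ), div_le_div_iff₀ (mul_pos hε hQ) hε]
    nlinarith [mul_le_mul_of_nonneg_right h5 hε.le]

end AbcOrdH
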