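import Mathlib

/-!
# The number of exponent vectors

Proof. `T` = the set of the `f` in `D.pi (fun _ => Icc (-m) m)` with `∑ |f p| ≤ m`. As `0 < z < 1`,
`1 ≤ z ^ (∑ |f p|) / z ^ m` for `f ∈ T`, so `#T ≤ z ^ (-m) ∑_{f ∈ D.pi _} ∏_p z ^ |f p| = z ^ (-m) ∏_{p ∈ D} ∑_{|k| ≤ m} z ^ |k|`
(`Finset.prod_sum`), and `∑_{|k| ≤ m} z ^ |k| ≤ 2 ∑_{k ≤ m} z ^ k ≤ 2 / (1 - z)`.
-/

set_option autoImplicit false

namespace AbcOrdH

open Finset

private theorem geom_le (z : ℝ) (hz : 0 < z) (hz1 : z < 1) (n : ℕ) :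
    ∑ k ∈ range n, z ^ k ≤ 1 / (1 - z) := by
  rw [le_div_iff₀ (by linarith)]
  have h := geom_sum_mul_neg z n
  rw [h]
  have := pow_pos hz n
  linarith

private theorem sum_int_le (z : ℝ) (hz : 0 < z) (hz1 : z < 1) (m : ℕ) :
    ∑ k ∈ Icc (-(m : ℤ)) m, z ^ k.natAbs ≤ 2 / (1 - z) := by
  classical
  have hsub : Icc (-(m : ℤ)) m ⊆ (range (m + 1)).image (fun k : ℕ => (k : ℤ)) ∪
      (range (m + 1)).image (fun k : ℕ => -(k : ℤ)) := by
    intro k hk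
    rw [mem_Icc] at hk
    rw [mem_union, mem_image, mem_image]
    rcases le_total 0 k with h | h
    · left
      exact ⟨k.toNat, by rw [mem_range]; omega, by omega⟩
    · right
      exact ⟨(-k).toNat, by rw [mem_range]; omega, by omega⟩
  have h1 : ∑ k ∈ Icc (-(m : ℤ)) m, z ^ k.natAbs ≤
      ∑ k ∈ (range (m + 1)).image (fun k : ℕ => (k : ℤ)) ∪
        (range (m + 1)).image (fun k : ℕ => -(k : ℤ)), z ^ k.natAbs :=
    sum_le_sum_of_subset_of_nonneg hsub fun k _ _ => pow_nonneg hz.le _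
  have h2 := sum_union_inter (s₁ := (range (m + 1)).image (fun k : ℕ => (k : ℤ)))
    (s₂ := (range (m + 1)).image (fun k : ℕ => -(k : ℤ))) (f := fun k : ℤ => z ^ k.natAbs)
  have h3 : 0 ≤ ∑ k ∈ (range (m + 1)).image (fun k : ℕ => (k : ℤ)) ∩
      (range (m + 1)).image (fun k : ℕ => -(k : ℤ)), z ^ k.natAbs :=
    sum_nonneg fun k _ => pow_nonneg hz.le _
  have h4 : ∑ k ∈ (range (m + 1)).image (fun k : ℕ => (k : ℤ)), z ^ k.natAbs =
      ∑ k ∈ range (m + 1), z ^ k := by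
    rw [sum_image (by intro a _ b _ h; simpa using h)]
    simp
  have h5 : ∑ k ∈ (range (m + 1)).image (fun k : ℕ => -(k : ℤ)), z ^ k.natAbs =
      ∑ k ∈ range (m + 1), z ^ k := by
    rw [sum_image (by intro a _ b _ h; simpa using h)]
    simp
  have h6 := geom_le z hz hz1 (m + 1)
  have h7 : 2 / (1 - z) = 1 / (1 - z) + 1 / (1 - z) := by ring
  rw [h7]
  rw [h4, h5] at h2
  linarith

theorem exists_labels {α : Type*} [DecidableEq α] (D : Finset α) (m : ℕ) (z : ℝ) (hz : 0 < z)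
    (hz1 : z < 1) :
    ∃ T : Finset ((a : α) → a ∈ D → ℤ),
      (∀ f : α → ℤ, ∑ p ∈ D, |f p| ≤ m → (fun a (_ : a ∈ D) => f a) ∈ T) ∧
      (T.card : ℝ) ≤ (2 / (1 - z)) ^ D.card * (1 / z) ^ m := by
  classical
  refine ⟨(D.pi (fun _ => Icc (-(m : ℤ)) m)).filter
    (fun g => ∑ p ∈ D.attach, (g p.1 p.2).natAbs ≤ m), ?_, ?_⟩
  · intro f hf
    have hf' : ∑ p ∈ D, (f p).natAbs ≤ m := by
      have h1 : ((∑ p ∈ D, (f p).natAbs : ℕ) : ℤ) = ∑ p ∈ D, |f p| := by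
        push_cast
        exact sum_congr rfl fun p _ => by simp
      have h2 : ((∑ p ∈ D, (f p).natAbs : ℕ) : ℤ) ≤ m := by rw [h1]; exact hf
      exact_mod_cast h2
    rw [mem_filter, mem_pi]
    constructor
    · intro a ha
      have h1 : (f a).natAbs ≤ m :=
        (single_le_sum (f := fun p => (f p).natAbs) (fun _ _ => Nat.zero_le _) ha).trans hf'
      rw [mem_Icc]
      omega
    · rw [sum_attach D (fun p => (f p).natAbs)]
      exact hf'
  · set T := (D.pi (fun _ => Icc (-(m : ℤ)) m)).filter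
      (fun g => ∑ p ∈ D.attach, (g p.1 p.2).natAbs ≤ m) with hT
    have h1 : (T.card : ℝ) ≤ ∑ g ∈ T, (1 / z) ^ m * ∏ p ∈ D.attach, z ^ (g p.1 p.2).natAbs := by
      have : (T.card : ℝ) = ∑ g ∈ T, (1 : ℝ) := by simp
      rw [this]
      refine sum_le_sum fun g hg => ?_
      rw [hT, mem_filter] at hg
      rw [prod_pow_eq_pow_sum, one_div, inv_pow, inv_mul_eq_div, le_div_iff₀ (pow_pos hz m), one_mul]
      exact pow_le_pow_of_le_one hz.le hz1.le hg.2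
    have h2 : ∑ g ∈ T, (1 / z) ^ m * ∏ p ∈ D.attach, z ^ (g p.1 p.2).natAbs ≤
        ∑ g ∈ D.pi (fun _ => Icc (-(m : ℤ)) m), (1 / z) ^ m *
          ∏ p ∈ D.attach, z ^ (g p.1 p.2).natAbs :=
      sum_le_sum_of_subset_of_nonneg (filter_subset _ _) fun g _ _ => by positivity
    have h3 : ∑ g ∈ D.pi (fun _ => Icc (-(m : ℤ)) m), (1 / z) ^ m *
          ∏ p ∈ D.attach, z ^ (g p.1 p.2).natAbs =
        (1 / z) ^ m * ∏ p ∈ D, ∑ k ∈ Icc (-(m : ℤ)) m, z ^ k.natAbs := by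
      rw [← mul_sum, prod_sum]
    have h4 : ∏ p ∈ D, ∑ k ∈ Icc (-(m : ℤ)) m, z ^ k.natAbs ≤ (2 / (1 - z)) ^ D.card := by
      rw [prod_const]
      exact pow_le_pow_left₀ (sum_nonneg fun k _ => pow_nonneg hz.le _) (sum_int_le z hz hz1 m) _
    calc (T.card : ℝ) ≤ _ := h1
      _ ≤ _ := h2
      _ = _ := h3
      _ ≤ (1 / z) ^ m * (2 / (1 - z)) ^ D.card := by
          refine mul_le_mul_of_nonneg_left h4 (by positivity)
      _ = _ := mul_comm _ _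

end AbcOrdH
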