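import Pool.Agent.Work.MP_a793bb_nt.OrdH.DefsH
import Pool.Agent.Work.MP_a793bb_nt.OrdH.ExpLab
import Pool.Agent.Work.MP_a793bb_nt.RadK.LabK
import Pool.Agent.Work.MP_a793bb_nt.RadK.HtEq

/-!
# The labels outside `U` in the uniform case

Proof. `d = finrank`, `ε = epU d > 0`, `c = ⌈1 / ε⌉₊`, `B' = 8 / ε + 2`, `z = exp (- η / B')`, `m = ⌊B' ℓ⌋₊`. For a finite
set `D` let `T D` be the product of `D.pi (fun _ => Icc (-c) c)` (the values of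
`⌊gr n (kp p u) / (ε n)⌋`, `phi_range` in `Rad/CountP.lean`) and of the set from `exists_labels D m z` (the values of
`ψ p = ⌊kp p u / (ε Q / ℓ)⌋`: `|ψ p| ≤ |kp p u| ℓ / (ε Q) + 1`, `lN p ≥ log 2 ≥ 1 / 2`, so
`∑_{p ∈ D} |ψ p| ≤ 2 ∑_{p ∈ D} (|kp p u| ℓ / (ε Q) + 1) lN p ≤ 2 (4 ℓ / ε + ℓ) = B' ℓ` by `sum_kp_le`,
`logHeight₁ u ≤ 2 Q`, `lsum D ≤ lsum (supp u) ≤ ℓ`). Its cardinality is at most
`(2 c + 1) ^ #D (2 / (1 - z)) ^ #D (1 / z) ^ m ≤ A ^ #D exp (η ℓ)` for a natural number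
`A ≥ (2 c + 1) * 2 / (1 - z)`.
-/

set_option autoImplicit false

namespace AbcOrdH

open Finset AbcRad AbcRadK Pool.Agent.Work.MP_a793bb_nt Pool.Agent.Work.MP_a793bb_nt.BPlus
  NumberField IsDedekindDomain Height

variable {K : Type*} [Field K] [NumberField K]

private theorem epU_pos {d : ℕ} (hd : 0 < d) : 0 < epU d := by
  have h : (0 : ℝ) < d := by exact_mod_cast hd
  unfold epU muU
  positivity

private theorem half_le_lN (p : HeightOneSpectrum (𝓞 K)) : 1 / 2 ≤ lN p := by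
  have h1 := two_le_Np p
  have h2 : Real.log 2 ≤ lN p := Real.log_le_log (by norm_num) h1
  have h3 := Real.log_two_gt_d9
  linarith

private theorem sum_floor_le (ε ℓ Q : ℝ) (hε : 0 < ε) (hℓ : 1 ≤ ℓ) (hQ : 0 < Q) (u : K) (hu : u ≠ 0)
    (hht : logHeight₁ u ≤ 2 * Q) (D : Finset (HeightOneSpectrum (𝓞 K))) (hD : D ⊆ supp u)
    (hl : lsum (supp u) ≤ ℓ) :
    ∑ p ∈ D, |⌊(kp p u : ℝ) / (ε * Q / ℓ)⌋| ≤ (⌊(8 / ε + 2) * ℓ⌋₊ : ℤ) := by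
  have hℓ0 : 0 < ℓ := by linarith
  have hden : 0 < ε * Q / ℓ := by positivity
  have h1 : ∀ p, |(⌊(kp p u : ℝ) / (ε * Q / ℓ)⌋ : ℝ)| ≤ |(kp p u : ℝ)| * (ℓ / (ε * Q)) + 1 := by
    intro p
    have h2 : |(kp p u : ℝ) / (ε * Q / ℓ)| = |(kp p u : ℝ)| * (ℓ / (ε * Q)) := by
      rw [abs_div, abs_of_pos hden]
      field_simp
    have h3 := Int.floor_le ((kp p u : ℝ) / (ε * Q / ℓ))
    have h4 := Int.lt_floor_add_one ((kp p u : ℝ) / (ε * Q / ℓ))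
    have h5 := abs_le.1 (le_refl |(kp p u : ℝ) / (ε * Q / ℓ)|)
    rw [← h2, abs_le]
    constructor <;> linarith [h5.1, h5.2]
  have h2 : ∀ p, |(⌊(kp p u : ℝ) / (ε * Q / ℓ)⌋ : ℝ)| ≤
      2 * (ℓ / (ε * Q)) * (|(kp p u : ℝ)| * lN p) + 2 * lN p := by
    intro p
    have h3 := half_le_lN p
    have h4 : 0 ≤ |(kp p u : ℝ)| * (ℓ / (ε * Q)) := by positivity
    calc |(⌊(kp p u : ℝ) / (ε * Q / ℓ)⌋ : ℝ)| ≤ |(kp p u : ℝ)| * (ℓ / (ε * Q)) + 1 := h1 p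
      _ ≤ (|(kp p u : ℝ)| * (ℓ / (ε * Q)) + 1) * (2 * lN p) := by
          have h5 : 0 ≤ |(kp p u : ℝ)| * (ℓ / (ε * Q)) + 1 := by linarith
          nlinarith
      _ = _ := by ring
  have h3 : (∑ p ∈ D, |(⌊(kp p u : ℝ) / (ε * Q / ℓ)⌋ : ℝ)|) ≤ (8 / ε + 2) * ℓ := by
    calc (∑ p ∈ D, |(⌊(kp p u : ℝ) / (ε * Q / ℓ)⌋ : ℝ)|)
        ≤ ∑ p ∈ D, (2 * (ℓ / (ε * Q)) * (|(kp p u : ℝ)| * lN p) + 2 * lN p) :=
          Finset.sum_le_sum fun p _ => h2 p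
      _ = 2 * (ℓ / (ε * Q)) * ∑ p ∈ D, |(kp p u : ℝ)| * lN p + 2 * ∑ p ∈ D, lN p := by
          rw [Finset.sum_add_distrib, ← Finset.mul_sum, ← Finset.mul_sum]
      _ ≤ 2 * (ℓ / (ε * Q)) * (4 * Q) + 2 * ℓ := by
          have h4 : ∑ p ∈ D, |(kp p u : ℝ)| * lN p ≤ 4 * Q :=
            (sum_kp_le u hu D).trans (by linarith)
          have h5 : ∑ p ∈ D, lN p ≤ ℓ := by
            refine le_trans ?_ hl
            exact Finset.sum_le_sum_of_subset_of_nonneg hD fun p _ _ => (lN_pos p).le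
          have h6 : 0 ≤ 2 * (ℓ / (ε * Q)) := by positivity
          have h7 := mul_le_mul_of_nonneg_left h4 h6
          linarith
      _ = (8 / ε + 2) * ℓ := by
          field_simp
          ring
  have h4 : ((∑ p ∈ D, |⌊(kp p u : ℝ) / (ε * Q / ℓ)⌋| : ℤ) : ℝ) ≤ (8 / ε + 2) * ℓ := by
    push_cast
    exact h3
  have h5 : 0 ≤ ∑ p ∈ D, |⌊(kp p u : ℝ) / (ε * Q / ℓ)⌋| := Finset.sum_nonneg fun p _ => abs_nonneg _
  obtain ⟨k, hk⟩ := Int.eq_ofNat_of_zero_le h5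
  rw [hk] at h4 ⊢
  have h6 : (k : ℝ) ≤ (8 / ε + 2) * ℓ := by exact_mod_cast h4
  exact_mod_cast Nat.le_floor h6

open Classical in
theorem exists_labU (K : Type*) [Field K] [NumberField K] (η : ℝ) (hη : 0 < η) :
    ∃ A : ℕ, ∀ (ℓ Q : ℝ) (n : ℕ), 1 ≤ ℓ → 0 < Q → 1 ≤ n →
      ∀ D : Finset (HeightOneSpectrum (𝓞 K)),
      ∃ T : Finset (((p : HeightOneSpectrum (𝓞 K)) → p ∈ D → ℤ) ×
          ((p : HeightOneSpectrum (𝓞 K)) → p ∈ D → ℤ)),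
        (T.card : ℝ) ≤ (A : ℝ) ^ D.card * Real.exp (η * ℓ) ∧
        ∀ u : K, u ≠ 0 → logHeight₁ u ≤ 2 * Q → D ⊆ supp u → lsum (supp u) ≤ ℓ →
          ((fun p (_ : p ∈ D) => ⌊(gr n (kp p u) : ℝ) / (epU (Module.finrank ℚ K) * n)⌋),
            (fun p (_ : p ∈ D) => ⌊(kp p u : ℝ) / (epU (Module.finrank ℚ K) * Q / ℓ)⌋)) ∈ T := by
  have hε : 0 < epU (Module.finrank ℚ K) := epU_pos Module.finrank_pos
  set ε := epU (Module.finrank ℚ K) with hεdef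
  set B := 8 / ε + 2 with hB
  have hB0 : 0 < B := by positivity
  set z := Real.exp (-(η / B)) with hz
  have hz0 : 0 < z := Real.exp_pos _
  have hz1 : z < 1 := by
    rw [hz, Real.exp_lt_one_iff]
    have : 0 < η / B := by positivity
    linarith
  set c := ⌈1 / ε⌉₊ with hc
  refine ⟨⌈((2 * c + 1 : ℕ) : ℝ) * (2 / (1 - z))⌉₊, ?_⟩
  intro ℓ Q n hℓ hQ hn D
  have hℓ0 : 0 < ℓ := by linarith
  obtain ⟨T, hT1, hT2⟩ := exists_labels D ⌊B * ℓ⌋₊ z hz0 hz1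
  refine ⟨(D.pi (fun _ => Icc (-(c : ℤ)) (c : ℤ))) ×ˢ T, ?_, ?_⟩
  · rw [Finset.card_product, card_pi_Icc, Nat.cast_mul, Nat.cast_pow]
    have h1 : (1 / z) ^ ⌊B * ℓ⌋₊ ≤ Real.exp (η * ℓ) := by
      have h2 : (1 / z) = Real.exp (η / B) := by
        rw [hz, Real.exp_neg, one_div, inv_inv]
      rw [h2, ← Real.exp_nat_mul]
      apply Real.exp_le_exp.2
      have h3 : (⌊B * ℓ⌋₊ : ℝ) ≤ B * ℓ := Nat.floor_le (by positivity)
      calc (⌊B * ℓ⌋₊ : ℝ) * (η / B) ≤ (B * ℓ) * (η / B) := by gcongr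
        _ = η * ℓ := by field_simp
    have hpos : 0 < 2 / (1 - z) := div_pos (by norm_num) (by linarith)
    have h4 : ((2 * c + 1 : ℕ) : ℝ) * (2 / (1 - z)) ≤
        (⌈((2 * c + 1 : ℕ) : ℝ) * (2 / (1 - z))⌉₊ : ℝ) := Nat.le_ceil _
    calc ((2 * c + 1 : ℕ) : ℝ) ^ D.card * (T.card : ℝ)
        ≤ ((2 * c + 1 : ℕ) : ℝ) ^ D.card * ((2 / (1 - z)) ^ D.card * (1 / z) ^ ⌊B * ℓ⌋₊) := by
          refine mul_le_mul_of_nonneg_left hT2 (by positivity)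
      _ ≤ ((2 * c + 1 : ℕ) : ℝ) ^ D.card * ((2 / (1 - z)) ^ D.card * Real.exp (η * ℓ)) := by
          refine mul_le_mul_of_nonneg_left (mul_le_mul_of_nonneg_left h1 (by positivity))
            (by positivity)
      _ = (((2 * c + 1 : ℕ) : ℝ) * (2 / (1 - z))) ^ D.card * Real.exp (η * ℓ) := by
          rw [mul_pow]
          ring
      _ ≤ _ := by
          refine mul_le_mul_of_nonneg_right (pow_le_pow_left₀ (by positivity) h4 _)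
            (Real.exp_pos _).le
  · intro u hu hht hD hl
    rw [Finset.mem_product]
    constructor
    · rw [Finset.mem_pi]
      intro p hp
      exact phi_range ε hε n hn (kp p u)
    · exact hT1 (fun p => ⌊(kp p u : ℝ) / (ε * Q / ℓ)⌋)
        (sum_floor_le ε ℓ Q hε hℓ hQ u hu hht D hD hl)

end AbcOrdH
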