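import Pool.Agent.Work.MP_a793bb_nt.OrdH.CellU
import Pool.Agent.Work.MP_a793bb_nt.OrdH.LabU
import Pool.Agent.Work.MP_a793bb_nt.OrdH.InfLab
import Pool.Agent.Work.MP_a793bb_nt.RadK.CountPK

/-!
# Counting elements in finite cells, uniform case

Proof. As `count_PK` (`RadK/CountPK.lean`). `μ = muU d`, `θ = thU d = μ / 100`, `η = μ / 100`. `C₀, G` from `exists_dec`, `V`
from `exists_labInf`, `A` from `exists_labU`, `w` from `tors_bound`. For `u ∈ F` choose `U u`, `M u` as in `FCap` and `b u ∈ G`,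
`ξ u`; put `D u = supp u \ U u`. The label is `(b, (D, M))`, the pair of `exists_labU` for `D`, the pair of
`exists_labInf`, and `γ = cl (ξ u) < N(M)` (`cl` from `exists_cl`). Two elements with the same label have a quotient
which is a root of unity, by `cellUF` (for `p ∣ M`, `kp p u = 0`, so `kp p (ξ u) = fr n 0 + ex b p`). So
`#F ≤ w #G #V exp (η ℓ) ∑_{(D, M)} A ^ #D N(M)`, where
`lsum D + 2 log N(M) ≤ (2 / 3 + 2 θ - 4 μ + 2 (μ + θ)) ℓ = (2 / 3 - 1.96 μ) ℓ`; `sum_pairsK` with `η`. The total exponent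
is `(1 + η) (2 / 3 - 1.96 μ) + η ≤ 2 / 3 - μ`.
-/

set_option autoImplicit false

namespace AbcOrdH

open Finset AbcRad AbcRadK Pool.Agent.Work.MP_a793bb_nt Pool.Agent.Work.MP_a793bb_nt.BPlus
  NumberField IsDedekindDomain Height

variable {K : Type*} [Field K] [NumberField K]

theorem count_UF (K : Type*) [Field K] [NumberField K] :
    ∃ C : ℝ, 1 ≤ C ∧ ∀ (ℓ Q : ℝ) (n I J L0 : ℕ), ParU (Module.finrank ℚ K) ℓ Q n I J L0 →
      ∀ F : Finset K, (∀ u ∈ F, FCap ℓ Q n L0 u) →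
      (F.card : ℝ) ≤ C * Real.exp ((2 / 3 - muU (Module.finrank ℚ K)) * ℓ) := by
  classical
  obtain ⟨C₀, G, hC₀, hdec⟩ := exists_dec K
  obtain ⟨w, hw⟩ := tors_bound K
  obtain ⟨V, hV⟩ := exists_labInf K C₀ hC₀
  have hd1 : (1 : ℝ) ≤ (Module.finrank ℚ K : ℝ) := by
    exact_mod_cast Module.finrank_pos
  have hμ : 0 < muU (Module.finrank ℚ K) := by
    unfold muU
    positivity
  have hμ1 : muU (Module.finrank ℚ K) ≤ 1 / 10 ^ 10 := by
    unfold muU
    refine div_le_div_of_nonneg_left (by norm_num) (by norm_num) ?_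
    nlinarith
  have hθ : thU (Module.finrank ℚ K) = muU (Module.finrank ℚ K) / 100 := rfl
  obtain ⟨A, hA⟩ := exists_labU K (muU (Module.finrank ℚ K) / 100) (by positivity)
  obtain ⟨C₁, hC₁, hsum⟩ := sum_pairsK K A (muU (Module.finrank ℚ K) / 100) (by positivity)
  choose cl hcl using exists_cl K
  refine ⟨(w * V.card * G.card : ℕ) * C₁ + 1, ?_, ?_⟩
  · have : (0 : ℝ) ≤ (w * V.card * G.card : ℕ) * C₁ := by positivity
    linarith
  intro ℓ Q n I J L0 hP F hF
  have hℓ : 1 ≤ ℓ := hP.hℓ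
  have hQ0 : 0 < Q := by
    have := hP.hQ
    linarith
  have hn1 : 1 ≤ n := by
    have := hP.hJ8
    have := hP.hJn
    omega
  have hL0 : 1 ≤ L0 := by
    have h1 := hP.hJ8
    have h2 := hP.hI
    have h3 := hP.hIJ
    have h4 : 2 * 8 ≤ I * J := Nat.mul_le_mul h2 h1
    omega
  choose! Uf Mf hFU hFD hM1 hM2 hM3 hM4 using hF
  have hdx : ∀ u ∈ F, ∃ b ∈ G, ∃ ξ : K, Dec C₀ n u b ξ :=
    fun u hu => hdec n u hn1 (hFU u hu).ne0
  choose! bf hbG ξf hξ using hdx
  choose T hT1 hT2 using hA ℓ Q n hℓ hQ0 hn1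
  obtain ⟨P, hPdef⟩ : ∃ P : Finset (Finset (HeightOneSpectrum (𝓞 K)) × Ideal (𝓞 K)),
    P = F.image (fun u => (supp u \ Uf u, Mf u)) := ⟨_, rfl⟩
  have hPin : ∀ u ∈ F, (supp u \ Uf u, Mf u) ∈ P := by
    intro u hu
    rw [hPdef]
    exact Finset.mem_image_of_mem _ hu
  have hPprop : ∀ q ∈ P, q.2 ≠ ⊥ ∧
      lsum q.1 + 2 * Real.log (Ideal.absNorm q.2) ≤
        (2 / 3 - 196 / 100 * muU (Module.finrank ℚ K)) * ℓ := by
    intro q hq
    rw [hPdef, Finset.mem_image] at hq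
    obtain ⟨u, hu, rfl⟩ := hq
    refine ⟨hM1 u hu, ?_⟩
    have h1 := hFD u hu
    have h2 := hM4 u hu
    rw [hθ] at h1 h2
    change lsum (supp u \ Uf u) + 2 * Real.log (Ideal.absNorm (Mf u)) ≤ _
    linarith
  have hsum' := hsum ((2 / 3 - 196 / 100 * muU (Module.finrank ℚ K)) * ℓ)
    (mul_nonneg (by linarith) (by linarith)) P hPprop
  have hfib : ∀ q ∈ G ×ˢ P,
      ((F.filter (fun u => (bf u, (supp u \ Uf u, Mf u)) = q)).card : ℝ) ≤
        (w * V.card : ℕ) * Real.exp (muU (Module.finrank ℚ K) / 100 * ℓ) *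
          ((A : ℝ) ^ q.2.1.card * (Ideal.absNorm q.2.2 : ℝ)) := by
    intro q hq
    rw [Finset.mem_product] at hq
    have hq2 := hPprop q.2 hq.2
    have hle := fiber_bound w hw (F.filter (fun u => (bf u, (supp u \ Uf u, Mf u)) = q))
      (fun x hx => (hFU x (Finset.mem_filter.1 hx).1).ne0)
      (T q.2.1 ×ˢ (V ×ˢ range (Ideal.absNorm q.2.2)))
      (fun u => (((fun p (_ : p ∈ q.2.1) =>
            ⌊(gr n (kp p u) : ℝ) / (epU (Module.finrank ℚ K) * n)⌋),
          (fun p (_ : p ∈ q.2.1) =>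
            ⌊(kp p u : ℝ) / (epU (Module.finrank ℚ K) * Q / ℓ)⌋)),
        (((fun v : InfinitePlace K =>
            ⌊(Real.log (v (ξf u)) - Real.log (v u) / n) / (epU (Module.finrank ℚ K) * ℓ)⌋),
          (fun v : InfinitePlace K =>
            ⌊Real.log (v u) / (epU (Module.finrank ℚ K) * Q)⌋)),
          cl q.2.2 (ξf u)))) ?_ ?_
    · rw [Finset.card_product, Finset.card_product, Finset.card_range] at hle
      have h1 : ((F.filter (fun u => (bf u, (supp u \ Uf u, Mf u)) = q)).card : ℝ) ≤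
          (w : ℝ) * (((T q.2.1).card : ℝ) * ((V.card : ℝ) * (Ideal.absNorm q.2.2 : ℝ))) := by
        exact_mod_cast hle
      refine h1.trans ?_
      have h2 := hT1 q.2.1
      calc (w : ℝ) * (((T q.2.1).card : ℝ) * ((V.card : ℝ) * (Ideal.absNorm q.2.2 : ℝ)))
          ≤ (w : ℝ) * (((A : ℝ) ^ q.2.1.card *
              Real.exp (muU (Module.finrank ℚ K) / 100 * ℓ)) *
              ((V.card : ℝ) * (Ideal.absNorm q.2.2 : ℝ))) := by
            refine mul_le_mul_of_nonneg_left ?_ (by positivity)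
            exact mul_le_mul_of_nonneg_right h2 (by positivity)
        _ = _ := by
            push_cast
            ring
    · intro u hu
      rw [Finset.mem_filter] at hu
      obtain ⟨huF, huq⟩ := hu
      have hb := hFU u huF
      have hD : supp u \ Uf u = q.2.1 := by rw [← huq]
      rw [Finset.mem_product, Finset.mem_product]
      refine ⟨?_, ?_, ?_⟩
      · exact hT2 q.2.1 u hb.ne0 hb.hH (hD ▸ Finset.sdiff_subset) hb.hrad
      · exact hV ℓ Q n u (ξf u) (bf u) hℓ hQ0 hb.ne0 hb.hH hb.hrad (hξ u huF)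
      · rw [Finset.mem_range]
        exact (hcl q.2.2 hq2.1).1 _
    · intro x hx y hy hxy
      rw [Finset.mem_filter] at hx hy
      obtain ⟨hxF, hxq⟩ := hx
      obtain ⟨hyF, hyq⟩ := hy
      simp only [Prod.mk.injEq] at hxy
      obtain ⟨⟨hφ, hψ⟩, ⟨hω, hω'⟩, hγ⟩ := hxy
      have hbx : bf x = q.1 := by rw [← hxq]
      have hby : bf y = q.1 := by rw [← hyq]
      have hDx : supp x \ Uf x = q.2.1 := by rw [← hxq]
      have hDy : supp y \ Uf y = q.2.1 := by rw [← hyq]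
      have hMx : Mf x = q.2.2 := by rw [← hxq]
      have hMy : Mf y = q.2.2 := by rw [← hyq]
      have hux := hFU x hxF
      have huy := hFU y hyF
      have hdx := hξ x hxF
      have hdy := hξ y hyF
      rw [hbx] at hdx
      rw [hby] at hdy
      have hLx := hM2 x hxF
      have hLy := hM2 y hyF
      rw [hMx] at hLx
      rw [hMy] at hLy
      have hMb := hq2.1
      have hmem : ∀ p : HeightOneSpectrum (𝓞 K), p ∈ (finite_dvd hMb).toFinset ↔
          p.asIdeal ∣ q.2.2 := fun p => Set.Finite.mem_toFinset (finite_dvd hMb)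
      have hkp0 : ∀ z : K, z ≠ 0 → (∀ p : HeightOneSpectrum (𝓞 K), p.asIdeal ∣ q.2.2 →
          ((ex q.2.2 p * L0 : ℕ) : ℤ) ≤ kp p (1 - z)) → ∀ p : HeightOneSpectrum (𝓞 K),
          p.asIdeal ∣ q.2.2 → kp p z = 0 := by
        intro z hz hLz p hp
        refine kp_zero_of_one_sub hz p (lt_of_lt_of_le ?_ (hLz p hp))
        have h1 := one_le_ex hMb hp
        have h2 : 1 ≤ ex q.2.2 p * L0 := Nat.mul_pos h1 hL0
        exact_mod_cast h2
      refine cellUF ℓ Q C₀ n I J L0 hP (Uf x) (Uf y) x y hux huy ⟨?_, ?_, ?_⟩ q.1 (ξf x) (ξf y)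
        hdx hdy ⟨?_, ?_⟩ (finite_dvd hMb).toFinset (ex q.2.2) ?_ ?_ ?_ ?_ ?_
      · rw [hDx, hDy]
      · intro p hp
        rw [hDx] at hp
        exact congrFun (congrFun hφ p) hp
      · intro p hp
        rw [hDx] at hp
        exact congrFun (congrFun hψ p) hp
      · intro v
        exact congrFun hω v
      · intro v
        exact congrFun hω' v
      · intro p hp
        exact one_le_ex hMb ((hmem p).1 hp)
      · rw [sum_ex_lN hMb, ← hMx]
        exact hM3 x hxF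
      · intro p hp
        exact hLx p ((hmem p).1 hp)
      · intro p hp
        exact hLy p ((hmem p).1 hp)
      · intro p hp
        refine (hcl q.2.2 hMb).2 (ξf x) (ξf y) hdx.ne0 hdy.ne0 ?_ hγ p ((hmem p).1 hp)
        intro r hr
        rw [hdx.val r, hdy.val r, hkp0 x hux.ne0 hLx r hr, hkp0 y huy.ne0 hLy r hr]
  have hcard := Finset.card_eq_sum_card_fiberwise
    (f := fun u : K => (bf u, (supp u \ Uf u, Mf u))) (s := F) (t := G ×ˢ P)
    (fun u hu => Finset.mem_coe.2 (Finset.mem_product.2 ⟨hbG u hu, hPin u hu⟩))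
  have h2 : (F.card : ℝ) ≤ (w * V.card * G.card : ℕ) *
      Real.exp (muU (Module.finrank ℚ K) / 100 * ℓ) *
      ∑ q ∈ P, (A : ℝ) ^ q.1.card * (Ideal.absNorm q.2 : ℝ) := by
    rw [hcard]
    push_cast
    refine (Finset.sum_le_sum hfib).trans (le_of_eq ?_)
    rw [Finset.sum_product]
    simp only []
    rw [Finset.sum_const, ← Finset.mul_sum, nsmul_eq_mul]
    push_cast
    ring
  have h4 : muU (Module.finrank ℚ K) / 100 * ℓ + (1 + muU (Module.finrank ℚ K) / 100) *
      ((2 / 3 - 196 / 100 * muU (Module.finrank ℚ K)) * ℓ) ≤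
      (2 / 3 - muU (Module.finrank ℚ K)) * ℓ := by
    rw [← mul_assoc, ← add_mul]
    refine mul_le_mul_of_nonneg_right ?_ (by linarith)
    nlinarith
  calc (F.card : ℝ) ≤ (w * V.card * G.card : ℕ) *
      Real.exp (muU (Module.finrank ℚ K) / 100 * ℓ) *
      ∑ q ∈ P, (A : ℝ) ^ q.1.card * (Ideal.absNorm q.2 : ℝ) := h2
    _ ≤ (w * V.card * G.card : ℕ) * Real.exp (muU (Module.finrank ℚ K) / 100 * ℓ) *
        (C₁ * Real.exp ((1 + muU (Module.finrank ℚ K) / 100) *
          ((2 / 3 - 196 / 100 * muU (Module.finrank ℚ K)) * ℓ))) :=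
        mul_le_mul_of_nonneg_left hsum' (by positivity)
    _ = (w * V.card * G.card : ℕ) * C₁ * Real.exp (muU (Module.finrank ℚ K) / 100 * ℓ +
        (1 + muU (Module.finrank ℚ K) / 100) *
          ((2 / 3 - 196 / 100 * muU (Module.finrank ℚ K)) * ℓ)) := by
        rw [Real.exp_add]
        ring
    _ ≤ (w * V.card * G.card : ℕ) * C₁ *
        Real.exp ((2 / 3 - muU (Module.finrank ℚ K)) * ℓ) :=
        mul_le_mul_of_nonneg_left (Real.exp_le_exp.2 h4) (by positivity)
    _ ≤ ((w * V.card * G.card : ℕ) * C₁ + 1) *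
        Real.exp ((2 / 3 - muU (Module.finrank ℚ K)) * ℓ) := by
        have := Real.exp_pos ((2 / 3 - muU (Module.finrank ℚ K)) * ℓ)
        nlinarith

end AbcOrdH
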