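import Pool.Agent.Work.MP_a793bb_nt.OrdH.CellU
import Pool.Agent.Work.MP_a793bb_nt.OrdH.LabU
import Pool.Agent.Work.MP_a793bb_nt.OrdH.InfLab
import Pool.Agent.Work.MP_a793bb_nt.RadK.CountRK

/-!
# Counting elements in infinite cells, uniform case

Proof. As `count_RK` (`RadK/CountRK.lean`). `μ = muU d`, `θ = η = μ / 100`. For `u ∈ F` choose `U u` as in `ICap` and `b u ∈ G`,
`ξ u`; `D u = supp u \ U u`. The label is `(b, D)`, the pair of `exists_labU` for `D`, the pair of `exists_labInf`, and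
`γ = cl (ξ u)`, `cl` from `exists_color_inf v (exp (- μ ℓ) / 4)`; `γ` takes at most `C exp (2.9 μ ℓ)` values (`gam_count` with
`δ = μ`; `|log (v (ξ u))| ≤ C₀ + ℓ + 1` as in `count_RK`). Two elements with the same label have a quotient which is a root
of unity by `cellUI`. So `#F ≤ w #G #V exp (η ℓ) C exp (2.9 μ ℓ) ∑_D A ^ #D`, `lsum D ≤ (2 / 3 + 2 θ - 4 μ) ℓ`
(`sum_setsK` with `η`), and `(1 + η) (2 / 3 + 2 θ - 4 μ) + η + 2.9 μ ≤ 2 / 3 - μ`
(`(2 / 3) η + 2 θ + η = (0.0067 + 0.02 + 0.01) μ`).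
-/

set_option autoImplicit false

namespace AbcOrdH

open Finset AbcRad AbcRadK Pool.Agent.Work.MP_a793bb_nt Pool.Agent.Work.MP_a793bb_nt.BPlus
  NumberField IsDedekindDomain Height

variable {K : Type*} [Field K] [NumberField K]

theorem count_UI (K : Type*) [Field K] [NumberField K] :
    ∃ C : ℝ, 1 ≤ C ∧ ∀ (ℓ Q : ℝ) (n I J L0 : ℕ) (v : InfinitePlace K),
      ParU (Module.finrank ℚ K) ℓ Q n I J L0 →
      ∀ F : Finset K, (∀ u ∈ F, ICap ℓ Q n v u) →
      (F.card : ℝ) ≤ C * Real.exp ((2 / 3 - muU (Module.finrank ℚ K)) * ℓ) := by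
  classical
  obtain ⟨C₀, G, hC₀, hdec⟩ := exists_dec K
  obtain ⟨w, hw⟩ := tors_bound K
  obtain ⟨V, hV⟩ := exists_labInf K C₀ hC₀
  have hd1 : (1 : ℝ) ≤ (Module.finrank ℚ K : ℝ) := by
    exact_mod_cast Module.finrank_pos
  have hμ : 0 < muU (Module.finrank ℚ K) := by
    unfold muU
    positivity
  have hμ1 : muU (Module.finrank ℚ K) ≤ 1 / 10 ^ 10 := by
    unfold muU
    refine div_le_div_of_nonneg_left (by norm_num) (by norm_num) ?_
    nlinarith
  have hθ : thU (Module.finrank ℚ K) = muU (Module.finrank ℚ K) / 100 := rfl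
  obtain ⟨A, hA⟩ := exists_labU K (muU (Module.finrank ℚ K) / 100) (by positivity)
  obtain ⟨C₁, hC₁, hsum⟩ := sum_setsK K A (muU (Module.finrank ℚ K) / 100) (by positivity)
  obtain ⟨C₂, hC₂⟩ : ∃ C₂ : ℝ,
    C₂ = 35 * (8 * C₀ + 19) / (9 / 10 * muU (Module.finrank ℚ K)) := ⟨_, rfl⟩
  have hC₂0 : 0 ≤ C₂ := by
    rw [hC₂]
    positivity
  refine ⟨(w * V.card * G.card : ℕ) * C₁ * C₂ + 1, ?_, ?_⟩
  · have : (0 : ℝ) ≤ (w * V.card * G.card : ℕ) * C₁ * C₂ := by positivity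
    linarith
  intro ℓ Q n I J L0 v₀ hP F hF
  have hℓ : 1 ≤ ℓ := hP.hℓ
  have hd0 : (0 : ℝ) < (Module.finrank ℚ K : ℝ) := by linarith
  have hQ0 : 0 < Q := by
    have := hP.hQ
    linarith
  have hn1 : 1 ≤ n := by
    have := hP.hJ8
    have := hP.hJn
    omega
  choose! Uf hFU hFD hFv using hF
  obtain ⟨η, hη⟩ : ∃ η : ℝ, η = Real.exp (-(muU (Module.finrank ℚ K) * ℓ)) / 4 := ⟨_, rfl⟩
  have hη0 : 0 < η := by
    rw [hη]
    positivity
  have hη1 : η ≤ 1 / 2 := by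
    have : Real.exp (-(muU (Module.finrank ℚ K) * ℓ)) ≤ 1 :=
      Real.exp_le_one_iff.2 (by nlinarith)
    rw [hη]
    linarith
  obtain ⟨cl, hcl1, hcl2⟩ := exists_color_inf v₀ η hη0 hη1
  have hdx : ∀ u ∈ F, ∃ b ∈ G, ∃ ξ : K, Dec C₀ n u b ξ :=
    fun u hu => hdec n u hn1 (hFU u hu).ne0
  choose! bf hbG ξf hξ using hdx
  choose T hT1 hT2 using hA ℓ Q n hℓ hQ0 hn1
  obtain ⟨P, hPdef⟩ : ∃ P : Finset (Finset (HeightOneSpectrum (𝓞 K))),
    P = F.image (fun u => supp u \ Uf u) := ⟨_, rfl⟩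
  have hPin : ∀ u ∈ F, supp u \ Uf u ∈ P := by
    intro u hu
    rw [hPdef]
    exact Finset.mem_image_of_mem _ hu
  have hPprop : ∀ D ∈ P, lsum D ≤ (2 / 3 - 398 / 100 * muU (Module.finrank ℚ K)) * ℓ := by
    intro D hD
    rw [hPdef, Finset.mem_image] at hD
    obtain ⟨u, hu, rfl⟩ := hD
    have h1 := hFD u hu
    rw [hθ] at h1
    linarith
  have hsum' := hsum ((2 / 3 - 398 / 100 * muU (Module.finrank ℚ K)) * ℓ)
    (mul_nonneg (by linarith) (by linarith)) P hPprop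
  obtain ⟨V₁, hV₁⟩ : ∃ V₁ : ℕ, V₁ = ⌊(C₀ + ℓ + 1) / η + 1⌋₊ := ⟨_, rfl⟩
  obtain ⟨V₂, hV₂⟩ : ∃ V₂ : ℕ, V₂ = ⌊4 / η + 1⌋₊ := ⟨_, rfl⟩
  have hVV : (((2 * V₁ + 1) * (2 * V₂ + 1) : ℕ) : ℝ) ≤
      C₂ * Real.exp (29 / 10 * muU (Module.finrank ℚ K) * ℓ) := by
    rw [hV₁, hV₂, hη, hC₂]
    exact gam_count C₀ (muU (Module.finrank ℚ K)) ℓ hC₀ hμ hℓ
  have hfib : ∀ q ∈ G ×ˢ P,
      ((F.filter (fun u => (bf u, supp u \ Uf u) = q)).card : ℝ) ≤
        (w * V.card : ℕ) * Real.exp (muU (Module.finrank ℚ K) / 100 * ℓ) *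
          ((A : ℝ) ^ q.2.card * (((2 * V₁ + 1) * (2 * V₂ + 1) : ℕ) : ℝ)) := by
    intro q hq
    rw [Finset.mem_product] at hq
    have hle := fiber_bound w hw (F.filter (fun u => (bf u, supp u \ Uf u) = q))
      (fun x hx => (hFU x (Finset.mem_filter.1 hx).1).ne0)
      (T q.2 ×ˢ (V ×ˢ (Icc (-(V₁ : ℤ)) (V₁ : ℤ) ×ˢ Icc (-(V₂ : ℤ)) (V₂ : ℤ))))
      (fun u => (((fun p (_ : p ∈ q.2) =>
            ⌊(gr n (kp p u) : ℝ) / (epU (Module.finrank ℚ K) * n)⌋),
          (fun p (_ : p ∈ q.2) =>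
            ⌊(kp p u : ℝ) / (epU (Module.finrank ℚ K) * Q / ℓ)⌋)),
        (((fun v : InfinitePlace K =>
            ⌊(Real.log (v (ξf u)) - Real.log (v u) / n) / (epU (Module.finrank ℚ K) * ℓ)⌋),
          (fun v : InfinitePlace K =>
            ⌊Real.log (v u) / (epU (Module.finrank ℚ K) * Q)⌋)),
          cl (ξf u)))) ?_ ?_
    · rw [Finset.card_product, Finset.card_product, Finset.card_product, Int.card_Icc,
        Int.card_Icc] at hle
      have e1 : ((V₁ : ℤ) + 1 - -(V₁ : ℤ)).toNat = 2 * V₁ + 1 := by omega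
      have e2 : ((V₂ : ℤ) + 1 - -(V₂ : ℤ)).toNat = 2 * V₂ + 1 := by omega
      rw [e1, e2] at hle
      have h1 : ((F.filter (fun u => (bf u, supp u \ Uf u) = q)).card : ℝ) ≤
          (w : ℝ) * (((T q.2).card : ℝ) * ((V.card : ℝ) *
            (((2 * V₁ + 1) * (2 * V₂ + 1) : ℕ) : ℝ))) := by
        exact_mod_cast hle
      refine h1.trans ?_
      have h2 := hT1 q.2
      calc (w : ℝ) * (((T q.2).card : ℝ) * ((V.card : ℝ) *
            (((2 * V₁ + 1) * (2 * V₂ + 1) : ℕ) : ℝ)))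
          ≤ (w : ℝ) * (((A : ℝ) ^ q.2.card *
              Real.exp (muU (Module.finrank ℚ K) / 100 * ℓ)) *
              ((V.card : ℝ) * (((2 * V₁ + 1) * (2 * V₂ + 1) : ℕ) : ℝ))) := by
            refine mul_le_mul_of_nonneg_left ?_ (by positivity)
            exact mul_le_mul_of_nonneg_right h2 (by positivity)
        _ = _ := by
            push_cast
            ring
    · intro u hu
      rw [Finset.mem_filter] at hu
      obtain ⟨huF, huq⟩ := hu
      have hb := hFU u huF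
      have hD : supp u \ Uf u = q.2 := by rw [← huq]
      rw [Finset.mem_product, Finset.mem_product, Finset.mem_product]
      refine ⟨?_, ?_, ?_, ?_⟩
      · exact hT2 q.2 u hb.ne0 hb.hH (hD ▸ Finset.sdiff_subset) hb.hrad
      · exact hV ℓ Q n u (ξf u) (bf u) hℓ hQ0 hb.ne0 hb.hH hb.hrad (hξ u huF)
      · rw [hV₁]
        refine mem_Icc_floor ((hcl1 (ξf u)).1.trans ?_)
        have h4 := log_near_one v₀ u _ Q hd0 hP.hQ (hFv u huF)
        have h5 : |Real.log (v₀ (ξf u))| ≤ C₀ + ℓ + 1 := by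
          have h6 := (hξ u huF).arch v₀
          have h2 := hb.hrad
          have h7 : |Real.log (v₀ u) / n| ≤ 1 := by
            rw [abs_div, Nat.abs_cast]
            have hn : (1 : ℝ) ≤ n := by exact_mod_cast hn1
            exact (div_le_self (abs_nonneg _) hn).trans h4
          have h8 : Real.log (v₀ (ξf u)) =
            (Real.log (v₀ (ξf u)) - Real.log (v₀ u) / n) + Real.log (v₀ u) / n := by ring
          rw [h8]
          refine (abs_add_le _ _).trans ?_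
          linarith
        have h6 : |Real.log (v₀ (ξf u))| / η ≤ (C₀ + ℓ + 1) / η :=
          div_le_div_of_nonneg_right h5 hη0.le
        linarith
      · rw [hV₂]
        exact mem_Icc_floor (hcl1 (ξf u)).2
    · intro x hx y hy hxy
      rw [Finset.mem_filter] at hx hy
      obtain ⟨hxF, hxq⟩ := hx
      obtain ⟨hyF, hyq⟩ := hy
      simp only [Prod.mk.injEq] at hxy
      obtain ⟨⟨hφ, hψ⟩, ⟨hω, hω'⟩, hγ⟩ := hxy
      have hbx : bf x = q.1 := by rw [← hxq]
      have hby : bf y = q.1 := by rw [← hyq]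
      have hDx : supp x \ Uf x = q.2 := by rw [← hxq]
      have hDy : supp y \ Uf y = q.2 := by rw [← hyq]
      have hux := hFU x hxF
      have huy := hFU y hyF
      have hdx := hξ x hxF
      have hdy := hξ y hyF
      rw [hbx] at hdx
      rw [hby] at hdy
      refine cellUI ℓ Q C₀ n I J L0 hP v₀ (Uf x) (Uf y) x y hux huy ⟨?_, ?_, ?_⟩ q.1 (ξf x)
        (ξf y) hdx hdy ⟨?_, ?_⟩ (hFv x hxF) (hFv y hyF) ?_
      · rw [hDx, hDy]
      · intro p hp
        rw [hDx] at hp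
        exact congrFun (congrFun hφ p) hp
      · intro p hp
        rw [hDx] at hp
        exact congrFun (congrFun hψ p) hp
      · intro v
        exact congrFun hω v
      · intro v
        exact congrFun hω' v
      · have h5 := hcl2 (ξf x) (ξf y) hdx.ne0 hdy.ne0 hγ
        rw [hη] at h5
        linarith
  have hcard := Finset.card_eq_sum_card_fiberwise
    (f := fun u : K => (bf u, supp u \ Uf u)) (s := F) (t := G ×ˢ P)
    (fun u hu => Finset.mem_coe.2 (Finset.mem_product.2 ⟨hbG u hu, hPin u hu⟩))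
  have h2 : (F.card : ℝ) ≤ (w * V.card * G.card : ℕ) *
      Real.exp (muU (Module.finrank ℚ K) / 100 * ℓ) *
      ((∑ D ∈ P, (A : ℝ) ^ D.card) * (((2 * V₁ + 1) * (2 * V₂ + 1) : ℕ) : ℝ)) := by
    rw [hcard]
    push_cast
    refine (Finset.sum_le_sum hfib).trans (le_of_eq ?_)
    rw [Finset.sum_product]
    simp only []
    rw [Finset.sum_const, ← Finset.mul_sum, ← Finset.sum_mul, nsmul_eq_mul]
    push_cast
    ring
  have h4 : muU (Module.finrank ℚ K) / 100 * ℓ + (1 + muU (Module.finrank ℚ K) / 100) *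
      ((2 / 3 - 398 / 100 * muU (Module.finrank ℚ K)) * ℓ) +
      29 / 10 * muU (Module.finrank ℚ K) * ℓ ≤
      (2 / 3 - muU (Module.finrank ℚ K)) * ℓ := by
    rw [← mul_assoc, ← add_mul, ← add_mul]
    refine mul_le_mul_of_nonneg_right ?_ (by linarith)
    nlinarith
  calc (F.card : ℝ) ≤ (w * V.card * G.card : ℕ) *
      Real.exp (muU (Module.finrank ℚ K) / 100 * ℓ) *
      ((∑ D ∈ P, (A : ℝ) ^ D.card) * (((2 * V₁ + 1) * (2 * V₂ + 1) : ℕ) : ℝ)) := h2
    _ ≤ (w * V.card * G.card : ℕ) * Real.exp (muU (Module.finrank ℚ K) / 100 * ℓ) *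
        ((C₁ * Real.exp ((1 + muU (Module.finrank ℚ K) / 100) *
          ((2 / 3 - 398 / 100 * muU (Module.finrank ℚ K)) * ℓ))) *
        (C₂ * Real.exp (29 / 10 * muU (Module.finrank ℚ K) * ℓ))) := by
        refine mul_le_mul_of_nonneg_left ?_ (by positivity)
        exact mul_le_mul hsum' hVV (by positivity) (by positivity)
    _ = (w * V.card * G.card : ℕ) * C₁ * C₂ * Real.exp (muU (Module.finrank ℚ K) / 100 * ℓ +
        (1 + muU (Module.finrank ℚ K) / 100) *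
          ((2 / 3 - 398 / 100 * muU (Module.finrank ℚ K)) * ℓ) +
        29 / 10 * muU (Module.finrank ℚ K) * ℓ) := by
        rw [Real.exp_add, Real.exp_add]
        ring
    _ ≤ (w * V.card * G.card : ℕ) * C₁ * C₂ *
        Real.exp ((2 / 3 - muU (Module.finrank ℚ K)) * ℓ) :=
        mul_le_mul_of_nonneg_left (Real.exp_le_exp.2 h4) (by positivity)
    _ ≤ ((w * V.card * G.card : ℕ) * C₁ * C₂ + 1) *
        Real.exp ((2 / 3 - muU (Module.finrank ℚ K)) * ℓ) := by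
        have := Real.exp_pos ((2 / 3 - muU (Module.finrank ℚ K)) * ℓ)
        nlinarith

end AbcOrdH
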