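import Pool.Agent.Work.MP_a793bb_nt.OrdH.BaseExH
import Pool.Agent.Work.MP_a793bb_nt.OrdH.CostH
import Pool.Agent.Work.MP_a793bb_nt.RadK.CoverK

/-!
# Every solution in the window lies in a cheap cell or is uniform

Proof. As `coverK` (`RadK/CoverK.lean`): the ideals `M_j` are the same. If for some `j` the cost
`s_(j+1) + s_(j+2) + (3 / 2) log N(M_j)` (`s_j = lsum ((zs j t).filter (lN p ≤ δ ℓ))`) is at most
`(2 / 3 - 4 δ) ℓ`, then `t` lies in a cell (`base_existsG` with `κ = kapH d δ ≤ 1`, `H = KKH d δ`, instead of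
`base_existsK`). Otherwise `three_costsH` with `r_j = lsum (zs j t)` gives `r_j ≥ s_j ≥ (1 / 3 - 140 δ) ℓ`, and a
prime `p ∈ zs j t` has `lN p ≤ δ ℓ` or `lN p ≤ r_j - s_j ≤ 42 δ ℓ`.
-/

set_option autoImplicit false

namespace AbcOrdH

open Finset AbcRad AbcRadK Pool.Agent.Work.MP_a793bb_nt Pool.Agent.Work.MP_a793bb_nt.BPlus
  NumberField IsDedekindDomain Height

variable {K : Type*} [Field K] [NumberField K]

open Classical in
private theorem lsum_union_le' (A B : Finset (HeightOneSpectrum (𝓞 K))) :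
    lsum (A ∪ B) ≤ lsum A + lsum B := by
  unfold lsum
  rw [← Finset.sum_union_inter]
  exact le_add_of_nonneg_right (Finset.sum_nonneg fun p _ => (lN_pos p).le)

private theorem kapH_den {d : ℕ} {δ : ℝ} (hd : (1 : ℝ) ≤ d) :
    (400000 : ℝ) ≤ 400000 * d * (d + 2) * ((wH d δ : ℝ) + 1) ^ 2 := by
  have h1 : (1 : ℝ) ≤ ((wH d δ : ℝ) + 1) ^ 2 := by
    have : (0 : ℝ) ≤ wH d δ := Nat.cast_nonneg _
    nlinarith
  have h2 : (1 : ℝ) ≤ d * (d + 2) := by nlinarith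
  nlinarith

private theorem kapH_pos {d : ℕ} {δ : ℝ} (hδ : 0 < δ) (hd : (1 : ℝ) ≤ d) : 0 < kapH d δ := by
  have := kapH_den (δ := δ) hd
  unfold kapH
  exact div_pos (pow_pos hδ 3) (by linarith)

private theorem kapH_le {d : ℕ} {δ : ℝ} (hδ : 0 < δ) (hδ1 : δ ≤ 1 / 10) (hd : (1 : ℝ) ≤ d) :
    kapH d δ ≤ 1 := by
  have := kapH_den (δ := δ) hd
  unfold kapH
  rw [div_le_one (by linarith)]
  have h1 : δ ^ 3 ≤ 1 := pow_le_one₀ hδ.le (by linarith)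
  linarith

open Classical in
theorem coverH (δ ℓ Q : ℝ) (hδ : 0 < δ) (hδ1 : δ ≤ 1 / 10) (hℓ : 1 ≤ ℓ)
    (hQ : 8 * (Module.finrank ℚ K : ℝ) ≤ Q)
    (hN : 2 * KKH (Module.finrank ℚ K) δ ≤ NNK ℓ Q)
    (hNE : 4 * (4 * (Q / ℓ) / δ) * (KKH (Module.finrank ℚ K) δ : ℝ) ^ 2 ≤
      kapH (Module.finrank ℚ K) δ * (NNK ℓ Q : ℝ) ^ 2)
    (hL : 1 ≤ LLK (Module.finrank ℚ K) δ ℓ Q)
    (hL2 : (LLK (Module.finrank ℚ K) δ ℓ Q : ℝ) * ℓ ≤ δ * Q / 8) (t : K) (ht : t ∈ wsetK K ℓ Q) :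
    UnifK (140 * δ) ℓ t ∨
    ∃ h : ℕ, 1 ≤ h ∧ h ≤ KKH (Module.finrank ℚ K) δ ∧ ∃ j : Fin 3,
      (PCapW δ (kapH (Module.finrank ℚ K) δ) ℓ Q ((2 / 3 - 4 * δ) * ℓ) (NNK ℓ Q / h)
        (LLK (Module.finrank ℚ K) δ ℓ Q) (-sOf j t) ∨
       ∃ v : InfinitePlace K, RCapK δ (kapH (Module.finrank ℚ K) δ) ℓ Q ((2 / 3 - 4 * δ) * ℓ)
        (NNK ℓ Q / h) v (-sOf j t)) := by
  obtain ⟨h0, h1, hI, hQl, hQu⟩ := ht
  have hd : (1 : ℝ) ≤ (Module.finrank ℚ K : ℝ) := by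
    exact_mod_cast Module.finrank_pos (R := ℚ) (M := K)
  have hQ0 : 0 < Q := by linarith
  have hδℓ : 0 < δ * ℓ := by positivity
  have hzs := zs_sum h0 h1
  have hns : ∀ j : Fin 3, 0 ≤ lsum (zs j t) := fun j => lsum_nonneg _
  have hzle : ∀ j : Fin 3, lsum (zs j t) ≤ ℓ := by
    intro j
    have e0 := hns 0
    have e1 := hns 1
    have e2 := hns 2
    fin_cases j
    · show lsum (zs 0 t) ≤ ℓ
      linarith
    · show lsum (zs 1 t) ≤ ℓ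
      linarith
    · show lsum (zs 2 t) ≤ ℓ
      linarith
  have hzmem : ∀ (j : Fin 3) (p : HeightOneSpectrum (𝓞 K)),
      p ∈ zs j t ↔ p ∈ Zp (1 + sOf j t) := by
    intro j p
    unfold zs
    rw [dif_pos (one_add_sOf_ne_zero h0 h1 j), Set.Finite.mem_toFinset]
  have hRs : ∀ j : Fin 3, Rs (Zp (1 + sOf j t)) = lsum (zs j t) := by
    intro j
    rw [← Rs_finset]
    congr 1
    ext p
    rw [Finset.mem_coe, hzmem]
  -- the three ideals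
  have hM : ∀ j : Fin 3, ∃ M : Ideal (𝓞 K), M ≠ ⊥ ∧
      lsum ((zs j t).filter (fun p => lN p ≤ δ * ℓ)) + Real.log (Ideal.absNorm M) ≤
        lsum (zs j t) + 2 * (δ * ℓ) ∧ 0 ≤ Real.log (Ideal.absNorm M) ∧
      (Q / 2 ≤ LP (1 + sOf j t) Set.univ →
        (∀ p : HeightOneSpectrum (𝓞 K), p.asIdeal ∣ M →
          ((ex M p * LLK (Module.finrank ℚ K) δ ℓ Q : ℕ) : ℤ) ≤ kp p (1 + sOf j t)) ∧
        δ * ℓ ≤ Real.log (Ideal.absNorm M)) := by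
    intro j
    by_cases hc : Q / 2 ≤ LP (1 + sOf j t) Set.univ
    · obtain ⟨M, hM0, hM1, hM2, hM3⟩ := side_typeK δ ℓ Q hδ hδ1 hℓ hQ0 _ hL hL2 (1 + sOf j t)
        (one_add_sOf_ne_zero h0 h1 j) hc (by rw [hRs]; exact hzle j)
      refine ⟨M, hM0, ?_, by linarith, fun _ => ⟨fun p hp => (hM1 p hp).2, hM2⟩⟩
      apply side_costK δ ℓ hδ hℓ
      rcases hM3 with h | ⟨p, hp, hpl⟩
      · exact Or.inl h
      · refine Or.inr ⟨p, hp, hpl, ?_⟩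
        rw [hzmem]
        exact (hM1 p (by rw [hp])).1
    · refine ⟨⊤, top_ne_bot, ?_, ?_, fun h => absurd h hc⟩
      · apply side_costK δ ℓ hδ hℓ
        left
        rw [Ideal.absNorm_top, Nat.cast_one, Real.log_one]
        positivity
      · rw [Ideal.absNorm_top, Nat.cast_one, Real.log_one]
  obtain ⟨M0, a1, a2, a3, a4⟩ := hM 0
  obtain ⟨M1, b1, b2, b3, b4⟩ := hM 1
  obtain ⟨M2, c1, c2, c3, c4⟩ := hM 2
  -- the final step for one `j`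
  have hfin : ∀ (j : Fin 3) (M : Ideal (𝓞 K)), M ≠ ⊥ → 0 ≤ Real.log (Ideal.absNorm M) →
      (Q / 2 ≤ LP (1 + sOf j t) Set.univ →
        (∀ p : HeightOneSpectrum (𝓞 K), p.asIdeal ∣ M →
          ((ex M p * LLK (Module.finrank ℚ K) δ ℓ Q : ℕ) : ℤ) ≤ kp p (1 + sOf j t)) ∧
        δ * ℓ ≤ Real.log (Ideal.absNorm M)) →
      lsum (zs (j + 1) t) + lsum (zs (j + 2) t) ≤ ℓ →
      lsum ((zs (j + 1) t).filter (fun p => lN p ≤ δ * ℓ)) +
        lsum ((zs (j + 2) t).filter (fun p => lN p ≤ δ * ℓ)) + 3 / 2 * Real.log (Ideal.absNorm M) ≤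
          (2 / 3 - 4 * δ) * ℓ →
      ∃ h : ℕ, 1 ≤ h ∧ h ≤ KKH (Module.finrank ℚ K) δ ∧ ∃ j : Fin 3,
      (PCapW δ (kapH (Module.finrank ℚ K) δ) ℓ Q ((2 / 3 - 4 * δ) * ℓ) (NNK ℓ Q / h)
        (LLK (Module.finrank ℚ K) δ ℓ Q) (-sOf j t) ∨
       ∃ v : InfinitePlace K, RCapK δ (kapH (Module.finrank ℚ K) δ) ℓ Q ((2 / 3 - 4 * δ) * ℓ)
        (NNK ℓ Q / h) v (-sOf j t)) := by
    intro j M m1 m2 m3 m4 m5
    have hu : -sOf j t ≠ 0 := neg_ne_zero.2 (sOf_ne_zero h0 h1 j)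
    have hs1 : hs (sOf j t) = hh t := hs_sOf h0 h1 j
    have hH : logHeight₁ (-sOf j t) ≤ 2 * Q := by
      rw [logHeight₁_neg]
      exact (logHeight₁_le_hs _).trans (by rw [hs1]; exact hQu)
    have hr : lsum (supp (-sOf j t)) ≤ ℓ := by
      rw [supp_sOf h0 h1 j]
      exact (lsum_union_le' _ _).trans m4
    have hsm : lsum (smal (δ * ℓ) (-sOf j t)) ≤
        lsum ((zs (j + 1) t).filter (fun p => lN p ≤ δ * ℓ)) +
        lsum ((zs (j + 2) t).filter (fun p => lN p ≤ δ * ℓ)) := by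
      unfold smal
      rw [supp_sOf h0 h1 j, Finset.filter_union]
      exact lsum_union_le' _ _
    obtain ⟨h, hh1, hhK, hB⟩ := base_existsG δ (kapH (Module.finrank ℚ K) δ) ℓ Q
      (KKH (Module.finrank ℚ K) δ) hδ hδ1 (kapH_pos hδ hd) (kapH_le hδ hδ1 hd) rfl hℓ hQ0 hN hNE
      (-sOf j t) hu hH hr
    refine ⟨h, hh1, hhK, j, ?_⟩
    by_cases hc : Q / 2 ≤ LP (1 + sOf j t) Set.univ
    · left
      obtain ⟨m6, m7⟩ := m3 hc
      refine ⟨hB, M, m1, ?_, m7, by linarith⟩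
      intro p hp
      rw [sub_neg_eq_add]
      exact m6 p hp
    · right
      obtain ⟨v, hv⟩ := inf_type Q hQ (sOf j t) (one_add_sOf_ne_zero h0 h1 j)
        (by rw [hs1]; exact hQl) (not_le.1 hc)
      refine ⟨v, hB, ?_, by linarith⟩
      have e1 : -sOf j t - 1 = -(1 + sOf j t) := by ring
      rw [e1, show v (-(1 + sOf j t)) = v (1 + sOf j t) from v.1.map_neg _]
      exact hv
  by_cases g0 : lsum ((zs 1 t).filter (fun p => lN p ≤ δ * ℓ)) +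
      lsum ((zs 2 t).filter (fun p => lN p ≤ δ * ℓ)) + 3 / 2 * Real.log (Ideal.absNorm M0) ≤
      (2 / 3 - 4 * δ) * ℓ
  · exact Or.inr (hfin 0 M0 a1 a3 a4 (by
      show lsum (zs 1 t) + lsum (zs 2 t) ≤ ℓ
      linarith [hns 0]) g0)
  by_cases g1 : lsum ((zs 2 t).filter (fun p => lN p ≤ δ * ℓ)) +
      lsum ((zs 0 t).filter (fun p => lN p ≤ δ * ℓ)) + 3 / 2 * Real.log (Ideal.absNorm M1) ≤
      (2 / 3 - 4 * δ) * ℓ
  · exact Or.inr (hfin 1 M1 b1 b3 b4 (by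
      show lsum (zs 2 t) + lsum (zs 0 t) ≤ ℓ
      linarith [hns 1]) g1)
  by_cases g2 : lsum ((zs 0 t).filter (fun p => lN p ≤ δ * ℓ)) +
      lsum ((zs 1 t).filter (fun p => lN p ≤ δ * ℓ)) + 3 / 2 * Real.log (Ideal.absNorm M2) ≤
      (2 / 3 - 4 * δ) * ℓ
  · exact Or.inr (hfin 2 M2 c1 c3 c4 (by
      show lsum (zs 0 t) + lsum (zs 1 t) ≤ ℓ
      linarith [hns 2]) g2)
  left
  have hsplit : ∀ j : Fin 3, lsum ((zs j t).filter (fun p => lN p ≤ δ * ℓ)) +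
      lsum ((zs j t).filter (fun p => ¬ lN p ≤ δ * ℓ)) = lsum (zs j t) := by
    intro j
    unfold lsum
    exact Finset.sum_filter_add_sum_filter_not _ _ _
  have hle : ∀ j : Fin 3, lsum ((zs j t).filter (fun p => lN p ≤ δ * ℓ)) ≤ lsum (zs j t) := by
    intro j
    have := lsum_nonneg ((zs j t).filter (fun p => ¬ lN p ≤ δ * ℓ))
    linarith [hsplit j]
  obtain ⟨⟨k0, k1, k2⟩, l0, l1, l2⟩ := three_costsH δ ℓ _ _ _ _ _ _ _ _ _ hδ hℓ a3 b3 c3 a2 b2 c2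
    (hle 0) (hle 1) (hle 2) (hzs.trans hI) (not_le.1 g0) (not_le.1 g1) (not_le.1 g2)
  have hall : ∀ j : Fin 3, (1 / 3 - 140 * δ) * ℓ ≤
      lsum ((zs j t).filter (fun p => lN p ≤ δ * ℓ)) ∧
      lsum (zs j t) - lsum ((zs j t).filter (fun p => lN p ≤ δ * ℓ)) ≤ 42 * δ * ℓ := by
    intro j
    fin_cases j
    · exact ⟨k0, l0⟩
    · exact ⟨k1, l1⟩
    · exact ⟨k2, l2⟩
  intro j
  obtain ⟨m1, m2⟩ := hall j
  refine ⟨?_, m1.trans (hle j)⟩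
  intro p hp
  by_cases hpl : lN p ≤ δ * ℓ
  · nlinarith
  · have h5 : lN p ≤ lsum ((zs j t).filter (fun p => ¬ lN p ≤ δ * ℓ)) := by
      unfold lsum
      exact Finset.single_le_sum (f := fun p => lN p) (fun q _ => (lN_pos q).le)
        (Finset.mem_filter.2 ⟨hp, hpl⟩)
    have h6 := hsplit j
    nlinarith

end AbcOrdH
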