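import Pool.Agent.Work.MP_a793bb_nt.OrdH.ExU
import Pool.Agent.Work.MP_a793bb_nt.RadK.CoverK

/-!
# Every uniform solution lies in a cell

Proof. Side `0`: `u = - sOf 0 t`, `1 - u = 1 + sOf 0 t`, `supp u = zs 1 t ∪ zs 2 t` (`supp_sOf`), `θ = thU d`. So
`lN p ≤ θ ℓ` for `p ∈ supp u`, `lsum (supp u) ≥ lsum (zs 1 t) ≥ (1 / 3 - θ) ℓ`,
`lsum (supp u) ≤ lsum (zs 1 t) + lsum (zs 2 t) ≤ Rs (Ip t) - lsum (zs 0 t) ≤ (2 / 3 + θ) ℓ` (`zs_sum`). `exists_U` gives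
`h, U`, and `lsum (supp u \ U) = lsum (supp u) - lsum U ≤ (2 / 3 + 2 θ - 4 μ) ℓ`. If `LP (1 + sOf 0 t) univ ≥ Q / 2`,
`side_typeU` (`y = 1 + sOf 0 t`, `Rs (Zp y) = lsum (zs 0 t) ≤ ℓ`, the primes of `Zp y` are those of `zs 0 t`) gives `M` and `FCap`;
otherwise `inf_type` gives `v` and `ICap`, as in `coverK` (`RadK/CoverK.lean`).
-/

set_option autoImplicit false

namespace AbcOrdH

open Finset AbcRad AbcRadK Pool.Agent.Work.MP_a793bb_nt Pool.Agent.Work.MP_a793bb_nt.BPlus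
  NumberField IsDedekindDomain Height

variable {K : Type*} [Field K] [NumberField K]

open Classical in
private theorem lsum_union_leU (A B : Finset (HeightOneSpectrum (𝓞 K))) :
    lsum (A ∪ B) ≤ lsum A + lsum B := by
  unfold lsum
  rw [← Finset.sum_union_inter]
  exact le_add_of_nonneg_right (Finset.sum_nonneg fun p _ => (lN_pos p).le)

open Classical in
theorem coverU (ℓ Q : ℝ) (hℓ : 1 ≤ ℓ) (hQ : 8 * (Module.finrank ℚ K : ℝ) ≤ Q)
    (hN : 2 * HU ≤ NNK ℓ Q)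
    (hNE : 4 * (16 * (Q / ℓ)) * (HU : ℝ) ^ 2 ≤ kU * (NNK ℓ Q : ℝ) ^ 2)
    (hL : 1 ≤ LU ℓ Q) (hL2 : (LU ℓ Q : ℝ) * ℓ ≤ Q / 8)
    (t : K) (ht : t ∈ wsetK K ℓ Q) (hU : UnifK (thU (Module.finrank ℚ K)) ℓ t) :
    ∃ h : ℕ, 1 ≤ h ∧ h ≤ HU ∧
      (FCap ℓ Q (NNK ℓ Q / h) (LU ℓ Q) (-sOf 0 t) ∨
       ∃ v : InfinitePlace K, ICap ℓ Q (NNK ℓ Q / h) v (-sOf 0 t)) := by
  obtain ⟨h0, h1, hI, hQl, hQu⟩ := ht
  have hd : (1 : ℝ) ≤ (Module.finrank ℚ K : ℝ) := by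
    exact_mod_cast Module.finrank_pos (R := ℚ) (M := K)
  have hQ0 : 0 < Q := by linarith
  have hℓ0 : 0 < ℓ := by linarith
  have hmu0 : 0 < muU (Module.finrank ℚ K) := by
    unfold muU
    positivity
  have hmu1 : muU (Module.finrank ℚ K) ≤ 1 / 10 ^ 10 := by
    unfold muU
    apply one_div_le_one_div_of_le (by norm_num)
    nlinarith
  have hth0 : 0 ≤ thU (Module.finrank ℚ K) := by
    unfold thU
    positivity
  have hth1 : thU (Module.finrank ℚ K) ≤ 1 / 1000 := by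
    unfold thU
    norm_num at hmu1 ⊢
    linarith
  have hzs := zs_sum h0 h1
  have hns : ∀ j : Fin 3, 0 ≤ lsum (zs j t) := fun j => lsum_nonneg _
  have hzle0 : lsum (zs 0 t) ≤ ℓ := by
    have e1 := hns 1
    have e2 := hns 2
    linarith
  have hzmem : ∀ (j : Fin 3) (p : HeightOneSpectrum (𝓞 K)),
      p ∈ zs j t ↔ p ∈ Zp (1 + sOf j t) := by
    intro j p
    unfold zs
    rw [dif_pos (one_add_sOf_ne_zero h0 h1 j), Set.Finite.mem_toFinset]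
  have hRs : ∀ j : Fin 3, Rs (Zp (1 + sOf j t)) = lsum (zs j t) := by
    intro j
    rw [← Rs_finset]
    congr 1
    ext p
    rw [Finset.mem_coe, hzmem]
  have hu : -sOf 0 t ≠ 0 := neg_ne_zero.2 (sOf_ne_zero h0 h1 0)
  have hs1 : hs (sOf 0 t) = hh t := hs_sOf h0 h1 0
  have hH : logHeight₁ (-sOf 0 t) ≤ 2 * Q := by
    rw [logHeight₁_neg]
    exact (logHeight₁_le_hs _).trans (by rw [hs1]; exact hQu)
  have hsupp : supp (-sOf 0 t) = zs 1 t ∪ zs 2 t := supp_sOf h0 h1 0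
  have hup : lsum (supp (-sOf 0 t)) ≤ lsum (zs 1 t) + lsum (zs 2 t) := by
    rw [hsupp]
    exact lsum_union_leU _ _
  have hz0 := (hU 0).2
  have hz1 := (hU 1).2
  have hz2 := (hU 2).2
  have hr : lsum (supp (-sOf 0 t)) ≤ ℓ := by
    have e0 := hns 0
    linarith
  have hsm : ∀ p ∈ supp (-sOf 0 t), lN p ≤ thU (Module.finrank ℚ K) * ℓ := by
    intro p hp
    rw [hsupp, Finset.mem_union] at hp
    rcases hp with hp | hp
    · exact (hU 1).1 p hp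
    · exact (hU 2).1 p hp
  have hlow : (1 / 3 - thU (Module.finrank ℚ K)) * ℓ ≤ lsum (supp (-sOf 0 t)) := by
    refine hz1.trans ?_
    rw [hsupp]
    exact lsum_mono Finset.subset_union_left
  obtain ⟨h, hh1, hhK, U, hB, hUl⟩ := exists_U (thU (Module.finrank ℚ K)) ℓ Q hth0 hth1 hℓ hQ0 hN hNE
    (-sOf 0 t) hu hH hr hsm hlow
  have hdiff : lsum (supp (-sOf 0 t) \ U) ≤
      (2 / 3 + 2 * thU (Module.finrank ℚ K) - 4 * muU (Module.finrank ℚ K)) * ℓ := by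
    have e : lsum (supp (-sOf 0 t) \ U) + lsum U = lsum (supp (-sOf 0 t)) := by
      unfold lsum
      exact Finset.sum_sdiff hB.hU
    nlinarith [hUl, hz0, hup, hzs, hI, e]
  refine ⟨h, hh1, hhK, ?_⟩
  by_cases hc : Q / 2 ≤ LP (1 + sOf 0 t) Set.univ
  · left
    obtain ⟨M, m1, m2, m3, m4⟩ := side_typeU (thU (Module.finrank ℚ K)) (muU (Module.finrank ℚ K))
      ℓ Q hmu0 (hmu1.trans (by norm_num)) hℓ hQ0 (LU ℓ Q) hL hL2 (1 + sOf 0 t)
      (one_add_sOf_ne_zero h0 h1 0) hc (by rw [hRs]; exact hzle0)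
      (fun p hp => (hU 0).1 p ((hzmem 0 p).2 hp))
    refine ⟨U, M, hB, hdiff, m1, ?_, m3, m4⟩
    intro p hp
    rw [sub_neg_eq_add]
    exact m2 p hp
  · right
    obtain ⟨v, hv⟩ := inf_type Q hQ (sOf 0 t) (one_add_sOf_ne_zero h0 h1 0)
      (by rw [hs1]; exact hQl) (not_le.1 hc)
    refine ⟨v, U, hB, hdiff, ?_⟩
    have e1 : -sOf 0 t - 1 = -(1 + sOf 0 t) := by ring
    rw [e1, show v (-(1 + sOf 0 t)) = v (1 + sOf 0 t) from v.1.map_neg _]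
    exact hv

end AbcOrdH
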