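import Pool.Agent.Work.MP_a793bb_nt.RadK.CostK

/-!
# Definitions for the count of the points whose height is large compared with the radical

Two improvements of the count in `RadK` are used. (1) Pairs: on a cell belonging to an ideal `M` the
map `(x, y) ↦ ξ_x ^ w ξ_y mod M` is injective, so that a cell has at most `N(M) ^ (1 / 2)` elements
and its cost is `log #D + (3 / 2) log N(M)`. (2) If all primes are small and the three sides have nearly equal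
radicals, then there are primes (the set `U`) at which the exponent is nearly a multiple of `n`
and not too large; they are not recorded.
-/

set_option autoImplicit false

namespace AbcOrdH

open Finset AbcRad AbcRadK Pool.Agent.Work.MP_a793bb_nt Pool.Agent.Work.MP_a793bb_nt.BPlus
  NumberField IsDedekindDomain Height

variable {K : Type*} [Field K] [NumberField K]

/-! ### Pairs -/

/-- `u` lies in a `p`-adic cell; the ideal `M` has the weight `3 / 2`. -/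
def PCapW (δ κ ℓ Q Y : ℝ) (n L0 : ℕ) (u : K) : Prop :=
  BaseK δ κ ℓ Q n u ∧ ∃ M : Ideal (𝓞 K), M ≠ ⊥ ∧
    (∀ p : HeightOneSpectrum (𝓞 K), p.asIdeal ∣ M → ((ex M p * L0 : ℕ) : ℤ) ≤ kp p (1 - u)) ∧
    δ * ℓ ≤ Real.log (Ideal.absNorm M) ∧
    lsum (smal (δ * ℓ) u) + 3 / 2 * Real.log (Ideal.absNorm M) ≤ Y

/-- Conditions on the parameters for pairs (`d` is the degree, `w` the exponent). -/
structure ParW (d w : ℕ) (δ κ ℓ Q : ℝ) (n I J L0 : ℕ) : Prop where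
  hδ : 0 < δ
  hκ : 0 < κ
  hℓ : 1 ≤ ℓ
  hQ : 8 * d ≤ Q
  hw : 1 ≤ w
  hJ8 : 8 ≤ J
  hJn : J ≤ n
  hI : 2 ≤ I
  hIJ : I * J ≤ L0
  hL0 : (L0 : ℝ) * (δ * ℓ) ≤ Q / (8 * d)
  gap : 8 * Q / w + 2 * d < L0 * (δ * ℓ)
  key : 2 * (12 * d * (Real.log ((n * I : ℕ) : ℝ) + (n * I : ℕ) * Real.log 2) +
      (w + 1) * (I * ((2 + d) * (κ * n) * ℓ) + J * (24 * Q / n + d * κ * ℓ))) <
      (I * J : ℕ) * (δ * ℓ)

/-- The exponent `w`. -/
noncomputable def wH (d : ℕ) (δ : ℝ) : ℕ := ⌈300 * d / δ ^ 2⌉₊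

/-- `κ` as a function of `δ` and the degree. -/
noncomputable def kapH (d : ℕ) (δ : ℝ) : ℝ :=
  δ ^ 3 / (400000 * d * (d + 2) * ((wH d δ : ℝ) + 1) ^ 2)

/-- The range of the Dirichlet multiplier `h`. -/
noncomputable def KKH (d : ℕ) (δ : ℝ) : ℕ := ⌈2 / kapH d δ⌉₊ ^ ⌊1 / δ⌋₊

/-! ### The uniform case -/

/-- All primes are small and the three sides have nearly equal radicals. -/
def UnifK (θ ℓ : ℝ) (t : K) : Prop :=
  ∀ j : Fin 3, (∀ p ∈ zs j t, lN p ≤ θ * ℓ) ∧ (1 / 3 - θ) * ℓ ≤ lsum (zs j t)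

/-- `κ` in the uniform case. -/
noncomputable def kU : ℝ := 1 / 30000000

/-- The range of `h` in the uniform case, `⌈2 / kU⌉`. -/
def HU : ℕ := 60000000

/-- `M` has norm about `exp (muU d * ℓ)`. -/
noncomputable def muU (d : ℕ) : ℝ := 1 / (10 ^ 10 * d)

/-- Precision of the labels. -/
noncomputable def epU (d : ℕ) : ℝ := muU d / (10 ^ 7 * (d + 1))

/-- All primes have logarithmic norm at most `thU d * ℓ`. -/
noncomputable def thU (d : ℕ) : ℝ := muU d / 100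

/-- The exponent `L0` in the uniform case. -/
noncomputable def LU (ℓ Q : ℝ) : ℕ := ⌊Q / ℓ / 8⌋₊

open Classical in
/-- `U` is a set of primes at which the exponent of `u` is nearly a multiple of `n` and not too
large. -/
structure BaseU (κ ν ℓ Q : ℝ) (n : ℕ) (U : Finset (HeightOneSpectrum (𝓞 K))) (u : K) : Prop where
  ne0 : u ≠ 0
  hH : logHeight₁ u ≤ 2 * Q
  hrad : lsum (supp u) ≤ ℓ
  hU : U ⊆ supp u
  hUs : lsum U ≤ ν * ℓ
  hUk : ∀ p ∈ U, |(gr n (kp p u) : ℝ)| ≤ κ * n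
  hUl : ∀ p ∈ U, |(kp p u : ℝ)| ≤ 16 * Q / ℓ

open Classical in
/-- The same label outside `U`, `U'`. -/
structure SameLabU (ε ℓ Q : ℝ) (n : ℕ) (U U' : Finset (HeightOneSpectrum (𝓞 K))) (u u' : K) :
    Prop where
  hD : supp u \ U = supp u' \ U'
  hgr : ∀ p ∈ supp u \ U,
    ⌊(gr n (kp p u) : ℝ) / (ε * n)⌋ = ⌊(gr n (kp p u') : ℝ) / (ε * n)⌋
  hkp : ∀ p ∈ supp u \ U,
    ⌊(kp p u : ℝ) / (ε * Q / ℓ)⌋ = ⌊(kp p u' : ℝ) / (ε * Q / ℓ)⌋

/-- The same archimedean labels. -/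
structure SameInf (ε ℓ Q : ℝ) (n : ℕ) (u u' ξ ξ' : K) : Prop where
  h1 : ∀ v : InfinitePlace K, ⌊(Real.log (v ξ) - Real.log (v u) / n) / (ε * ℓ)⌋ =
    ⌊(Real.log (v ξ') - Real.log (v u') / n) / (ε * ℓ)⌋
  h2 : ∀ v : InfinitePlace K, ⌊Real.log (v u) / (ε * Q)⌋ = ⌊Real.log (v u') / (ε * Q)⌋

open Classical in
/-- Uniform case, finite cell. -/
def FCap (ℓ Q : ℝ) (n L0 : ℕ) (u : K) : Prop :=
  ∃ (U : Finset (HeightOneSpectrum (𝓞 K))) (M : Ideal (𝓞 K)),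
    BaseU kU (4 * muU (Module.finrank ℚ K)) ℓ Q n U u ∧
    lsum (supp u \ U) ≤
      (2 / 3 + 2 * thU (Module.finrank ℚ K) - 4 * muU (Module.finrank ℚ K)) * ℓ ∧
    M ≠ ⊥ ∧
    (∀ p : HeightOneSpectrum (𝓞 K), p.asIdeal ∣ M → ((ex M p * L0 : ℕ) : ℤ) ≤ kp p (1 - u)) ∧
    muU (Module.finrank ℚ K) * ℓ ≤ Real.log (Ideal.absNorm M) ∧
    Real.log (Ideal.absNorm M) ≤ (muU (Module.finrank ℚ K) + thU (Module.finrank ℚ K)) * ℓ

open Classical in
/-- Uniform case, infinite cell. -/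
def ICap (ℓ Q : ℝ) (n : ℕ) (v : InfinitePlace K) (u : K) : Prop :=
  ∃ U : Finset (HeightOneSpectrum (𝓞 K)),
    BaseU kU (4 * muU (Module.finrank ℚ K)) ℓ Q n U u ∧
    lsum (supp u \ U) ≤
      (2 / 3 + 2 * thU (Module.finrank ℚ K) - 4 * muU (Module.finrank ℚ K)) * ℓ ∧
    v (u - 1) ≤ 2 * Real.exp (-(Q / (2 * (Module.finrank ℚ K : ℝ))))

/-- Conditions on the parameters in the uniform case. -/
structure ParU (d : ℕ) (ℓ Q : ℝ) (n I J L0 : ℕ) : Prop where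
  hd : 1 ≤ d
  hℓ : 1 ≤ ℓ
  hQ : 8 * d ≤ Q
  hJ8 : 8 ≤ J
  hJn : J ≤ n
  hI : 2 ≤ I
  hIJ : I * J ≤ L0
  hL0 : (L0 : ℝ) * (muU d * ℓ) ≤ Q / (8 * d)
  key : 2 * (12 * d * (Real.log ((n * I : ℕ) : ℝ) + (n * I : ℕ) * Real.log 2) +
      I * ((2 * kU * (4 * muU d) + (1 + d) * epU d) * n * ℓ) +
      J * (64 * (4 * muU d) * (Q / n) + (1 + d) * epU d * (Q / n + ℓ))) <
      (I * J : ℕ) * (muU d * ℓ)

end AbcOrdH
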