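import Pool.Agent.Work.MP_a793bb_nt.OrdH.SelU
import Pool.Agent.Work.MP_a793bb_nt.RadK.SuppK
import Pool.Agent.Work.MP_a793bb_nt.RadK.HtEq
import Pool.Agent.Work.MP_a793bb_nt.Rad.Dirichlet

/-!
# Choice of `h` and of the set `U`

Proof. `A` = the set of the `p ∈ supp u` with `|kp p u| ≤ 16 Q / ℓ`. The other ones have
`lN p < |kp p u| lN p ℓ / (16 Q)`, so the sum of their `lN` is at most `ℓ / (16 Q) * 2 logHeight₁ u ≤ ℓ / 4`
(`sum_kp_le`), so `lsum A ≥ (1 / 3 - θ) ℓ - ℓ / 4 ≥ ℓ / 13` (`θ ≤ 1 / 1000`). For each `p ∈ A`, `dirichlet`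
(`Rad/Dirichlet.lean`; `κ = kU`, `m = 1`, `S = {0}`, `e 0 = kp p u`, `E = 16 Q / ℓ`, `K = HU = ⌈2 / kU⌉₊ ^ 1`) gives
`h_p ∈ [1, HU]` with `|gr (N / h_p) (kp p u)| ≤ kU (N / h_p)`. By the pigeonhole principle some `h ∈ [1, HU]` has
`∑_{p ∈ A, h_p = h} lN p ≥ lsum A / HU ≥ ℓ / (13 HU) ≥ 4 μ ℓ` (`μ = 1 / (10 ^ 10 d)`, `13 * 6 * 10 ^ 7 = 7.8 * 10 ^ 8`).
Apply `select_set` with `ν = 4 μ` to the set of these `p`.
-/

set_option autoImplicit false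

namespace AbcOrdH

open Finset AbcRad AbcRadK Pool.Agent.Work.MP_a793bb_nt Pool.Agent.Work.MP_a793bb_nt.BPlus
  NumberField IsDedekindDomain Height

variable {K : Type*} [Field K] [NumberField K]

private theorem HU_eq : HU = ⌈2 / kU⌉₊ ^ 1 := by
  have h1 : (2 : ℝ) / kU = ((60000000 : ℕ) : ℝ) := by
    unfold kU
    norm_num
  rw [h1, Nat.ceil_natCast, pow_one]
  rfl

private theorem dir_one (Q ℓ : ℝ) (hQℓ : 0 ≤ Q / ℓ) (N : ℕ) (hN : 2 * HU ≤ N)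
    (hNE : 4 * (16 * (Q / ℓ)) * (HU : ℝ) ^ 2 ≤ kU * (N : ℝ) ^ 2) (e : ℤ)
    (he : |(e : ℝ)| ≤ 16 * (Q / ℓ)) :
    ∃ h : ℕ, 1 ≤ h ∧ h ≤ HU ∧ |(gr (N / h) e : ℝ)| ≤ kU * ((N / h : ℕ) : ℝ) := by
  obtain ⟨h, h1, h2, h3⟩ := dirichlet kU (by unfold kU; norm_num) (by unfold kU; norm_num) 1
    (16 * (Q / ℓ)) (by positivity) N HU HU_eq hN hNE {0} (by simp) (fun _ => e)
    (fun _ _ => he)
  exact ⟨h, h1, h2, h3 0 (Finset.mem_singleton_self 0)⟩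

open Classical in
private theorem lsum_large (ℓ Q : ℝ) (hℓ : 0 < ℓ) (hQ : 0 < Q) (u : K) (hu : u ≠ 0)
    (hH : logHeight₁ u ≤ 2 * Q) :
    lsum (supp u) - ℓ / 4 ≤
      lsum ((supp u).filter (fun p => |(kp p u : ℝ)| ≤ 16 * (Q / ℓ))) := by
  have h1 : lsum (supp u) = lsum ((supp u).filter (fun p => |(kp p u : ℝ)| ≤ 16 * (Q / ℓ))) +
      lsum ((supp u).filter (fun p => ¬ |(kp p u : ℝ)| ≤ 16 * (Q / ℓ))) := by
    unfold lsum
    rw [Finset.sum_filter_add_sum_filter_not]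
  have h2 : lsum ((supp u).filter (fun p => ¬ |(kp p u : ℝ)| ≤ 16 * (Q / ℓ))) ≤
      ℓ / (16 * Q) * ∑ p ∈ (supp u).filter (fun p => ¬ |(kp p u : ℝ)| ≤ 16 * (Q / ℓ)),
        |(kp p u : ℝ)| * lN p := by
    unfold lsum
    rw [Finset.mul_sum]
    refine Finset.sum_le_sum fun p hp => ?_
    have h3 := (Finset.mem_filter.1 hp).2
    rw [not_le] at h3
    have h4 : 1 ≤ ℓ / (16 * Q) * |(kp p u : ℝ)| := by
      have e : ℓ / (16 * Q) * (16 * (Q / ℓ)) = 1 := by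
        field_simp
      rw [← e]
      exact mul_le_mul_of_nonneg_left h3.le (by positivity)
    have h5 := mul_le_mul_of_nonneg_right h4 (lN_pos p).le
    rw [one_mul] at h5
    rw [← mul_assoc]
    exact h5
  have h6 := sum_kp_le u hu ((supp u).filter (fun p => ¬ |(kp p u : ℝ)| ≤ 16 * (Q / ℓ)))
  have h7 : ℓ / (16 * Q) * ∑ p ∈ (supp u).filter (fun p => ¬ |(kp p u : ℝ)| ≤ 16 * (Q / ℓ)),
        |(kp p u : ℝ)| * lN p ≤ ℓ / (16 * Q) * (4 * Q) :=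
    mul_le_mul_of_nonneg_left (by linarith) (by positivity)
  have h8 : ℓ / (16 * Q) * (4 * Q) = ℓ / 4 := by
    field_simp
    ring
  linarith

open Classical in
theorem exists_U (θ ℓ Q : ℝ) (hθ : 0 ≤ θ) (hθ1 : θ ≤ 1 / 1000) (hℓ : 1 ≤ ℓ) (hQ : 0 < Q)
    (hN : 2 * HU ≤ NNK ℓ Q)
    (hNE : 4 * (16 * (Q / ℓ)) * (HU : ℝ) ^ 2 ≤ kU * (NNK ℓ Q : ℝ) ^ 2)
    (u : K) (hu : u ≠ 0) (hH : logHeight₁ u ≤ 2 * Q) (hr : lsum (supp u) ≤ ℓ)
    (hs : ∀ p ∈ supp u, lN p ≤ θ * ℓ) (hl : (1 / 3 - θ) * ℓ ≤ lsum (supp u)) :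
    ∃ h : ℕ, 1 ≤ h ∧ h ≤ HU ∧ ∃ U : Finset (HeightOneSpectrum (𝓞 K)),
      BaseU kU (4 * muU (Module.finrank ℚ K)) ℓ Q (NNK ℓ Q / h) U u ∧
      (4 * muU (Module.finrank ℚ K) - θ) * ℓ ≤ lsum U := by
  have hd : 1 ≤ Module.finrank ℚ K := Module.finrank_pos
  have hdR : (1 : ℝ) ≤ (Module.finrank ℚ K : ℝ) := by exact_mod_cast hd
  have hℓ0 : 0 < ℓ := by linarith
  have hQℓ : 0 ≤ Q / ℓ := by positivity
  have hmu0 : 0 < muU (Module.finrank ℚ K) := by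
    unfold muU
    positivity
  have hmu1 : muU (Module.finrank ℚ K) ≤ 1 / 10 ^ 10 := by
    unfold muU
    apply div_le_div_of_nonneg_left (by norm_num) (by norm_num)
    nlinarith
  obtain ⟨A, hA⟩ : ∃ A : Finset (HeightOneSpectrum (𝓞 K)),
      A = (supp u).filter (fun p => |(kp p u : ℝ)| ≤ 16 * (Q / ℓ)) := ⟨_, rfl⟩
  have hAl : ℓ / 13 ≤ lsum A := by
    have h1 := lsum_large ℓ Q hℓ0 hQ u hu hH
    rw [← hA] at h1
    have h2 : (1 / 3 - 1 / 1000) * ℓ ≤ (1 / 3 - θ) * ℓ :=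
      mul_le_mul_of_nonneg_right (by linarith) hℓ0.le
    linarith
  have hex : ∀ p, ∃ h : ℕ, p ∈ A → 1 ≤ h ∧ h ≤ HU ∧
      |(gr (NNK ℓ Q / h) (kp p u) : ℝ)| ≤ kU * ((NNK ℓ Q / h : ℕ) : ℝ) := by
    intro p
    by_cases hp : p ∈ A
    · rw [hA] at hp
      obtain ⟨h, h1, h2, h3⟩ := dir_one Q ℓ hQℓ (NNK ℓ Q) hN hNE (kp p u) (Finset.mem_filter.1 hp).2
      exact ⟨h, fun _ => ⟨h1, h2, h3⟩⟩
    · exact ⟨1, fun h => absurd h hp⟩
  choose hh hhp using hex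
  have hmaps : ∀ p ∈ A, hh p ∈ Finset.Icc 1 HU := fun p hp =>
    Finset.mem_Icc.2 ⟨(hhp p hp).1, (hhp p hp).2.1⟩
  have hsum : ∑ h ∈ Finset.Icc 1 HU, lsum (A.filter (fun p => hh p = h)) = lsum A := by
    unfold lsum
    exact Finset.sum_fiberwise_of_maps_to hmaps _
  have hHU0 : (0 : ℝ) < HU := by
    have : (0 : ℕ) < HU := by
      unfold HU
      norm_num
    exact_mod_cast this
  obtain ⟨h, hhm, hhl⟩ : ∃ h ∈ Finset.Icc 1 HU, ℓ / 13 / HU ≤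
      lsum (A.filter (fun p => hh p = h)) := by
    by_contra hno
    push Not at hno
    have hne : (Finset.Icc 1 HU).Nonempty := by
      refine ⟨1, Finset.mem_Icc.2 ⟨le_rfl, ?_⟩⟩
      unfold HU
      norm_num
    have h1 := Finset.sum_lt_sum_of_nonempty hne hno
    rw [hsum, Finset.sum_const, nsmul_eq_mul, Nat.card_Icc, Nat.add_sub_cancel] at h1
    have h2 : (HU : ℝ) * (ℓ / 13 / HU) = ℓ / 13 := by
      field_simp
    linarith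
  rw [Finset.mem_Icc] at hhm
  have hHUv : (HU : ℝ) = 60000000 := by
    unfold HU
    norm_num
  have hbig : (4 * muU (Module.finrank ℚ K) - θ) * ℓ ≤ lsum (A.filter (fun p => hh p = h)) := by
    refine le_trans ?_ hhl
    rw [hHUv]
    have h1 : 4 * muU (Module.finrank ℚ K) - θ ≤ 1 / 13 / 60000000 := by
      have : (4 : ℝ) * (1 / 10 ^ 10) ≤ 1 / 13 / 60000000 := by norm_num
      linarith
    have h2 := mul_le_mul_of_nonneg_right h1 hℓ0.le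
    linarith
  obtain ⟨U, hUA, hU1, hU2⟩ := select_set θ (4 * muU (Module.finrank ℚ K)) ℓ
    (A.filter (fun p => hh p = h)) (by positivity)
    (fun p hp => by
      have h1 := (Finset.mem_filter.1 hp).1
      rw [hA] at h1
      exact hs p (Finset.mem_filter.1 h1).1) hbig
  refine ⟨h, hhm.1, hhm.2, U, ⟨hu, hH, hr, ?_, hU2, ?_, ?_⟩, hU1⟩
  · intro p hp
    have h1 := (Finset.mem_filter.1 (hUA hp)).1
    rw [hA] at h1
    exact (Finset.mem_filter.1 h1).1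
  · intro p hp
    obtain ⟨h1, h2⟩ := Finset.mem_filter.1 (hUA hp)
    have h3 := (hhp p h1).2.2
    rwa [h2] at h3
  · intro p hp
    have h1 := (Finset.mem_filter.1 (hUA hp)).1
    rw [hA] at h1
    have h2 := (Finset.mem_filter.1 h1).2
    rwa [mul_div_assoc]

end AbcOrdH
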