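import Pool.Agent.Work.MP_a793bb_nt.OrdH.DefsH
import Pool.Agent.Work.MP_a793bb_nt.RadK.PairK

/-!
# Heights for two elements of a cell, uniform case

Proof. As `pair_heights` (`RadK/PairK.lean`; the private lemmas there may be copied). Let
`D = supp u \ U = supp u' \ U'`, `T = supp u ∪ supp u' = D ∪ U ∪ U'`, `t = (u' / u) (ξ / ξ') ^ n`.
* `kp p t = g'_p - g_p` (`g_p = gr n (kp p u)`); for `p ∈ D` it is at most `ε n` in absolute value
  (`hgr`); for `p ∉ D`, `|g_p| ≤ κ n` if `p ∈ U`, `g_p = 0` if `p ∉ U` (then `p ∉ supp u`), the same for `g'_p`. So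
  `∑_T |kp p t| lN p ≤ ε n lsum D + κ n (lsum U + lsum U') ≤ ε n ℓ + 2 κ n ν ℓ`.
* `log (v t) = n (w_v - w'_v)`, `|w_v - w'_v| ≤ ε ℓ` (`SameInf.h1`), which gives `d n ε ℓ`.
* `kp p (ξ / ξ') = f_p - f'_p`, `n f_p = e_p - g_p` (`e_p = kp p u`), so for `p ∈ D`
  `n |f_p - f'_p| ≤ |e_p - e'_p| + |g_p - g'_p| ≤ ε Q / ℓ + ε n`; for `p ∈ U`, `|f_p| ≤ 2 |e_p| / n ≤ 32 Q / (ℓ n)`
  (`fr_abs`), `f_p = 0` if `p ∉ supp u`. So
  `∑_T |kp p (ξ / ξ')| lN p ≤ (ε Q / (ℓ n) + ε) ℓ + (32 Q / (ℓ n)) 2 ν ℓ`.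
* `log (v (ξ / ξ')) = (log (v u) - log (v u')) / n + w_v - w'_v`, absolute value at most `ε Q / n + ε ℓ`
  (`SameInf.h2`), which gives `d (ε Q / n + ε ℓ)`.
-/

set_option autoImplicit false

namespace AbcOrdH

open Finset AbcRad AbcRadK Pool.Agent.Work.MP_a793bb_nt Pool.Agent.Work.MP_a793bb_nt.BPlus
  NumberField IsDedekindDomain Height

variable {K : Type*} [Field K] [NumberField K]

private theorem sum_mult_real :
    ∑ v : InfinitePlace K, (v.mult : ℝ) = (Module.finrank ℚ K : ℝ) := by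
  rw [← InfinitePlace.sum_mult_eq]
  push_cast
  rfl

omit [NumberField K] in
private theorem val_pos (v : InfinitePlace K) {x : K} (hx : x ≠ 0) : 0 < v x :=
  InfinitePlace.pos_iff.2 hx

private theorem kp_t {C C' : ℝ} {n : ℕ} {u u' ξ ξ' : K} (hu : u ≠ 0) (hu' : u' ≠ 0)
    {b : Ideal (𝓞 K)} (hd : Dec C n u b ξ) (hd' : Dec C' n u' b ξ')
    (p : HeightOneSpectrum (𝓞 K)) :
    kp p ((u' / u) * (ξ / ξ') ^ n) = gr n (kp p u') - gr n (kp p u) := by
  have h1 := hd.ne0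
  have h2 := hd'.ne0
  rw [kp_mul p (div_ne_zero hu' hu) (pow_ne_zero n (div_ne_zero h1 h2)),
    kp_pow p (div_ne_zero h1 h2), kp_div p hu' hu, kp_div p h1 h2, hd.val p,
    hd'.val p]
  unfold gr
  ring

private theorem kp_xi {C C' : ℝ} {n : ℕ} {u u' ξ ξ' : K}
    {b : Ideal (𝓞 K)} (hd : Dec C n u b ξ) (hd' : Dec C' n u' b ξ')
    (p : HeightOneSpectrum (𝓞 K)) :
    kp p (ξ / ξ') = fr n (kp p u) - fr n (kp p u') := by
  rw [kp_div p hd.ne0 hd'.ne0, hd.val p, hd'.val p]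
  ring

open Classical in
private theorem sum_ite (T S : Finset (HeightOneSpectrum (𝓞 K))) (h : S ⊆ T) (c : ℝ) :
    ∑ p ∈ T, (if p ∈ S then c else 0) * lN p = c * lsum S := by
  have h1 : ∀ p ∈ T, (if p ∈ S then c else 0) * lN p = if p ∈ S then c * lN p else 0 := by
    intro p _
    split_ifs <;> ring
  rw [sum_congr rfl h1, ← sum_filter, lsum, mul_sum]
  congr 1
  ext p
  rw [mem_filter]
  exact ⟨fun h => h.2, fun h' => ⟨h h', h'⟩⟩

private theorem fr_le {n : ℕ} (hn : 1 ≤ n) (e : ℤ) : |(fr n e : ℝ)| ≤ 2 / n * |(e : ℝ)| := by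
  have hn0 : (0 : ℝ) < n := by exact_mod_cast hn
  have h1 := fr_abs n hn e
  have h2 : (n : ℝ) * |(fr n e : ℝ)| ≤ 2 * |(e : ℝ)| := by exact_mod_cast h1
  rw [div_mul_eq_mul_div, le_div_iff₀ hn0, mul_comm]
  exact h2

private theorem floor_close {c x y : ℝ} (hc : 0 < c) (h : ⌊x / c⌋ = ⌊y / c⌋) : |x - y| ≤ c := by
  have h1 := Int.abs_sub_lt_one_of_floor_eq_floor h
  rw [← sub_div, abs_div, abs_of_pos hc, div_lt_one hc] at h1
  exact h1.le

open Classical in
private theorem gr_one {κ ν ℓ Q : ℝ} {n : ℕ} (hn : 1 ≤ n)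
    {U : Finset (HeightOneSpectrum (𝓞 K))} {u : K} (hu : BaseU κ ν ℓ Q n U u)
    (p : HeightOneSpectrum (𝓞 K)) (hp : p ∉ supp u \ U) :
    |(gr n (kp p u) : ℝ)| ≤ if p ∈ U then κ * n else 0 := by
  by_cases h : p ∈ U
  · rw [if_pos h]
    exact hu.hUk p h
  · rw [if_neg h]
    have h1 : p ∉ supp u := fun h2 => hp (Finset.mem_sdiff.2 ⟨h2, h⟩)
    rw [gr_kp_zero hu.ne0 n hn p h1]
    simp

open Classical in
private theorem fr_one {κ ν ℓ Q : ℝ} {n : ℕ} (hn : 1 ≤ n)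
    {U : Finset (HeightOneSpectrum (𝓞 K))} {u : K} (hu : BaseU κ ν ℓ Q n U u)
    (p : HeightOneSpectrum (𝓞 K)) (hp : p ∉ supp u \ U) :
    |(fr n (kp p u) : ℝ)| ≤ if p ∈ U then 2 / n * (16 * Q / ℓ) else 0 := by
  have hn0 : (0 : ℝ) < n := by exact_mod_cast hn
  have h0 := fr_le hn (kp p u)
  by_cases h : p ∈ U
  · rw [if_pos h]
    exact h0.trans (mul_le_mul_of_nonneg_left (hu.hUl p h) (by positivity))
  · rw [if_neg h]
    have h1 : p ∉ supp u := fun h2 => hp (Finset.mem_sdiff.2 ⟨h2, h⟩)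
    have h2 : kp p u = 0 := by
      by_contra h3
      exact h1 ((mem_supp hu.ne0 p).2 h3)
    rw [h2] at h0 ⊢
    simpa using h0

private theorem ite_nn {α : Type*} (S : Finset α) (p : α) [Decidable (p ∈ S)] {c : ℝ}
    (hc : 0 ≤ c) : 0 ≤ (if p ∈ S then c else 0) := by
  split_ifs
  · exact hc
  · exact le_rfl

open Classical in
private theorem gr_two {κ ν ε ℓ Q : ℝ} {n : ℕ} (hn : 1 ≤ n) (hκ : 0 ≤ κ) (hε : 0 < ε)
    {U U' : Finset (HeightOneSpectrum (𝓞 K))} {u u' : K}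
    (hu : BaseU κ ν ℓ Q n U u) (hu' : BaseU κ ν ℓ Q n U' u')
    (hlab : SameLabU ε ℓ Q n U U' u u') (p : HeightOneSpectrum (𝓞 K)) :
    |((gr n (kp p u') - gr n (kp p u) : ℤ) : ℝ)| ≤
      (if p ∈ supp u \ U then ε * n else 0) +
        ((if p ∈ U then κ * n else 0) + (if p ∈ U' then κ * n else 0)) := by
  have hn0 : (0 : ℝ) < n := by exact_mod_cast hn
  have hκn : 0 ≤ κ * n := mul_nonneg hκ hn0.le
  have i1 := ite_nn U p hκn
  have i2 := ite_nn U' p hκn
  push_cast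
  by_cases hp : p ∈ supp u \ U
  · rw [if_pos hp]
    have h1 := floor_close (mul_pos hε hn0) (hlab.hgr p hp)
    rw [abs_sub_comm] at h1
    linarith
  · rw [if_neg hp]
    have hp' : p ∉ supp u' \ U' := by
      rw [← hlab.hD]
      exact hp
    have h1 := gr_one hn hu p hp
    have h2 := gr_one hn hu' p hp'
    have h3 := abs_sub (gr n (kp p u') : ℝ) (gr n (kp p u))
    linarith

open Classical in
private theorem fr_two {κ ν ε ℓ Q : ℝ} {n : ℕ} (hn : 1 ≤ n) (hε : 0 < ε) (hℓ : 0 < ℓ)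
    (hQ : 0 < Q)
    {U U' : Finset (HeightOneSpectrum (𝓞 K))} {u u' : K}
    (hu : BaseU κ ν ℓ Q n U u) (hu' : BaseU κ ν ℓ Q n U' u')
    (hlab : SameLabU ε ℓ Q n U U' u u') (p : HeightOneSpectrum (𝓞 K)) :
    |((fr n (kp p u) - fr n (kp p u') : ℤ) : ℝ)| ≤
      (if p ∈ supp u \ U then ε * Q / ℓ / n + ε else 0) +
        ((if p ∈ U then 2 / n * (16 * Q / ℓ) else 0) +
          (if p ∈ U' then 2 / n * (16 * Q / ℓ) else 0)) := by
  have hn0 : (0 : ℝ) < n := by exact_mod_cast hn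
  have hc : 0 ≤ 2 / (n : ℝ) * (16 * Q / ℓ) := by positivity
  have i1 := ite_nn U p hc
  have i2 := ite_nn U' p hc
  push_cast
  by_cases hp : p ∈ supp u \ U
  · rw [if_pos hp]
    have h1 := floor_close (mul_pos hε hn0) (hlab.hgr p hp)
    have h2 := floor_close (c := ε * Q / ℓ) (by positivity) (hlab.hkp p hp)
    have e1 : (n : ℝ) * ((fr n (kp p u) : ℝ) - (fr n (kp p u') : ℝ)) =
        ((kp p u : ℝ) - (kp p u' : ℝ)) - ((gr n (kp p u) : ℝ) - (gr n (kp p u') : ℝ)) := by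
      unfold gr
      push_cast
      ring
    have h3 : (n : ℝ) * |(fr n (kp p u) : ℝ) - (fr n (kp p u') : ℝ)| ≤ ε * Q / ℓ + ε * n := by
      rw [← abs_of_pos hn0, ← abs_mul, abs_of_pos hn0, e1]
      exact (abs_sub _ _).trans (add_le_add h2 h1)
    have h4 : |(fr n (kp p u) : ℝ) - (fr n (kp p u') : ℝ)| ≤ ε * Q / ℓ / n + ε := by
      have e2 : (n : ℝ) * (ε * Q / ℓ / n + ε) = ε * Q / ℓ + ε * n := by
        field_simp
      rw [← e2] at h3
      exact le_of_mul_le_mul_left h3 hn0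
    linarith
  · rw [if_neg hp]
    have hp' : p ∉ supp u' \ U' := by
      rw [← hlab.hD]
      exact hp
    have h1 := fr_one hn hu p hp
    have h2 := fr_one hn hu' p hp'
    have h3 := abs_sub (fr n (kp p u) : ℝ) (fr n (kp p u'))
    linarith

open Classical in
theorem pair_heightsU (κ ν ε ℓ Q C : ℝ) (n : ℕ) (hn : 1 ≤ n) (hκ : 0 ≤ κ) (hε : 0 < ε)
    (hℓ : 1 ≤ ℓ) (hQ : 0 < Q) (U U' : Finset (HeightOneSpectrum (𝓞 K))) (u u' : K)
    (hu : BaseU κ ν ℓ Q n U u) (hu' : BaseU κ ν ℓ Q n U' u')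
    (hlab : SameLabU ε ℓ Q n U U' u u')
    (b : Ideal (𝓞 K)) (ξ ξ' : K) (hd : Dec C n u b ξ) (hd' : Dec C n u' b ξ')
    (hinf : SameInf ε ℓ Q n u u' ξ ξ') :
    logHeight₁ ((u' / u) * (ξ / ξ') ^ n) ≤
        (2 * κ * ν + (1 + (Module.finrank ℚ K : ℝ)) * ε) * n * ℓ ∧
      logHeight₁ (ξ / ξ') ≤
        64 * ν * (Q / n) + (1 + (Module.finrank ℚ K : ℝ)) * ε * (Q / n + ℓ) := by
  have hn0 : (0 : ℝ) < n := by exact_mod_cast hn
  have hℓ0 : 0 < ℓ := by linarith
  have hu0 := hu.ne0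
  have hu0' := hu'.ne0
  have hξ := hd.ne0
  have hξ' := hd'.ne0
  have ht0 : (u' / u) * (ξ / ξ') ^ n ≠ 0 :=
    mul_ne_zero (div_ne_zero hu0' hu0) (pow_ne_zero n (div_ne_zero hξ hξ'))
  have hclose : ∀ v : InfinitePlace K,
      |(Real.log (v ξ) - Real.log (v u) / n) - (Real.log (v ξ') - Real.log (v u') / n)| ≤ ε * ℓ :=
    fun v => floor_close (mul_pos hε hℓ0) (hinf.h1 v)
  have hclose2 : ∀ v : InfinitePlace K, |Real.log (v u) - Real.log (v u')| ≤ ε * Q :=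
    fun v => floor_close (mul_pos hε hQ) (hinf.h2 v)
  have hDs : supp u \ U ⊆ supp u ∪ supp u' :=
    Finset.sdiff_subset.trans Finset.subset_union_left
  have hUs : U ⊆ supp u ∪ supp u' := hu.hU.trans Finset.subset_union_left
  have hUs' : U' ⊆ supp u ∪ supp u' := hu'.hU.trans Finset.subset_union_right
  have hDl : lsum (supp u \ U) ≤ ℓ := (lsum_mono Finset.sdiff_subset).trans hu.hrad
  constructor
  · have h1 := ht_le _ ht0 (supp u ∪ supp u') (by
      intro p hp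
      by_contra hcon
      rw [mem_union, not_or] at hcon
      rw [kp_t hu0 hu0' hd hd' p, gr_kp_zero hu0 n hn p hcon.1, gr_kp_zero hu0' n hn p hcon.2,
        sub_zero] at hp
      exact hp rfl)
    have h2 : ∑ v : InfinitePlace K, (v.mult : ℝ) * |Real.log (v ((u' / u) * (ξ / ξ') ^ n))| ≤
        (Module.finrank ℚ K : ℝ) * (n * (ε * ℓ)) := by
      rw [← sum_mult_real, sum_mul]
      refine sum_le_sum fun v _ => mul_le_mul_of_nonneg_left ?_ (Nat.cast_nonneg _)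
      have h3 : Real.log (v ((u' / u) * (ξ / ξ') ^ n)) = n * ((Real.log (v ξ) - Real.log (v u) / n) -
          (Real.log (v ξ') - Real.log (v u') / n)) := by
        have a1 := (val_pos v hu0).ne'
        have a2 := (val_pos v hu0').ne'
        have a3 := (val_pos v hξ).ne'
        have a4 := (val_pos v hξ').ne'
        rw [map_mul, map_pow, map_div₀, map_div₀, Real.log_mul (div_ne_zero a2 a1)
          (pow_ne_zero n (div_ne_zero a3 a4)), Real.log_pow, Real.log_div a2 a1, Real.log_div a3 a4]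
        field_simp
        ring
      rw [h3, abs_mul, abs_of_pos hn0]
      exact mul_le_mul_of_nonneg_left (hclose v) hn0.le
    have h4 : ∑ p ∈ supp u ∪ supp u', |(kp p ((u' / u) * (ξ / ξ') ^ n) : ℝ)| * lN p ≤
        ε * n * lsum (supp u \ U) + (κ * n * lsum U + κ * n * lsum U') := by
      rw [← sum_ite (supp u ∪ supp u') (supp u \ U) hDs, ← sum_ite (supp u ∪ supp u') U hUs,
        ← sum_ite (supp u ∪ supp u') U' hUs', ← sum_add_distrib, ← sum_add_distrib]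
      refine sum_le_sum fun p _ => ?_
      rw [← add_mul, ← add_mul, kp_t hu0 hu0' hd hd' p]
      exact mul_le_mul_of_nonneg_right (gr_two hn hκ hε hu hu' hlab p) (lN_pos p).le
    have h5 : ε * n * lsum (supp u \ U) ≤ ε * n * ℓ :=
      mul_le_mul_of_nonneg_left hDl (by positivity)
    have h6 : κ * n * lsum U ≤ κ * n * (ν * ℓ) :=
      mul_le_mul_of_nonneg_left hu.hUs (by positivity)
    have h7 : κ * n * lsum U' ≤ κ * n * (ν * ℓ) :=
      mul_le_mul_of_nonneg_left hu'.hUs (by positivity)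
    have e : (2 * κ * ν + (1 + (Module.finrank ℚ K : ℝ)) * ε) * n * ℓ =
        (Module.finrank ℚ K : ℝ) * (n * (ε * ℓ)) + (ε * n * ℓ +
          (κ * n * (ν * ℓ) + κ * n * (ν * ℓ))) := by ring
    rw [e]
    linarith
  · have h1 := ht_le _ (div_ne_zero hξ hξ') (supp u ∪ supp u') (by
      intro p hp
      by_contra hcon
      rw [mem_union, not_or, mem_supp hu0, mem_supp hu0', not_not, not_not] at hcon
      rw [kp_xi hd hd' p, hcon.1, hcon.2, sub_self] at hp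
      exact hp rfl)
    have h2 : ∑ v : InfinitePlace K, (v.mult : ℝ) * |Real.log (v (ξ / ξ'))| ≤
        (Module.finrank ℚ K : ℝ) * (ε * ℓ + ε * (Q / n)) := by
      rw [← sum_mult_real, sum_mul]
      refine sum_le_sum fun v _ => mul_le_mul_of_nonneg_left ?_ (Nat.cast_nonneg _)
      have h3 : Real.log (v (ξ / ξ')) = ((Real.log (v ξ) - Real.log (v u) / n) -
          (Real.log (v ξ') - Real.log (v u') / n)) +
            1 / n * (Real.log (v u) - Real.log (v u')) := by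
        rw [map_div₀, Real.log_div (val_pos v hξ).ne' (val_pos v hξ').ne']
        ring
      rw [h3]
      refine (abs_add_le _ _).trans (add_le_add (hclose v) ?_)
      rw [abs_mul, abs_of_pos (by positivity : 0 < 1 / (n : ℝ))]
      calc 1 / (n : ℝ) * |Real.log (v u) - Real.log (v u')| ≤ 1 / n * (ε * Q) :=
            mul_le_mul_of_nonneg_left (hclose2 v) (by positivity)
        _ = ε * (Q / n) := by ring
    have h4 : ∑ p ∈ supp u ∪ supp u', |(kp p (ξ / ξ') : ℝ)| * lN p ≤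
        (ε * Q / ℓ / n + ε) * lsum (supp u \ U) + (2 / n * (16 * Q / ℓ) * lsum U +
          2 / n * (16 * Q / ℓ) * lsum U') := by
      rw [← sum_ite (supp u ∪ supp u') (supp u \ U) hDs, ← sum_ite (supp u ∪ supp u') U hUs,
        ← sum_ite (supp u ∪ supp u') U' hUs', ← sum_add_distrib, ← sum_add_distrib]
      refine sum_le_sum fun p _ => ?_
      rw [← add_mul, ← add_mul, kp_xi hd hd' p]
      exact mul_le_mul_of_nonneg_right (fr_two hn hε hℓ0 hQ hu hu' hlab p) (lN_pos p).le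
    have h5 : (ε * Q / ℓ / n + ε) * lsum (supp u \ U) ≤ (ε * Q / ℓ / n + ε) * ℓ :=
      mul_le_mul_of_nonneg_left hDl (by positivity)
    have h6 : 2 / n * (16 * Q / ℓ) * lsum U ≤ 2 / n * (16 * Q / ℓ) * (ν * ℓ) :=
      mul_le_mul_of_nonneg_left hu.hUs (by positivity)
    have h7 : 2 / n * (16 * Q / ℓ) * lsum U' ≤ 2 / n * (16 * Q / ℓ) * (ν * ℓ) :=
      mul_le_mul_of_nonneg_left hu'.hUs (by positivity)
    have e : 64 * ν * (Q / n) + (1 + (Module.finrank ℚ K : ℝ)) * ε * (Q / n + ℓ) =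
        (Module.finrank ℚ K : ℝ) * (ε * ℓ + ε * (Q / n)) + ((ε * Q / ℓ / n + ε) * ℓ +
          (2 / n * (16 * Q / ℓ) * (ν * ℓ) + 2 / n * (16 * Q / ℓ) * (ν * ℓ))) := by
      field_simp
      ring
    rw [e]
    linarith

end AbcOrdH
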