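import Pool.Agent.Work.MP_a793bb_nt.OrdH.DefsH
import Pool.Agent.Work.MP_a793bb_nt.RadK.CellPK

/-!
# Pairs in a cell

Proof. Put `τ = (x' / x) ^ w * (y' / y)` and `ρ = (ξ / ξ') ^ w * (ζ / ζ')`.
Then `τ ρ ^ n = ((x' / x) (ξ / ξ') ^ n) ^ w * ((y' / y) (ζ / ζ') ^ n)`, so by `pair_heights` (`PairK.lean`),
`logHeight₁ (a * b) ≤ logHeight₁ a + logHeight₁ b` and `logHeight₁ (a ^ w) = w logHeight₁ a`,
`logHeight₁ (τ ρ ^ n) ≤ (w + 1) (2 + d) κ n ℓ`, `logHeight₁ ρ ≤ (w + 1) (24 Q / n + d κ ℓ)`.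
By `sub_av` (`N = m_p L0`), `av p (x' / x - 1)` and `av p (y' / y - 1)` are at most `exp (- m_p L0 lN p) < 1`
for `p ∈ S`, hence the same for `τ - 1` (`a b - 1 = (a - 1) b + (b - 1)`, `av p b = 1`, induction on `w`).
If no power `τ ^ i`, `i > 0`, were `1`, `main_fin` for `τ, ρ, S, m` would contradict `ParW.key` as in
`cellPK`. So `τ ^ i = 1`, `logHeight₁ τ = 0`, and `w logHeight₁ (x' / x) = logHeight₁ (τ * (y / y'))
≤ logHeight₁ y + logHeight₁ y' ≤ 4 Q`. Gap: if `z ≠ 1` and `av p (z - 1) ≤ exp (- m_p L0 lN p)` for `p ∈ S` then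
`L0 δ ℓ ≤ ∑_{p ∈ S} |kp p (z - 1)| lN p ≤ 2 logHeight₁ (z - 1) ≤ 2 (logHeight₁ z + d log 2)` (`sum_kp_le`;
`RadE/EffHt.lean` has a bound for `logHeight₁ (1 - z)`). For `z = x' / x` this is at most `8 Q / w + 2 d`, which
contradicts `ParW.gap`, so `x' = x`; then `logHeight₁ (y' / y) = logHeight₁ τ = 0` and `y' = y` in the same way.
-/

set_option autoImplicit false

namespace AbcOrdH

open Finset AbcRad AbcRadK Pool.Agent.Work.MP_a793bb_nt Pool.Agent.Work.MP_a793bb_nt.BPlus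
  NumberField IsDedekindDomain Height

variable {K : Type*} [Field K] [NumberField K]

/-- The height of `z - 1`. -/
theorem ht_sub_one_le (z : K) :
    logHeight₁ (z - 1) ≤ logHeight₁ z + (Module.finrank ℚ K : ℝ) := by
  have h := logHeight₁_sub_le z (1 : K)
  rw [logHeight₁_one, add_zero, NumberField.totalWeight_eq_finrank] at h
  have h2 : Real.log 2 ≤ 1 := by
    have := Real.log_two_lt_d9
    linarith
  have h3 : (Module.finrank ℚ K : ℝ) * Real.log 2 ≤ (Module.finrank ℚ K : ℝ) * 1 :=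
    mul_le_mul_of_nonneg_left h2 (Nat.cast_nonneg _)
  linarith

/-- An element which is close to `1` at the primes of `S` is `1` or has a large height. -/
theorem gap_le (z : K) (hz : z ≠ 1) (S : Finset (HeightOneSpectrum (𝓞 K)))
    (N : HeightOneSpectrum (𝓞 K) → ℕ)
    (h : ∀ p ∈ S, av p (z - 1) ≤ Real.exp (-(N p * lN p))) :
    ∑ p ∈ S, (N p : ℝ) * lN p ≤ 2 * (logHeight₁ z + (Module.finrank ℚ K : ℝ)) := by
  have hz1 : z - 1 ≠ 0 := sub_ne_zero.2 hz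
  have h1 := sum_kp_le (z - 1) hz1 S
  have h2 : ∑ p ∈ S, (N p : ℝ) * lN p ≤ ∑ p ∈ S, |(kp p (z - 1) : ℝ)| * lN p := by
    refine Finset.sum_le_sum fun p hp => ?_
    refine mul_le_mul_of_nonneg_right ?_ (lN_pos p).le
    have h3 := h p hp
    rw [← Real.log_le_iff_le_exp (av_pos p hz1), log_av hz1] at h3
    have h4 : (N p : ℝ) * lN p ≤ (kp p (z - 1) : ℝ) * lN p := by linarith
    have h5 : (N p : ℝ) ≤ (kp p (z - 1) : ℝ) := le_of_mul_le_mul_right h4 (lN_pos p)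
    exact h5.trans (le_abs_self _)
  have h3 := ht_sub_one_le z
  linarith

theorem av_one_of_near (p : HeightOneSpectrum (𝓞 K)) (z : K) (h : av p (z - 1) < 1) :
    av p z = 1 := av_eq_one_of_near h

theorem av_mul_near (p : HeightOneSpectrum (𝓞 K)) (a b : K) (E : ℝ) (hE : E < 1)
    (ha : av p (a - 1) ≤ E) (hb : av p (b - 1) ≤ E) : av p (a * b - 1) ≤ E := by
  have e : a * b - 1 = (a - 1) * b + (b - 1) := by ring
  rw [e]
  refine (av_add_le p _ _).trans (max_le ?_ hb)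
  rw [av_mul, av_one_of_near p b (hb.trans_lt hE), mul_one]
  exact ha

theorem av_pow_near (p : HeightOneSpectrum (𝓞 K)) (a : K) (E : ℝ) (hE0 : 0 ≤ E) (hE : E < 1)
    (ha : av p (a - 1) ≤ E) (w : ℕ) : av p (a ^ w - 1) ≤ E := by
  induction w with
  | zero =>
    rw [pow_zero, sub_self]
    have : av p (0 : K) = 0 := by simp [av]
    rw [this]
    exact hE0
  | succ w ih =>
    rw [pow_succ]
    exact av_mul_near p _ _ E hE ih ha

theorem cell_pairW (w : ℕ) (δ κ ℓ Q C : ℝ) (n I J L0 : ℕ)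
    (hP : ParW (Module.finrank ℚ K) w δ κ ℓ Q n I J L0) (x x' y y' : K)
    (hx : BaseK δ κ ℓ Q n x) (hx' : BaseK δ κ ℓ Q n x')
    (hy : BaseK δ κ ℓ Q n y) (hy' : BaseK δ κ ℓ Q n y')
    (hlx : SameLab δ κ ℓ n x x') (hly : SameLab δ κ ℓ n y y')
    (b : Ideal (𝓞 K)) (ξ ξ' ζ ζ' : K) (hd : Dec C n x b ξ) (hd' : Dec C n x' b ξ')
    (he : Dec C n y b ζ) (he' : Dec C n y' b ζ')
    (hax : ∀ v : InfinitePlace K, ⌊(Real.log (v ξ) - Real.log (v x) / n) / (κ * ℓ)⌋ =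
      ⌊(Real.log (v ξ') - Real.log (v x') / n) / (κ * ℓ)⌋)
    (hay : ∀ v : InfinitePlace K, ⌊(Real.log (v ζ) - Real.log (v y) / n) / (κ * ℓ)⌋ =
      ⌊(Real.log (v ζ') - Real.log (v y') / n) / (κ * ℓ)⌋)
    (S : Finset (HeightOneSpectrum (𝓞 K))) (m : HeightOneSpectrum (𝓞 K) → ℕ)
    (hm : ∀ p ∈ S, 1 ≤ m p) (hS : δ * ℓ ≤ ∑ p ∈ S, (m p : ℝ) * lN p)
    (hLx : ∀ p ∈ S, ((m p * L0 : ℕ) : ℤ) ≤ kp p (1 - x))
    (hLx' : ∀ p ∈ S, ((m p * L0 : ℕ) : ℤ) ≤ kp p (1 - x'))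
    (hLy : ∀ p ∈ S, ((m p * L0 : ℕ) : ℤ) ≤ kp p (1 - y))
    (hLy' : ∀ p ∈ S, ((m p * L0 : ℕ) : ℤ) ≤ kp p (1 - y'))
    (hcl : ∀ p ∈ S, av p ((ξ / ξ') ^ w * (ζ / ζ') - 1) ≤ Real.exp (-(m p * lN p))) :
    x = x' ∧ y = y' := by
  have hℓ : 0 < ℓ := lt_of_lt_of_le one_pos hP.hℓ
  have hn : 1 ≤ n := by
    have h1 := hP.hJ8
    have h2 := hP.hJn
    omega
  have hw1 : (1 : ℝ) ≤ w := by exact_mod_cast hP.hw
  have hw0 : (0 : ℝ) < w := by linarith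
  have hd0 : (0 : ℝ) < (Module.finrank ℚ K : ℝ) := by
    exact_mod_cast Module.finrank_pos (R := ℚ) (M := K)
  have hIJ0 : 1 ≤ I * J := Nat.one_le_iff_ne_zero.2
    (Nat.mul_ne_zero (by have := hP.hI; omega) (by have := hP.hJ8; omega))
  have hL0 : 1 ≤ L0 := hIJ0.trans hP.hIJ
  obtain ⟨hx1, hx2⟩ := pair_heights δ κ ℓ Q C n hn hP.hκ hℓ x x' hx hx' hlx b ξ ξ' hd hd' hax
  obtain ⟨hy1, hy2⟩ := pair_heights δ κ ℓ Q C n hn hP.hκ hℓ y y' hy hy' hly b ζ ζ' he he' hay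
  have hmL : ∀ p ∈ S, 1 ≤ m p * L0 := fun p hp => Nat.mul_pos (hm p hp) hL0
  have hex : ∀ p ∈ S, av p (x' / x - 1) ≤ Real.exp (-((m p * L0 : ℕ) * lN p)) := fun p hp =>
    sub_av hx.ne0 hx'.ne0 p (m p * L0) (hmL p hp) (hLx p hp) (hLx' p hp)
  have hey : ∀ p ∈ S, av p (y' / y - 1) ≤ Real.exp (-((m p * L0 : ℕ) * lN p)) := fun p hp =>
    sub_av hy.ne0 hy'.ne0 p (m p * L0) (hmL p hp) (hLy p hp) (hLy' p hp)
  have hE1 : ∀ p ∈ S, Real.exp (-((m p * L0 : ℕ) * lN p)) < 1 := by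
    intro p hp
    rw [Real.exp_lt_one_iff]
    have h1 : (1 : ℝ) ≤ (m p * L0 : ℕ) := by exact_mod_cast hmL p hp
    have h2 := lN_pos p
    nlinarith
  obtain ⟨τ, hτ⟩ : ∃ τ : K, τ = (x' / x) ^ w * (y' / y) := ⟨_, rfl⟩
  have hxx : x' / x ≠ 0 := div_ne_zero hx'.ne0 hx.ne0
  have hyy : y' / y ≠ 0 := div_ne_zero hy'.ne0 hy.ne0
  have hξξ : ξ / ξ' ≠ 0 := div_ne_zero hd.ne0 hd'.ne0
  have hζζ : ζ / ζ' ≠ 0 := div_ne_zero he.ne0 he'.ne0
  have hτ0 : τ ≠ 0 := by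
    rw [hτ]
    exact mul_ne_zero (pow_ne_zero _ hxx) hyy
  have hτS : ∀ p ∈ S, av p (τ - 1) ≤ Real.exp (-((m p * L0 : ℕ) * lN p)) := by
    intro p hp
    rw [hτ]
    exact av_mul_near p _ _ _ (hE1 p hp)
      (av_pow_near p _ _ (Real.exp_pos _).le (hE1 p hp) (hex p hp) w) (hey p hp)
  have hsum : L0 * (δ * ℓ) ≤ ∑ p ∈ S, ((m p * L0 : ℕ) : ℝ) * lN p := by
    calc (L0 : ℝ) * (δ * ℓ) ≤ L0 * ∑ p ∈ S, (m p : ℝ) * lN p :=
          mul_le_mul_of_nonneg_left hS (Nat.cast_nonneg _)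
      _ = ∑ p ∈ S, ((m p * L0 : ℕ) : ℝ) * lN p := by
          rw [Finset.mul_sum]
          refine Finset.sum_congr rfl fun p _ => ?_
          push_cast
          ring
  have hgap := hP.gap
  -- `τ` is a root of unity
  have hroot : ∃ i : ℕ, 0 < i ∧ τ ^ i = 1 := by
    by_contra hcon
    push Not at hcon
    have h3 := main_fin n I J hP.hJ8 hP.hJn hP.hI S m hm τ ((ξ / ξ') ^ w * (ζ / ζ')) hτ0
      (mul_ne_zero (pow_ne_zero _ hξξ) hζζ) (fun i hi _ => hcon i hi) hcl (by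
        intro p hp
        refine (hτS p hp).trans ?_
        rw [Real.exp_le_exp, neg_le_neg_iff]
        refine mul_le_mul_of_nonneg_right ?_ (lN_pos p).le
        exact_mod_cast Nat.mul_le_mul_left (m p) hP.hIJ)
    have h4 : logHeight₁ (τ * ((ξ / ξ') ^ w * (ζ / ζ')) ^ n) ≤
        (w + 1) * ((2 + (Module.finrank ℚ K : ℝ)) * (κ * n) * ℓ) := by
      have e : τ * ((ξ / ξ') ^ w * (ζ / ζ')) ^ n =
          ((x' / x) * (ξ / ξ') ^ n) ^ w * ((y' / y) * (ζ / ζ') ^ n) := by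
        rw [hτ, mul_pow, mul_pow, ← pow_mul, ← pow_mul, mul_comm n w]
        ring
      rw [e]
      refine (logHeight₁_mul_le _ _).trans ?_
      rw [logHeight₁_pow]
      have h5 : (w : ℝ) * logHeight₁ ((x' / x) * (ξ / ξ') ^ n) ≤
          w * ((2 + (Module.finrank ℚ K : ℝ)) * (κ * n) * ℓ) :=
        mul_le_mul_of_nonneg_left hx1 hw0.le
      linarith
    have h5 : logHeight₁ ((ξ / ξ') ^ w * (ζ / ζ')) ≤
        (w + 1) * (24 * Q / n + (Module.finrank ℚ K : ℝ) * κ * ℓ) := by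
      refine (logHeight₁_mul_le _ _).trans ?_
      rw [logHeight₁_pow]
      have h5 : (w : ℝ) * logHeight₁ (ξ / ξ') ≤
          w * (24 * Q / n + (Module.finrank ℚ K : ℝ) * κ * ℓ) :=
        mul_le_mul_of_nonneg_left hx2 hw0.le
      linarith
    have hkey := hP.key
    have h6 : ((I * J : ℕ) : ℝ) * (δ * ℓ) ≤ ((I * J : ℕ) : ℝ) * ∑ p ∈ S, (m p : ℝ) * lN p :=
      mul_le_mul_of_nonneg_left hS (Nat.cast_nonneg _)
    have h7 := mul_le_mul_of_nonneg_left h4 (Nat.cast_nonneg (α := ℝ) I)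
    have h8 := mul_le_mul_of_nonneg_left h5 (Nat.cast_nonneg (α := ℝ) J)
    have h9 : (I : ℝ) * ((w + 1) * ((2 + (Module.finrank ℚ K : ℝ)) * (κ * n) * ℓ)) +
        J * ((w + 1) * (24 * Q / n + (Module.finrank ℚ K : ℝ) * κ * ℓ)) =
        (w + 1) * (I * ((2 + (Module.finrank ℚ K : ℝ)) * (κ * n) * ℓ) +
          J * (24 * Q / n + (Module.finrank ℚ K : ℝ) * κ * ℓ)) := by ring
    linarith
  obtain ⟨i, hi, hτi⟩ := hroot
  have hτh : logHeight₁ τ = 0 := by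
    have h1 : logHeight₁ (τ ^ i) = i * logHeight₁ τ := logHeight₁_pow _ _
    rw [hτi, logHeight₁_one] at h1
    have h2 : (0 : ℝ) < i := by exact_mod_cast hi
    rcases mul_eq_zero.1 h1.symm with h3 | h3
    · exact absurd h3 h2.ne'
    · exact h3
  have hyh : logHeight₁ (y / y') ≤ 4 * Q := by
    rw [div_eq_mul_inv]
    refine (logHeight₁_mul_le _ _).trans ?_
    rw [logHeight₁_inv]
    linarith [hy.hH, hy'.hH]
  have hxh : (w : ℝ) * logHeight₁ (x' / x) ≤ 4 * Q := by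
    rw [← logHeight₁_pow]
    have e : (x' / x) ^ w = τ * (y / y') := by
      rw [hτ]
      have h1 := hy.ne0
      have h2 := hy'.ne0
      field_simp
    rw [e]
    refine (logHeight₁_mul_le _ _).trans ?_
    rw [hτh, zero_add]
    exact hyh
  have hxx1 : x' / x = 1 := by
    by_contra hne
    have h1 := gap_le (x' / x) hne S (fun p => m p * L0) hex
    have h2 : logHeight₁ (x' / x) ≤ 4 * Q / w := by
      rw [le_div_iff₀ hw0]
      linarith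
    have h3 : 8 * Q / (w : ℝ) = 2 * (4 * Q / w) := by ring
    linarith
  have hyy1 : y' / y = 1 := by
    by_contra hne
    have h1 := gap_le (y' / y) hne S (fun p => m p * L0) hey
    have h2 : logHeight₁ (y' / y) = 0 := by
      have e : y' / y = τ := by rw [hτ, hxx1, one_pow, one_mul]
      rw [e]
      exact hτh
    have h3 : 0 ≤ 8 * Q / (w : ℝ) := by
      have := hP.hQ
      have : 0 ≤ Q := by linarith
      positivity
    linarith
  exact ⟨((div_eq_one_iff_eq hx.ne0).1 hxx1).symm, ((div_eq_one_iff_eq hy.ne0).1 hyy1).symm⟩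

end AbcOrdH
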