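import Pool.Agent.Work.MP_a793bb_nt.OrdH.DefsH

/-!
# The parameters exist (uniform case)

Proof (compare `RadK/ParExK.lean`). `μ = muU d`, `ε = epU d = μ / (10 ^ 7 (d + 1))`, `y = 1 / 65536`, `X = Q / ℓ ≥ C0`,
`N = NNK ℓ Q = ⌊X / 4⌋₊`, `L0 = LU ℓ Q = ⌊X / 8⌋₊ ≥ X / 16`, `n = N / h` (`h ≤ HU`, so `n ≥ X / (16 HU)`, `n ≤ X / 4`),
`J = ⌊y n⌋₊`, `y n / 2 ≤ J ≤ y n`, `I = L0 / J`. Then `J ≤ y X / 4 ≤ 4 y L0 ≤ L0 / 1000`, so `I ≥ 2`,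
`I J ≥ (1 - 1 / 1000) L0`, `I J ≤ L0`, `n I ≤ 2 L0 / y`. `key`:
* `24 d (log (n I) + n I log 2) ≤ 41 d n I ≤ 82 d L0 / y ≤ μ ℓ L0 / 8` for `ℓ ≥ ℓ0 = 656 d / (y μ)`;
* `2 I (8 kU μ + (1 + d) ε) n ℓ ≤ (4 / y) L0 ℓ (8 kU + 10 ^ -7) μ ≤ 0.1 μ L0 ℓ`;
* `2 J (256 μ + (1 + d) ε) Q / n ≤ 2 y (256 + 10 ^ -7) μ Q ≤ 32 y (256 + 10 ^ -7) μ L0 ℓ ≤ 0.126 μ L0 ℓ` (as
  `Q = X ℓ ≤ 16 L0 ℓ`), `2 J (1 + d) ε ℓ ≤ 0.001 μ L0 ℓ`.
`hL0`: `L0 μ ℓ ≤ μ Q / 8 ≤ Q / (8 d)`. The other claims hold for large `X`.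
-/

set_option autoImplicit false

namespace AbcOrdH

open Finset AbcRad AbcRadK Pool.Agent.Work.MP_a793bb_nt Pool.Agent.Work.MP_a793bb_nt.BPlus
  NumberField IsDedekindDomain Height

theorem par_coreU (D μ ε k ℓ X : ℝ) (H N L0 h : ℕ) (hD : 1 ≤ D) (hμ : 0 < μ)
    (hk : k = 1 / 30000000) (hε : (1 + D) * ε = μ / 10 ^ 7) (hε0 : 0 < ε)
    (hℓ : 0 < ℓ) (hℓ2 : 82 * D * 65536 < μ * ℓ / 8)
    (hN1 : (N : ℝ) ≤ X / 4) (hN2 : 2 * H ≤ N) (hN3 : 18 * 65536 * H ≤ N)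
    (hL2 : X / 16 ≤ (L0 : ℝ)) (hX : 0 < X) (h1 : 1 ≤ h) (hH : h ≤ H) :
    ∃ I J : ℕ, 8 ≤ J ∧ J ≤ N / h ∧ 2 ≤ I ∧ I * J ≤ L0 ∧
      2 * (12 * D * (Real.log (((N / h) * I : ℕ) : ℝ) + ((N / h) * I : ℕ) * Real.log 2) +
        I * ((2 * k * (4 * μ) + (1 + D) * ε) * ((N / h : ℕ) : ℝ) * ℓ) +
        J * (64 * (4 * μ) * ((X * ℓ) / ((N / h : ℕ) : ℝ)) +
          (1 + D) * ε * ((X * ℓ) / ((N / h : ℕ) : ℝ) + ℓ))) < (I * J : ℕ) * (μ * ℓ) := by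
  have hH1 : 1 ≤ H := le_trans h1 hH
  have hD0 : 0 < D := by linarith
  set n : ℕ := N / h with hn
  obtain ⟨y, hy⟩ : ∃ y : ℝ, y = 1 / 65536 := ⟨_, rfl⟩
  have hy0 : 0 < y := by rw [hy]; norm_num
  have hhR : (1 : ℝ) ≤ h := by exact_mod_cast h1
  have hHR : (h : ℝ) ≤ H := by exact_mod_cast hH
  have hNH : (2 : ℝ) * H ≤ N := by exact_mod_cast hN2
  have hNH3 : (18 : ℝ) * 65536 * H ≤ N := by exact_mod_cast hN3
  have hn_lt : (N : ℝ) < h * n + h := by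
    have := Nat.lt_mul_div_succ N (show 0 < h from h1)
    have h3 : N < h * (n + 1) := by rw [hn]; exact this
    have h4 : (N : ℝ) < h * (n + 1) := by exact_mod_cast h3
    linarith
  have hnN : (n : ℝ) ≤ N := by
    have : n ≤ N := Nat.div_le_self _ _
    exact_mod_cast this
  have hn2 : (N : ℝ) ≤ 2 * (h * n) := by linarith
  have hjn : 9 ≤ y * n := by
    have h5 : 18 * 65536 * (h : ℝ) ≤ 2 * (h * n) := by
      have : 18 * 65536 * (h : ℝ) ≤ 18 * 65536 * H := by gcongr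
      linarith
    have h7 : 0 < (h : ℝ) := by linarith
    have h8 : (h : ℝ) * (9 * 65536) ≤ h * n := by linarith
    have h9 : (9 * 65536 : ℝ) ≤ n := le_of_mul_le_mul_left h8 h7
    rw [hy]
    linarith
  have hn0 : 0 < (n : ℝ) := by
    rcases (Nat.cast_nonneg (α := ℝ) n).lt_or_eq with h9 | h9
    · exact h9
    · rw [← h9] at hjn; norm_num at hjn
  set J : ℕ := ⌊y * n⌋₊ with hJ
  have hJle : (J : ℝ) ≤ y * n := Nat.floor_le (by positivity)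
  have hJlt : y * n < J + 1 := Nat.lt_floor_add_one _
  have hJ9 : 9 ≤ J := Nat.le_floor (by exact_mod_cast hjn)
  have hJR : (9 : ℝ) ≤ J := by exact_mod_cast hJ9
  have hJhalf : y * n ≤ 2 * J := by linarith
  have hJn : J ≤ n := by
    have : (J : ℝ) ≤ n := le_trans hJle (by rw [hy]; linarith)
    exact_mod_cast this
  set I : ℕ := L0 / J with hI
  have hIJ : I * J ≤ L0 := Nat.div_mul_le_self _ _
  have hIJR : (I : ℝ) * J ≤ L0 := by exact_mod_cast hIJ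
  have hJpos : 0 < J := by omega
  have hIJ2 : (L0 : ℝ) < I * J + J := by
    have := Nat.lt_mul_div_succ L0 hJpos
    have h3 : L0 < J * (I + 1) := by rw [hI]; exact this
    have h4 : (L0 : ℝ) < J * (I + 1) := by exact_mod_cast h3
    linarith
  have hJL : (J : ℝ) * 16384 ≤ L0 := by
    have e1 : (J : ℝ) ≤ y * (X / 4) := le_trans hJle (by gcongr; linarith)
    rw [hy] at e1
    linarith
  have hL0pos : 0 < (L0 : ℝ) := lt_of_lt_of_le (by positivity) hL2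
  have hI2 : 2 ≤ I := by
    rw [hI, Nat.le_div_iff_mul_le hJpos]
    have : (2 : ℝ) * J ≤ L0 := by linarith
    exact_mod_cast this
  have hIR : (2 : ℝ) ≤ I := by exact_mod_cast hI2
  have hnI : ((n * I : ℕ) : ℝ) ≤ 131072 * L0 := by
    push_cast
    have h5 : (n : ℝ) * I * y ≤ 2 * L0 := by
      calc (n : ℝ) * I * y = I * (y * n) := by ring
        _ ≤ I * (2 * J) := by gcongr
        _ = 2 * (I * J) := by ring
        _ ≤ 2 * L0 := by linarith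
    rw [hy] at h5
    linarith
  have hnI0 : 0 < ((n * I : ℕ) : ℝ) := by
    push_cast; positivity
  refine ⟨I, J, by omega, hJn, hI2, hIJ, ?_⟩
  have hlog : Real.log ((n * I : ℕ) : ℝ) ≤ ((n * I : ℕ) : ℝ) := by
    have := Real.log_le_sub_one_of_pos hnI0
    linarith
  have hl2 : Real.log 2 ≤ 0.7 := by
    have := Real.log_two_lt_d9
    linarith
  have t1 : 24 * D * (Real.log ((n * I : ℕ) : ℝ) + ((n * I : ℕ) : ℝ) * Real.log 2) ≤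
      82 * D * 65536 * L0 := by
    have e1 : ((n * I : ℕ) : ℝ) * Real.log 2 ≤ ((n * I : ℕ) : ℝ) * 0.7 := by gcongr
    have e2 : 24 * (Real.log ((n * I : ℕ) : ℝ) + ((n * I : ℕ) : ℝ) * Real.log 2) ≤
        41 * ((n * I : ℕ) : ℝ) := by linarith
    calc 24 * D * (Real.log ((n * I : ℕ) : ℝ) + ((n * I : ℕ) : ℝ) * Real.log 2)
        = D * (24 * (Real.log ((n * I : ℕ) : ℝ) + ((n * I : ℕ) : ℝ) * Real.log 2)) := by ring
      _ ≤ D * (41 * ((n * I : ℕ) : ℝ)) := by gcongr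
      _ ≤ D * (41 * (131072 * L0)) := by gcongr
      _ = 82 * D * 65536 * L0 := by ring
  have t1b : 82 * D * 65536 * L0 ≤ μ * ℓ * L0 / 8 := by
    have h5 := mul_le_mul_of_nonneg_right hℓ2.le hL0pos.le
    linarith
  have hμL : 0 < μ * L0 * ℓ := by positivity
  have t2 : 2 * (I * ((2 * k * (4 * μ) + (1 + D) * ε) * (n : ℝ) * ℓ)) ≤ μ * L0 * ℓ / 10 := by
    have e1 : 2 * (I * ((2 * k * (4 * μ) + (1 + D) * ε) * (n : ℝ) * ℓ)) =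
        2 * ((2 * k * (4 * μ) + (1 + D) * ε) * ((n * I : ℕ) : ℝ) * ℓ) := by
      push_cast; ring
    have e2 : 2 * k * (4 * μ) + (1 + D) * ε = (8 / 30000000 + 1 / 10 ^ 7) * μ := by
      rw [hε, hk]; ring
    rw [e1, e2]
    calc 2 * ((8 / 30000000 + 1 / 10 ^ 7) * μ * ((n * I : ℕ) : ℝ) * ℓ)
        ≤ 2 * ((8 / 30000000 + 1 / 10 ^ 7) * μ * (131072 * L0) * ℓ) := by gcongr
      _ = (2 * (8 / 30000000 + 1 / 10 ^ 7) * 131072) * (μ * L0 * ℓ) := by ring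
      _ ≤ (1 / 10) * (μ * L0 * ℓ) := by gcongr; norm_num
      _ = μ * L0 * ℓ / 10 := by ring
  have hJdn : (J : ℝ) / n ≤ y := by
    rw [div_le_iff₀ hn0]; exact hJle
  have hXL : X * ℓ ≤ 16 * L0 * ℓ := by
    have : X ≤ 16 * L0 := by linarith
    gcongr
  have t3 : 2 * (J * (64 * (4 * μ) * ((X * ℓ) / (n : ℝ)) +
      (1 + D) * ε * ((X * ℓ) / (n : ℝ) + ℓ))) ≤ μ * L0 * ℓ / 4 := by
    have e1 : 2 * (J * (64 * (4 * μ) * ((X * ℓ) / (n : ℝ)) +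
      (1 + D) * ε * ((X * ℓ) / (n : ℝ) + ℓ))) =
        2 * (256 + 1 / 10 ^ 7) * μ * (X * ℓ) * (J / n) + 2 / 10 ^ 7 * μ * ℓ * J := by
      rw [hε]; ring
    rw [e1]
    have e2 : 2 * (256 + 1 / 10 ^ 7) * μ * (X * ℓ) * (J / n) ≤
        2 * (256 + 1 / 10 ^ 7) * μ * (16 * L0 * ℓ) * y := by gcongr
    have e3 : 2 / 10 ^ 7 * μ * ℓ * J ≤ 2 / 10 ^ 7 * μ * ℓ * (L0 / 16384) := by
      gcongr; linarith
    rw [hy] at e2
    calc 2 * (256 + 1 / 10 ^ 7) * μ * (X * ℓ) * (J / n) + 2 / 10 ^ 7 * μ * ℓ * J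
        ≤ 2 * (256 + 1 / 10 ^ 7) * μ * (16 * L0 * ℓ) * (1 / 65536) +
          2 / 10 ^ 7 * μ * ℓ * (L0 / 16384) := add_le_add e2 e3
      _ = (2 * (256 + 1 / 10 ^ 7) * 16 / 65536 + 2 / 10 ^ 7 / 16384) * (μ * L0 * ℓ) := by ring
      _ ≤ (1 / 4) * (μ * L0 * ℓ) := by gcongr; norm_num
      _ = μ * L0 * ℓ / 4 := by ring
  have t5 : (L0 : ℝ) * (1 - 1 / 16384) ≤ (I * J : ℕ) := by
    push_cast
    linarith
  have t6 : (L0 : ℝ) * (1 - 1 / 16384) * (μ * ℓ) ≤ (I * J : ℕ) * (μ * ℓ) := by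
    gcongr
  calc 2 * (12 * D * (Real.log ((n * I : ℕ) : ℝ) + ((n * I : ℕ) : ℝ) * Real.log 2) +
        I * ((2 * k * (4 * μ) + (1 + D) * ε) * (n : ℝ) * ℓ) +
        J * (64 * (4 * μ) * ((X * ℓ) / (n : ℝ)) + (1 + D) * ε * ((X * ℓ) / (n : ℝ) + ℓ)))
      = 24 * D * (Real.log ((n * I : ℕ) : ℝ) + ((n * I : ℕ) : ℝ) * Real.log 2) +
        2 * (I * ((2 * k * (4 * μ) + (1 + D) * ε) * (n : ℝ) * ℓ)) +
        2 * (J * (64 * (4 * μ) * ((X * ℓ) / (n : ℝ)) +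
          (1 + D) * ε * ((X * ℓ) / (n : ℝ) + ℓ))) := by ring
    _ ≤ μ * ℓ * L0 / 8 + μ * L0 * ℓ / 10 + μ * L0 * ℓ / 4 := by linarith
    _ < (L0 : ℝ) * (1 - 1 / 16384) * (μ * ℓ) := by nlinarith
    _ ≤ _ := t6

theorem par_existsU (d : ℕ) (hd : 1 ≤ d) :
    ∃ ℓ0 C0 : ℝ, 1 ≤ ℓ0 ∧ 1 ≤ C0 ∧ ∀ ℓ Q : ℝ, ℓ0 ≤ ℓ → C0 * ℓ ≤ Q →
      (∀ h : ℕ, 1 ≤ h → h ≤ HU → ∃ I J : ℕ, ParU d ℓ Q (NNK ℓ Q / h) I J (LU ℓ Q)) ∧
      2 * HU ≤ NNK ℓ Q ∧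
      4 * (16 * (Q / ℓ)) * (HU : ℝ) ^ 2 ≤ kU * (NNK ℓ Q : ℝ) ^ 2 ∧
      1 ≤ LU ℓ Q ∧ (LU ℓ Q : ℝ) * ℓ ≤ Q / 8 := by
  have hdR : (1 : ℝ) ≤ d := by exact_mod_cast hd
  have hd0 : (0 : ℝ) < d := by linarith
  have hμ : 0 < muU d := by unfold muU; positivity
  have hε : 0 < epU d := by unfold epU; positivity
  refine ⟨82 * d * 65536 * 8 / muU d + 2, 8 * d + 10 ^ 30, ?_, ?_, ?_⟩
  · have : 0 ≤ 82 * (d : ℝ) * 65536 * 8 / muU d := by positivity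
    linarith
  · linarith [show (1 : ℝ) ≤ 10 ^ 30 by norm_num]
  intro ℓ Q hℓ0 hQ
  have hpos : 0 ≤ 82 * (d : ℝ) * 65536 * 8 / muU d := by positivity
  have hℓ1 : 1 ≤ ℓ := by linarith
  have hℓ : 0 < ℓ := by linarith
  set X : ℝ := Q / ℓ with hX
  have hXC : 8 * (d : ℝ) + 10 ^ 30 ≤ X := by
    rw [hX, le_div_iff₀ hℓ]; exact hQ
  have hX8 : 8 * (d : ℝ) ≤ X := by linarith [show (0 : ℝ) ≤ 10 ^ 30 by norm_num]
  have hXb : (10 : ℝ) ^ 30 ≤ X := by linarith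
  have hX0 : 0 < X := by linarith
  have hQX : Q = X * ℓ := by rw [hX]; field_simp
  have hNle : (NNK ℓ Q : ℝ) ≤ X / 4 := Nat.floor_le (by positivity)
  have hNlt : X / 4 < NNK ℓ Q + 1 := Nat.lt_floor_add_one _
  have hN8 : X / 8 ≤ NNK ℓ Q := by
    have : (8 : ℝ) ≤ X := le_trans (by norm_num) hXb
    linarith
  have hLle : (LU ℓ Q : ℝ) ≤ X / 8 := Nat.floor_le (by positivity)
  have hLlt : X / 8 < LU ℓ Q + 1 := Nat.lt_floor_add_one _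
  have hL16 : X / 16 ≤ LU ℓ Q := by
    have : (16 : ℝ) ≤ X := le_trans (by norm_num) hXb
    linarith
  have hHU : (HU : ℝ) = 60000000 := by
    unfold HU; norm_num
  have hN2 : 2 * HU ≤ NNK ℓ Q := by
    have : (2 : ℝ) * HU ≤ NNK ℓ Q := by
      rw [hHU]
      have : (8 * 120000000 : ℝ) ≤ X := le_trans (by norm_num) hXb
      linarith
    exact_mod_cast this
  have hN3 : 18 * 65536 * HU ≤ NNK ℓ Q := by
    have : (18 : ℝ) * 65536 * HU ≤ NNK ℓ Q := by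
      rw [hHU]
      have : (8 * (18 * 65536 * 60000000) : ℝ) ≤ X := le_trans (by norm_num) hXb
      linarith
    exact_mod_cast this
  have hQ0 : 0 < Q := by rw [hQX]; positivity
  have hμd : muU d * d ≤ 1 := by
    unfold muU
    rw [div_mul_eq_mul_div, div_le_one (by positivity)]
    nlinarith
  refine ⟨?_, hN2, ?_, ?_, ?_⟩
  · intro h h1 hhK
    have hℓ2 : 82 * (d : ℝ) * 65536 < muU d * ℓ / 8 := by
      have e1 : 82 * (d : ℝ) * 65536 * 8 / muU d < ℓ := by linarith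
      rw [div_lt_iff₀ hμ] at e1
      linarith
    obtain ⟨I, J, hJ8, hJn, hI2, hIJ, hkey⟩ := par_coreU d (muU d) (epU d) kU ℓ X HU (NNK ℓ Q)
      (LU ℓ Q) h hdR hμ rfl (by unfold epU; field_simp; ring) hε hℓ hℓ2 hNle hN2 hN3 hL16 hX0
      h1 hhK
    refine ⟨I, J, hd, hℓ1, ?_, hJ8, hJn, hI2, hIJ, ?_, ?_⟩
    · rw [hQX]
      nlinarith
    · have e1 : (LU ℓ Q : ℝ) * (muU d * ℓ) ≤ X / 8 * (muU d * ℓ) := by gcongr
      have e2 : X / 8 * (muU d * ℓ) = muU d * (Q / 8) := by rw [hQX]; ring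
      rw [le_div_iff₀ (by positivity)]
      calc (LU ℓ Q : ℝ) * (muU d * ℓ) * (8 * d) ≤ muU d * (Q / 8) * (8 * d) := by
            rw [← e2]; gcongr
        _ = (muU d * d) * Q := by ring
        _ ≤ 1 * Q := by gcongr
        _ = Q := one_mul _
    · rw [← hQX] at hkey
      exact hkey
  · rw [hHU]
    unfold kU
    have h2 : (4 * 16 * 60000000 ^ 2 * 30000000 * 64 : ℝ) ≤ X := le_trans (by norm_num) hXb
    calc 4 * (16 * X) * (60000000 : ℝ) ^ 2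
        = (4 * 16 * 60000000 ^ 2 * 30000000 * 64) * X / (30000000 * 64) := by ring
      _ ≤ X * X / (30000000 * 64) := by gcongr
      _ = 1 / 30000000 * (X / 8) ^ 2 := by ring
      _ ≤ 1 / 30000000 * (NNK ℓ Q : ℝ) ^ 2 := by gcongr
  · have : (1 : ℝ) ≤ LU ℓ Q := by
      have : (16 : ℝ) ≤ X := le_trans (by norm_num) hXb
      linarith
    exact_mod_cast this
  · calc (LU ℓ Q : ℝ) * ℓ ≤ (X / 8) * ℓ := by gcongr
      _ = Q / 8 := by rw [hQX]; ring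

end AbcOrdH
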