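import Pool.Agent.Work.MP_a793bb_nt.OrdH.DefsH
import Pool.Agent.Work.MP_a793bb_nt.RadK.SideTypeK

/-!
# Selection of a set of primes and of an ideal of given size

Proofs. `select_set`: let `U ⊆ A` be a subset with `lsum U ≤ ν ℓ` of maximal cardinality
(or of maximal `lsum`). If `lsum U < (ν - θ) ℓ` then `U ≠ A`, and adding an element `p` of `A` not in
`U` (`lN p ≤ θ ℓ`) gives a larger one. `side_typeU`: as case 2 of `side_typeK` (`RadK/SideTypeK.lean`), with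
`W = ∏ p ^ (kp p y / L0)` over all `p ∈ Zp y`: `L0 log N(W) + L0 ℓ ≥ LP y univ ≥ Q / 2 ≥ 4 L0 ℓ`, so
`log N(W) ≥ 3 ℓ ≥ μ ℓ`, and a divisor `M` of `W` of minimal norm with `log N(M) ≥ μ ℓ` has
`log N(M) ≤ (μ + θ) ℓ` (remove one prime, `lN q ≤ θ ℓ`).
-/

set_option autoImplicit false

namespace AbcOrdH

open Finset AbcRad AbcRadK Pool.Agent.Work.MP_a793bb_nt Pool.Agent.Work.MP_a793bb_nt.BPlus
  NumberField IsDedekindDomain Height

variable {K : Type*} [Field K] [NumberField K]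

open Classical in
theorem select_set (θ ν ℓ : ℝ) (A : Finset (HeightOneSpectrum (𝓞 K))) (hν : 0 ≤ ν * ℓ)
    (hθ : ∀ p ∈ A, lN p ≤ θ * ℓ) (hA : (ν - θ) * ℓ ≤ lsum A) :
    ∃ U ⊆ A, (ν - θ) * ℓ ≤ lsum U ∧ lsum U ≤ ν * ℓ := by
  have hne : (A.powerset.filter (fun U => lsum U ≤ ν * ℓ)).Nonempty := by
    refine ⟨∅, ?_⟩
    rw [Finset.mem_filter]
    refine ⟨Finset.empty_mem_powerset _, ?_⟩
    simpa [lsum] using hν
  obtain ⟨U, hU, hmax⟩ := Finset.exists_max_image _ (fun U : Finset (HeightOneSpectrum (𝓞 K)) => U.card) hne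
  rw [Finset.mem_filter, Finset.mem_powerset] at hU
  refine ⟨U, hU.1, ?_, hU.2⟩
  by_contra hlt
  rw [not_le] at hlt
  have hUA : U ≠ A := by
    rintro rfl
    linarith
  obtain ⟨p, hpA, hpU⟩ : ∃ p ∈ A, p ∉ U := by
    by_contra hcon
    push Not at hcon
    exact hUA (Finset.Subset.antisymm hU.1 hcon)
  have h1 : lsum (insert p U) = lN p + lsum U := by
    unfold lsum
    rw [Finset.sum_insert hpU]
  have h2 := hθ p hpA
  have h3 : insert p U ∈ A.powerset.filter (fun U => lsum U ≤ ν * ℓ) := by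
    rw [Finset.mem_filter, Finset.mem_powerset, h1]
    refine ⟨Finset.insert_subset hpA hU.1, ?_⟩
    have : (ν - θ) * ℓ = ν * ℓ - θ * ℓ := by ring
    linarith
  have h4 := hmax _ h3
  rw [Finset.card_insert_of_notMem hpU] at h4
  omega

open Classical in
theorem side_typeU (θ μ ℓ Q : ℝ) (hμ : 0 < μ) (hμ1 : μ ≤ 1) (hℓ : 1 ≤ ℓ)
    (hQ : 0 < Q) (L0 : ℕ) (hL0 : 1 ≤ L0) (hL : (L0 : ℝ) * ℓ ≤ Q / 8) (y : K) (hy : y ≠ 0)
    (hyQ : Q / 2 ≤ LP y Set.univ) (hr : Rs (Zp y) ≤ ℓ) (hs : ∀ p ∈ Zp y, lN p ≤ θ * ℓ) :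
    ∃ M : Ideal (𝓞 K), M ≠ ⊥ ∧
      (∀ p : HeightOneSpectrum (𝓞 K), p.asIdeal ∣ M → ((ex M p * L0 : ℕ) : ℤ) ≤ kp p y) ∧
      μ * ℓ ≤ Real.log (Ideal.absNorm M) ∧ Real.log (Ideal.absNorm M) ≤ (μ + θ) * ℓ := by
  have hℓ0 : 0 < ℓ := by linarith
  have hδℓ : 0 < μ * ℓ := by positivity
  set Z := (finite_Zp hy).toFinset with hZ
  have hZmem : ∀ p, p ∈ Z ↔ p ∈ Zp y := fun p => by rw [hZ]; exact Set.Finite.mem_toFinset _
  have hkp : ∀ p ∈ Z, 0 < kp p y := fun p hp =>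
    (av_lt_one_iff_kp p hy).mp ((hZmem p).1 hp)
  set A := Z with hA
  set w : HeightOneSpectrum (𝓞 K) → ℕ := fun p => (kp p y).toNat / L0 with hw
  set W : Ideal (𝓞 K) := ∏ p ∈ A, p.asIdeal ^ w p with hW
  have hW0 : W ≠ ⊥ := by
    rw [hW, ← Ideal.zero_eq_bot, Finset.prod_ne_zero_iff]
    intro p _
    exact pow_ne_zero _ p.ne_bot
  have hexW : ∀ p, ex W p = if p ∈ A then w p else 0 := fun p => ex_prod A w p
  have hlogW : Real.log (Ideal.absNorm W) = ∑ p ∈ A, (w p : ℝ) * lN p := by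
    rw [hW, map_prod]
    push_cast
    rw [Real.log_prod]
    · refine Finset.sum_congr rfl fun p _ => ?_
      rw [map_pow]
      push_cast
      rw [Real.log_pow, log_absNorm_prime]
    · intro p _
      have := absNorm_pos' (pow_ne_zero (w p) p.ne_bot : p.asIdeal ^ w p ≠ ⊥)
      positivity
  have hL0R : (0 : ℝ) < L0 := by exact_mod_cast hL0
  have hRs : ∑ p ∈ Z, lN p ≤ ℓ := by
    rw [Rs, finsum_mem_eq_finite_toFinset_sum _ (finite_Zp hy)] at hr
    exact hr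
  have hsum : Q / 2 ≤ L0 * Real.log (Ideal.absNorm W) + L0 * ℓ := by
    calc Q / 2 ≤ LP y Set.univ := hyQ
      _ = ∑ p ∈ Z, (kp p y : ℝ) * lN p := LP_univ_eq hy
      _ ≤ ∑ p ∈ Z, (L0 * ((w p : ℝ) * lN p) + L0 * lN p) := by
          refine Finset.sum_le_sum fun p hp => ?_
          have h0 := lN_nonneg' p
          have hk := hkp p hp
          have h1 : (kp p y : ℝ) ≤ L0 * (w p : ℝ) + L0 := by
            have h3 := Nat.lt_mul_div_succ (kp p y).toNat (show 0 < L0 from hL0)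
            have h2 : (kp p y).toNat ≤ L0 * (w p + 1) := h3.le
            have h4 : (((kp p y).toNat : ℕ) : ℝ) ≤ L0 * ((w p : ℝ) + 1) := by
              exact_mod_cast h2
            have h5 : (((kp p y).toNat : ℕ) : ℝ) = (kp p y : ℝ) := by
              have h6 : (((kp p y).toNat : ℕ) : ℤ) = kp p y := Int.toNat_of_nonneg hk.le
              exact_mod_cast h6
            rw [h5] at h4
            linarith
          calc (kp p y : ℝ) * lN p ≤ (L0 * (w p : ℝ) + L0) * lN p := by gcongr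
            _ = _ := by ring
      _ = L0 * Real.log (Ideal.absNorm W) + L0 * ∑ p ∈ Z, lN p := by
          rw [Finset.sum_add_distrib, ← Finset.mul_sum, ← Finset.mul_sum, hlogW]
      _ ≤ L0 * Real.log (Ideal.absNorm W) + L0 * ℓ := by gcongr
  have hWl : μ * ℓ ≤ Real.log (Ideal.absNorm W) := by
    have h6 : 0 < L0 * ℓ := by positivity
    have h3 : L0 * (μ * ℓ) ≤ L0 * Real.log (Ideal.absNorm W) := by
      have h4 : L0 * (μ * ℓ) ≤ L0 * ℓ := by
        have : μ * ℓ ≤ ℓ := by nlinarith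
        gcongr
      linarith
    exact le_of_mul_le_mul_left h3 hL0R
  -- a divisor of minimal norm
  have hex : ∃ n : ℕ, ∃ M : Ideal (𝓞 K), M ∣ W ∧ Ideal.absNorm M = n ∧
      μ * ℓ ≤ Real.log (Ideal.absNorm M) := ⟨_, W, dvd_rfl, rfl, hWl⟩
  obtain ⟨M, hMW, hMn, hMl⟩ := Nat.find_spec hex
  have hmin : ∀ M' : Ideal (𝓞 K), M' ∣ W → Ideal.absNorm M' < Ideal.absNorm M →
      Real.log (Ideal.absNorm M') < μ * ℓ := by
    intro M' h1 h2
    by_contra h3
    rw [hMn] at h2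
    exact Nat.find_min hex h2 ⟨M', h1, rfl, not_lt.1 h3⟩
  have hM0 : M ≠ ⊥ := by
    rintro rfl
    exact hW0 (by rw [← Ideal.zero_eq_bot] at hMW ⊢; exact zero_dvd_iff.1 hMW)
  have hdivA : ∀ p : HeightOneSpectrum (𝓞 K), p.asIdeal ∣ M → p ∈ A := by
    intro p hp
    by_contra hcon
    have h1 := (dvd_iff_ex hW0 p).1 (hp.trans hMW)
    rw [hexW, if_neg hcon] at h1
    exact h1 rfl
  refine ⟨M, hM0, ?_, hMl, ?_⟩
  · intro p hp
    have hpA := hdivA p hp
    have hpZ : p ∈ Z := hpA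
    have h1 : ex M p ≤ ex W p :=
      (pow_ex_dvd p hW0).1 (((pow_ex_dvd p hM0).2 le_rfl).trans hMW)
    rw [hexW, if_pos hpA] at h1
    have h2 : ex M p * L0 ≤ (kp p y).toNat :=
      le_trans (Nat.mul_le_mul_right _ h1) (Nat.div_mul_le_self _ _)
    have h3 : (((kp p y).toNat : ℕ) : ℤ) = kp p y := Int.toNat_of_nonneg (hkp p hpZ).le
    rw [← h3]
    exact_mod_cast h2
  · have hMne : M ≠ ⊤ := by
      rintro rfl
      rw [Ideal.absNorm_top] at hMl
      norm_num at hMl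
      linarith
    obtain ⟨P, hPmax, hPM⟩ := Ideal.exists_le_maximal M hMne
    have hPne : P ≠ ⊥ := by
      rintro rfl
      exact hM0 (le_bot_iff.1 hPM)
    set p : HeightOneSpectrum (𝓞 K) := ⟨P, hPmax.isPrime, hPne⟩ with hp
    have hpM : p.asIdeal ∣ M := Ideal.dvd_iff_le.2 hPM
    obtain ⟨M', hM'⟩ := hpM
    have hM'0 : M' ≠ ⊥ := by
      rintro rfl
      apply hM0
      rw [hM', Ideal.mul_bot]
    have hnorm : Ideal.absNorm M = Ideal.absNorm p.asIdeal * Ideal.absNorm M' := by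
      rw [hM', map_mul]
    have hNp2 : 2 ≤ Ideal.absNorm p.asIdeal := by
      have := two_le_Np p
      have h3 : (2 : ℝ) ≤ (Ideal.absNorm p.asIdeal : ℝ) := this
      exact_mod_cast h3
    have hM'pos := absNorm_pos' hM'0
    have hlt : Ideal.absNorm M' < Ideal.absNorm M := by
      rw [hnorm]; nlinarith
    have h1 := hmin M' ((Dvd.intro_left _ hM'.symm).trans hMW) hlt
    have h2 : lN p ≤ θ * ℓ := hs p ((hZmem p).1 (hdivA p (Dvd.intro _ hM'.symm)))
    have h3 : Real.log (Ideal.absNorm M) = lN p + Real.log (Ideal.absNorm M') := by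
      rw [hnorm]
      push_cast
      rw [Real.log_mul (by positivity) (by positivity), log_absNorm_prime]
    rw [h3]
    have h5 : (μ + θ) * ℓ = μ * ℓ + θ * ℓ := by ring
    linarith

end AbcOrdH
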