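import Pool.Agent.Work.MP_a793bb_nt.OrdH.ParExH
import Pool.Agent.Work.MP_a793bb_nt.OrdH.ParExU
import Pool.Agent.Work.MP_a793bb_nt.OrdH.CountPH
import Pool.Agent.Work.MP_a793bb_nt.OrdH.CountRH
import Pool.Agent.Work.MP_a793bb_nt.OrdH.CountUF
import Pool.Agent.Work.MP_a793bb_nt.OrdH.CountUI
import Pool.Agent.Work.MP_a793bb_nt.OrdH.CoverH
import Pool.Agent.Work.MP_a793bb_nt.OrdH.CoverU
import Pool.Agent.Work.MP_a793bb_nt.RadK.WindowK

/-!
# The number of solutions in a window, with a power saving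

Proof. As `window_countK` (`RadK/WindowK.lean`; the private lemmas `wsetK_finite`, `card_side` may be copied).
`δ = thU d / 140 ≤ 1 / 10`, `d = finrank`, so `140 δ = thU d`. The window is covered by the sets of the `t` which satisfy
one of the conditions in `coverH` (`KKH d δ * 3 * (1 + r)` sets, `r` the number of infinite places) or
`coverU` (`HU * (1 + r)` sets). By `count_PH` and `count_RH` with `κ = kapH d δ`, `w = wH d δ`, `Y = (2 / 3 - 4 δ) ℓ`, `η = δ / 2`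
the former have at most `C exp ((2 / 3 - δ / 4) ℓ)` elements (`(1 + δ / 2) (2 / 3 - 4 δ) + 2.9 δ ≤ 2 / 3 - δ / 4`), the latter
at most `C exp ((2 / 3 - μ) ℓ)`, `μ = muU d ≥ δ / 4`.
-/

set_option autoImplicit false

namespace AbcOrdH

open Finset AbcRad AbcRadK Pool.Agent.Work.MP_a793bb_nt Pool.Agent.Work.MP_a793bb_nt.BPlus
  NumberField IsDedekindDomain Height

variable {K : Type*} [Field K] [NumberField K]

private lemma wsetK_finite (ℓ Q : ℝ) : (wsetK K ℓ Q).Finite := by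
  refine (NumberField.finite_setOfPred_mulHeight₁_le K (Real.exp (2 * Q))).subset ?_
  rintro t ⟨-, -, -, -, h⟩
  have h1 : logHeight₁ t ≤ 2 * Q := (logHeight₁_le_triple t).trans h
  have h2 : 0 < mulHeight₁ t := mulHeight₁_pos t
  exact (Real.log_le_iff_le_exp h2).mp h1

private lemma card_side (j : Fin 3) (W : Finset K) (hW : ∀ t ∈ W, t ≠ 1) (P : K → Prop)
    (B : ℝ) (hB : ∀ F : Finset K, (∀ u ∈ F, P u) → (F.card : ℝ) ≤ B)
    (S : Finset K) (hS : S ⊆ W) (hSP : ∀ t ∈ S, P (-sOf j t)) : (S.card : ℝ) ≤ B := by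
  classical
  have hinj : Set.InjOn (fun t : K => -sOf j t) (S : Set K) := by
    intro t ht t' ht' h
    exact sOf_injective j (hW t (hS ht)) (hW t' (hS ht')) (neg_injective h)
  rw [← Finset.card_image_of_injOn hinj]
  refine hB _ ?_
  intro u hu
  rw [Finset.mem_image] at hu
  obtain ⟨t, ht, rfl⟩ := hu
  exact hSP t ht

/-- counting a union over `h`, over the sides and over the places -/
private lemma card_union_hjv {ι : Type*} [DecidableEq K] (H : ℕ) (T : Finset ι)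
    (r : ℕ) (hr : r = Fintype.card (InfinitePlace K))
    (PP : ℕ → ι → Finset K) (RR : ℕ → ι → InfinitePlace K → Finset K) (B : ℝ)
    (hP : ∀ h ∈ Finset.Icc 1 H, ∀ j ∈ T, ((PP h j).card : ℝ) ≤ B)
    (hR : ∀ h ∈ Finset.Icc 1 H, ∀ j ∈ T, ∀ v, ((RR h j v).card : ℝ) ≤ B) :
    ((((Finset.Icc 1 H).biUnion (fun h => T.biUnion (fun j => PP h j ∪
      (Finset.univ : Finset (InfinitePlace K)).biUnion (fun v => RR h j v)))).card : ℕ) : ℝ) ≤
      H * (T.card * ((1 + r) * B)) := by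
  classical
  have hcell : ∀ h ∈ Finset.Icc 1 H, ∀ j ∈ T,
      (((PP h j ∪ (Finset.univ : Finset (InfinitePlace K)).biUnion (fun v => RR h j v)).card : ℕ) :
        ℝ) ≤ (1 + r) * B := by
    intro h hh j hj
    have e3 : ((((Finset.univ : Finset (InfinitePlace K)).biUnion (fun v => RR h j v)).card : ℕ) :
        ℝ) ≤ r * B := by
      have h1 := Finset.card_biUnion_le (s := (Finset.univ : Finset (InfinitePlace K)))
        (t := fun v => RR h j v)
      refine (Nat.cast_le (α := ℝ).mpr h1).trans ?_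
      push_cast
      refine (Finset.sum_le_sum (fun v _ => hR h hh j hj v)).trans ?_
      rw [Finset.sum_const, Finset.card_univ, nsmul_eq_mul, hr]
    have e4 := Finset.card_union_le (PP h j)
      ((Finset.univ : Finset (InfinitePlace K)).biUnion (fun v => RR h j v))
    rw [← Nat.cast_le (α := ℝ)] at e4
    push_cast at e4
    have e1 := hP h hh j hj
    linarith
  refine (Nat.cast_le (α := ℝ).mpr Finset.card_biUnion_le).trans ?_
  rw [Nat.cast_sum]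
  have h2 : ∀ h ∈ Finset.Icc 1 H, (((T.biUnion (fun j => PP h j ∪
      (Finset.univ : Finset (InfinitePlace K)).biUnion (fun v => RR h j v))).card : ℕ) : ℝ) ≤
      T.card * ((1 + r) * B) := by
    intro h hh
    refine (Nat.cast_le (α := ℝ).mpr Finset.card_biUnion_le).trans ?_
    rw [Nat.cast_sum]
    refine (Finset.sum_le_sum (fun j hj => hcell h hh j hj)).trans (le_of_eq ?_)
    rw [Finset.sum_const, nsmul_eq_mul]
  refine (Finset.sum_le_sum h2).trans (le_of_eq ?_)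
  rw [Finset.sum_const, nsmul_eq_mul, Nat.card_Icc, Nat.add_sub_cancel]

private lemma KKH_pos (d : ℕ) (hd : 1 ≤ d) (δ : ℝ) (hδ : 0 < δ) : 1 ≤ KKH d δ ∧ 0 < kapH d δ := by
  have hdR : (1 : ℝ) ≤ d := by exact_mod_cast hd
  have hk : 0 < kapH d δ := by
    unfold kapH
    positivity
  refine ⟨?_, hk⟩
  unfold KKH
  apply Nat.one_le_pow
  rw [Nat.ceil_pos]
  positivity

theorem window_countH (K : Type*) [Field K] [NumberField K] :
    ∃ δ ℓ0 C0 C : ℝ, 0 < δ ∧ 1 ≤ ℓ0 ∧ 1 ≤ C0 ∧ 0 ≤ C ∧ ∀ ℓ Q : ℝ, ℓ0 ≤ ℓ → C0 * ℓ ≤ Q →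
      (wsetK K ℓ Q).Finite ∧
        ((wsetK K ℓ Q).ncard : ℝ) ≤ C * Real.exp ((2 / 3 - δ) * ℓ) := by
  classical
  have hd : 1 ≤ Module.finrank ℚ K := Module.finrank_pos
  have hdR : (1 : ℝ) ≤ (Module.finrank ℚ K : ℝ) := by exact_mod_cast hd
  obtain ⟨δ, hδd⟩ : ∃ δ : ℝ, δ = thU (Module.finrank ℚ K) / 140 := ⟨_, rfl⟩
  have hmu : muU (Module.finrank ℚ K) = 14000 * δ := by
    rw [hδd, thU]
    ring
  have hmu0 : 0 < muU (Module.finrank ℚ K) := by
    unfold muU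
    positivity
  have hmu1 : muU (Module.finrank ℚ K) ≤ 1 := by
    unfold muU
    rw [div_le_one (by positivity)]
    nlinarith
  have hδ : 0 < δ := by linarith
  have hδ1 : δ ≤ 1 / 10 := by linarith
  have h140 : 140 * δ = thU (Module.finrank ℚ K) := by
    rw [hδd]
    ring
  obtain ⟨hK1, hkap⟩ := KKH_pos (Module.finrank ℚ K) hd δ hδ
  obtain ⟨ℓ1, D1, hℓ1, hD1, hpar1⟩ := par_existsH (Module.finrank ℚ K) hd δ hδ hδ1
  obtain ⟨ℓ2, D2, hℓ2, hD2, hpar2⟩ := par_existsU (Module.finrank ℚ K) hd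
  obtain ⟨CP, hCP1, hCP⟩ := count_PH K δ hδ hδ1 (kapH (Module.finrank ℚ K) δ) hkap
    (wH (Module.finrank ℚ K) δ) (δ / 2) (by positivity)
  obtain ⟨CR, hCR1, hCR⟩ := count_RH K δ hδ hδ1 (kapH (Module.finrank ℚ K) δ) hkap (δ / 2)
    (by positivity)
  obtain ⟨CF, hCF1, hCF⟩ := count_UF K
  obtain ⟨CI, hCI1, hCI⟩ := count_UI K
  obtain ⟨r, hr⟩ : ∃ r : ℕ, r = Fintype.card (InfinitePlace K) := ⟨_, rfl⟩
  obtain ⟨C, hC⟩ : ∃ C : ℝ, C = max (max CP CR) (max CF CI) := ⟨_, rfl⟩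
  have hCPC : CP ≤ C := by
    rw [hC]
    exact (le_max_left _ _).trans (le_max_left _ _)
  have hCRC : CR ≤ C := by
    rw [hC]
    exact (le_max_right _ _).trans (le_max_left _ _)
  have hCFC : CF ≤ C := by
    rw [hC]
    exact (le_max_left _ _).trans (le_max_right _ _)
  have hCIC : CI ≤ C := by
    rw [hC]
    exact (le_max_right _ _).trans (le_max_right _ _)
  have hC0 : 0 ≤ C := by linarith
  refine ⟨δ / 4, max ℓ1 ℓ2, max D1 D2,
    (KKH (Module.finrank ℚ K) δ : ℝ) * (3 * ((1 + r) * C)) + (HU : ℝ) * (1 * ((1 + r) * C)),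
    by positivity, hℓ1.trans (le_max_left _ _), hD1.trans (le_max_left _ _), by positivity, ?_⟩
  intro ℓ Q hℓ hQ
  have hℓℓ1 : ℓ1 ≤ ℓ := (le_max_left _ _).trans hℓ
  have hℓℓ2 : ℓ2 ≤ ℓ := (le_max_right _ _).trans hℓ
  have hℓ0 : 1 ≤ ℓ := hℓ1.trans hℓℓ1
  have hQ1 : D1 * ℓ ≤ Q := (mul_le_mul_of_nonneg_right (le_max_left _ _) (by linarith)).trans hQ
  have hQ2 : D2 * ℓ ≤ Q := (mul_le_mul_of_nonneg_right (le_max_right _ _) (by linarith)).trans hQ
  obtain ⟨hPar, hN, hNE, hL, hL2⟩ := hpar1 ℓ Q hℓℓ1 hQ1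
  obtain ⟨hParU, hNU, hNEU, hLU, hLU2⟩ := hpar2 ℓ Q hℓℓ2 hQ2
  have hQ8 : 8 * (Module.finrank ℚ K : ℝ) ≤ Q := by
    obtain ⟨I, J, hP⟩ := hPar 1 le_rfl hK1
    exact hP.hQ
  have hfin := wsetK_finite (K := K) ℓ Q
  refine ⟨hfin, ?_⟩
  rw [Set.ncard_eq_toFinset_card _ hfin]
  obtain ⟨W, hWdef⟩ : ∃ W : Finset K, W = hfin.toFinset := ⟨_, rfl⟩
  rw [← hWdef]
  have hW : ∀ p, p ∈ W ↔ p ∈ wsetK K ℓ Q := by
    intro p
    rw [hWdef, Set.Finite.mem_toFinset]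
  have hW1 : ∀ t ∈ W, t ≠ 1 := fun t ht => ((hW t).mp ht).2.1
  obtain ⟨B, hB⟩ : ∃ B : ℝ, B = Real.exp ((2 / 3 - δ / 4) * ℓ) := ⟨_, rfl⟩
  have hB0 : 0 ≤ B := by
    rw [hB]
    exact (Real.exp_pos _).le
  have hδℓ : 0 < δ * ℓ := by positivity
  have hY0 : 0 ≤ (2 / 3 - 4 * δ) * ℓ := mul_nonneg (by linarith) (by linarith)
  have hBP : Real.exp ((1 + δ / 2) * ((2 / 3 - 4 * δ) * ℓ)) ≤ B := by
    rw [hB, Real.exp_le_exp]
    nlinarith [mul_pos hδ hδℓ]
  have hBR : Real.exp ((1 + δ / 2) * ((2 / 3 - 4 * δ) * ℓ) + 29 / 10 * δ * ℓ) ≤ B := by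
    rw [hB, Real.exp_le_exp]
    nlinarith [mul_pos hδ hδℓ]
  have hBU : Real.exp ((2 / 3 - muU (Module.finrank ℚ K)) * ℓ) ≤ B := by
    rw [hB, Real.exp_le_exp, hmu]
    nlinarith
  obtain ⟨PP, hPP⟩ : ∃ PP : ℕ → Fin 3 → Finset K, ∀ h j, PP h j = W.filter (fun t =>
      PCapW δ (kapH (Module.finrank ℚ K) δ) ℓ Q ((2 / 3 - 4 * δ) * ℓ) (NNK ℓ Q / h)
        (LLK (Module.finrank ℚ K) δ ℓ Q) (-sOf j t)) := ⟨_, fun _ _ => rfl⟩
  obtain ⟨RR, hRR⟩ : ∃ RR : ℕ → Fin 3 → InfinitePlace K → Finset K, ∀ h j v,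
      RR h j v = W.filter (fun t => RCapK δ (kapH (Module.finrank ℚ K) δ) ℓ Q
        ((2 / 3 - 4 * δ) * ℓ) (NNK ℓ Q / h) v (-sOf j t)) := ⟨_, fun _ _ _ => rfl⟩
  obtain ⟨FF, hFF⟩ : ∃ FF : ℕ → Unit → Finset K, ∀ h j, FF h j = W.filter (fun t =>
      FCap ℓ Q (NNK ℓ Q / h) (LU ℓ Q) (-sOf 0 t)) := ⟨_, fun _ _ => rfl⟩
  obtain ⟨II, hII⟩ : ∃ II : ℕ → Unit → InfinitePlace K → Finset K, ∀ h j v,
      II h j v = W.filter (fun t => ICap ℓ Q (NNK ℓ Q / h) v (-sOf 0 t)) := ⟨_, fun _ _ _ => rfl⟩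
  have hcov : W ⊆ (Finset.Icc 1 (KKH (Module.finrank ℚ K) δ)).biUnion (fun h =>
      (Finset.univ : Finset (Fin 3)).biUnion (fun j => PP h j ∪
          (Finset.univ : Finset (InfinitePlace K)).biUnion (fun v => RR h j v))) ∪
      (Finset.Icc 1 HU).biUnion (fun h =>
      ({()} : Finset Unit).biUnion (fun j => FF h j ∪
          (Finset.univ : Finset (InfinitePlace K)).biUnion (fun v => II h j v))) := by
    intro t ht
    rw [Finset.mem_union]
    rcases coverH δ ℓ Q hδ hδ1 hℓ0 hQ8 hN hNE hL hL2 t ((hW t).mp ht) with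
      hun | ⟨h, hh1, hh2, j, hc⟩
    · right
      rw [h140] at hun
      obtain ⟨h, hh1, hh2, hc⟩ := coverU ℓ Q hℓ0 hQ8 hNU hNEU hLU hLU2 t ((hW t).mp ht) hun
      rw [Finset.mem_biUnion]
      refine ⟨h, Finset.mem_Icc.mpr ⟨hh1, hh2⟩, ?_⟩
      rw [Finset.mem_biUnion]
      refine ⟨(), Finset.mem_singleton_self _, ?_⟩
      rw [Finset.mem_union]
      rcases hc with hc | ⟨v, hc⟩
      · left
        rw [hFF]
        exact Finset.mem_filter.mpr ⟨ht, hc⟩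
      · right
        rw [Finset.mem_biUnion]
        refine ⟨v, Finset.mem_univ _, ?_⟩
        rw [hII]
        exact Finset.mem_filter.mpr ⟨ht, hc⟩
    · left
      rw [Finset.mem_biUnion]
      refine ⟨h, Finset.mem_Icc.mpr ⟨hh1, hh2⟩, ?_⟩
      rw [Finset.mem_biUnion]
      refine ⟨j, Finset.mem_univ _, ?_⟩
      rw [Finset.mem_union]
      rcases hc with hc | ⟨v, hc⟩
      · left
        rw [hPP]
        exact Finset.mem_filter.mpr ⟨ht, hc⟩
      · right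
        rw [Finset.mem_biUnion]
        refine ⟨v, Finset.mem_univ _, ?_⟩
        rw [hRR]
        exact Finset.mem_filter.mpr ⟨ht, hc⟩
  have hPPc : ∀ h ∈ Finset.Icc 1 (KKH (Module.finrank ℚ K) δ), ∀ j ∈ (Finset.univ : Finset (Fin 3)),
      ((PP h j).card : ℝ) ≤ C * B := by
    intro h hh j _
    rw [Finset.mem_Icc] at hh
    obtain ⟨I, J, hP⟩ := hPar h hh.1 hh.2
    rw [hPP]
    refine (card_side j W hW1 _ _ (hCP ℓ Q _ _ I J _ hY0 hP) _ (Finset.filter_subset _ _)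
      (fun t ht => (Finset.mem_filter.mp ht).2)).trans ?_
    exact mul_le_mul hCPC hBP (Real.exp_pos _).le hC0
  have hRRc : ∀ h ∈ Finset.Icc 1 (KKH (Module.finrank ℚ K) δ), ∀ j ∈ (Finset.univ : Finset (Fin 3)),
      ∀ v, ((RR h j v).card : ℝ) ≤ C * B := by
    intro h hh j _ v
    rw [Finset.mem_Icc] at hh
    obtain ⟨I, J, hP⟩ := hPar h hh.1 hh.2
    rw [hRR]
    refine (card_side j W hW1 _ _ (hCR ℓ Q _ _ I J _ v hY0 hP.toParK) _ (Finset.filter_subset _ _)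
      (fun t ht => (Finset.mem_filter.mp ht).2)).trans ?_
    exact mul_le_mul hCRC hBR (Real.exp_pos _).le hC0
  have hFFc : ∀ h ∈ Finset.Icc 1 HU, ∀ j ∈ ({()} : Finset Unit), ((FF h j).card : ℝ) ≤ C * B := by
    intro h hh j _
    rw [Finset.mem_Icc] at hh
    obtain ⟨I, J, hP⟩ := hParU h hh.1 hh.2
    rw [hFF]
    refine (card_side 0 W hW1 _ _ (hCF ℓ Q _ I J _ hP) _ (Finset.filter_subset _ _)
      (fun t ht => (Finset.mem_filter.mp ht).2)).trans ?_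
    exact mul_le_mul hCFC hBU (Real.exp_pos _).le hC0
  have hIIc : ∀ h ∈ Finset.Icc 1 HU, ∀ j ∈ ({()} : Finset Unit), ∀ v,
      ((II h j v).card : ℝ) ≤ C * B := by
    intro h hh j _ v
    rw [Finset.mem_Icc] at hh
    obtain ⟨I, J, hP⟩ := hParU h hh.1 hh.2
    rw [hII]
    refine (card_side 0 W hW1 _ _ (hCI ℓ Q _ I J _ v hP) _ (Finset.filter_subset _ _)
      (fun t ht => (Finset.mem_filter.mp ht).2)).trans ?_
    exact mul_le_mul hCIC hBU (Real.exp_pos _).le hC0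
  have f1 := card_union_hjv (K := K) (KKH (Module.finrank ℚ K) δ) (Finset.univ : Finset (Fin 3)) r hr
    PP RR (C * B) hPPc hRRc
  have f2 := card_union_hjv (K := K) HU ({()} : Finset Unit) r hr FF II (C * B) hFFc hIIc
  have f3 := (Finset.card_le_card hcov).trans (Finset.card_union_le _ _)
  rw [← Nat.cast_le (α := ℝ)] at f3
  rw [Nat.cast_add] at f3
  refine (f3.trans (add_le_add f1 f2)).trans (le_of_eq ?_)
  rw [Finset.card_univ, Fintype.card_fin, Finset.card_singleton, ← hB]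
  push_cast
  ring

end AbcOrdH
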